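import Pool.Agent.Lib.MP_48b749_nt.Tors3.Alg

/-!
Lower bounds for the rank: the points of order three, and points with independent images.
-/

set_option autoImplicit false

open Polynomial IsDedekindDomain WithZero WeierstrassCurve

namespace Pool.Agent.BSDFF.T3

section
variable {K F : Type} [Field K] [Field F] [DecidableEq K] (E : Ext K F) {a b : K}

include E

/-- The points killed by three are `0` and `± (0, 0)`. -/
theorem three_torsion (P : (E3 a b).toAffine.Point) (hP : (3 : ℕ) • P = 0) :
    P = 0 ∨ ∃ h : (E3 a b).toAffine.Nonsingular 0 0, P = .some _ _ h ∨ P = -.some _ _ h := by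
  rcases P with _ | ⟨x, y, h⟩
  · left; rfl
  · right
    have hne : ¬(x = x ∧ y = -y - a * x - b) := by
      rintro ⟨_, h1⟩
      have h2 : (Affine.Point.some x y h : (E3 a b).toAffine.Point) = -.some x y h := by
        rw [Affine.Point.neg_some]
        congr 1
      have h3 : (3 : ℕ) • (Affine.Point.some x y h : (E3 a b).toAffine.Point) =
          .some x y h + (.some x y h + .some x y h) := by abel
      rw [h3] at hP
      nth_rw 3 [h2] at hP
      rw [add_neg_cancel, add_zero] at hP
      exact Affine.Point.some_ne_zero h hP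
    obtain ⟨l, n, x₃, h₃, e1, -, hc, hsum⟩ := add_some_some h h hne
    have h4 : (Affine.Point.some x y h : (E3 a b).toAffine.Point) =
        .some x₃ (l * x₃ + n) h₃ := by
      have h3 : (3 : ℕ) • (Affine.Point.some x y h : (E3 a b).toAffine.Point) =
          .some x y h + (.some x y h + .some x y h) := by abel
      rw [h3, hsum] at hP
      exact sub_eq_zero.mp (by rw [sub_eq_add_neg]; exact hP)
    have hx3 : x₃ = x := by
      rw [Affine.Point.some.injEq] at h4
      exact h4.1.symm
    subst hx3
    have hprod := hc.prod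
    have h5 : l * x₃ + n = n := by
      apply E.cube_inj
      rw [← hprod]; ring
    have hx : x₃ = 0 := by
      have h6 : l * x₃ = 0 := by linear_combination h5
      rcases mul_eq_zero.mp h6 with h7 | h7
      · have h8 := hc.1
        rw [h7] at h8
        have h9 : 3 * x₃ = 0 := by linear_combination h8
        rcases mul_eq_zero.mp h9 with h10 | h10
        · exact absurd h10 E.three
        · exact h10
      · exact h7
    subst hx
    have he := (eqn_iff a b 0 y).mp h.1
    have hy : y * (y + b) = 0 := by linear_combination he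
    have hT : (E3 a b).toAffine.Nonsingular 0 0 := by
      rcases mul_eq_zero.mp hy with h6 | h6
      · rw [← h6]
        convert h using 1
      · have h7 := (Affine.nonsingular_neg (W' := (E3 a b).toAffine) 0 y).mpr h
        have h8 : (E3 a b).toAffine.negY 0 y = 0 := by
          simp only [Affine.negY, E3]
          linear_combination -h6
        rwa [h8] at h7
    refine ⟨hT, ?_⟩
    rcases mul_eq_zero.mp hy with h6 | h6
    · left
      congr 1
    · right
      rw [Affine.Point.neg_some]
      congr 1
      simp only [Affine.negY, E3]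
      linear_combination h6

theorem card_three_torsion_le : Finite (MW.Gn (E3 a b).toAffine.Point 3) ∧
    Nat.card (MW.Gn (E3 a b).toAffine.Point 3) ≤ 3 := by
  classical
  by_cases hT : (E3 a b).toAffine.Nonsingular 0 0
  · have hsub : ∀ P : MW.Gn (E3 a b).toAffine.Point 3,
        P.1 ∈ ({0, .some _ _ hT, -.some _ _ hT} : Finset (E3 a b).toAffine.Point) := by
      rintro ⟨P, hP⟩
      rcases three_torsion E P hP with h | ⟨h, h1⟩
      · simp [h]
      · rcases h1 with h1 | h1 <;> simp [h1]
    let f : MW.Gn (E3 a b).toAffine.Point 3 →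
        ({0, .some _ _ hT, -.some _ _ hT} : Finset (E3 a b).toAffine.Point) :=
      fun P => ⟨P.1, hsub P⟩
    have hf : Function.Injective f := by
      intro P Q h
      have := congrArg Subtype.val h
      exact Subtype.ext this
    refine ⟨Finite.of_injective f hf, ?_⟩
    calc _ ≤ Nat.card ({0, .some _ _ hT, -.some _ _ hT} :
          Finset (E3 a b).toAffine.Point) := Nat.card_le_card_of_injective f hf
      _ = ({0, .some _ _ hT, -.some _ _ hT} : Finset (E3 a b).toAffine.Point).card := by
        rw [Nat.card_eq_fintype_card, Fintype.card_coe]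
      _ ≤ 3 := Finset.card_le_three
  · have hsub : ∀ P : MW.Gn (E3 a b).toAffine.Point 3, P.1 = 0 := by
      rintro ⟨P, hP⟩
      rcases three_torsion E P hP with h | ⟨h, _⟩
      · exact h
      · exact absurd h hT
    have : Subsingleton (MW.Gn (E3 a b).toAffine.Point 3) :=
      ⟨fun P Q => Subtype.ext ((hsub P).trans (hsub Q).symm)⟩
    refine ⟨inferInstance, ?_⟩
    have := Finite.card_le_one_iff_subsingleton.mpr this
    omega

end

section
variable {k k' : Type} [Field k] [Field k'] [Finite k] (E₀ : Ext k k') [DecidableEq (RatFunc k)]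
variable {A B : RatFunc k}

omit [Finite k] in
include E₀ in
/-- The number of elements of the image of a family of characters bounds the rank from below. -/
theorem rank_lower (h1 : Module.Finite ℤ (E3 A B).toAffine.Point) {ι : Type} [Finite ι]
    (f : (E3 A B).toAffine.Point →+ (ι → ZMod 3)) {t : ℕ} (ht : 3 ^ t ≤ Nat.card f.range) :
    t ≤ algebraicRank (E3 A B) + 1 := by
  have hfg : AddGroup.FG (E3 A B).toAffine.Point := Module.Finite.iff_addGroup_fg.mp h1
  have hidx := MW.index_nG (E3 A B).toAffine.Point hfg 3 (by norm_num)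
  rw [← MW.algebraicRank_eq] at hidx
  have hle : MW.nG (E3 A B).toAffine.Point 3 ≤ f.ker := by
    rintro _ ⟨P, rfl⟩
    rw [AddMonoidHom.mem_ker]
    change f ((3 : ℕ) • P) = 0
    rw [map_nsmul]
    ext i
    rw [Pi.smul_apply, Pi.zero_apply]
    generalize f P i = z
    revert z
    decide
  have hdvd := AddSubgroup.index_dvd_of_le hle
  rw [AddSubgroup.index_ker] at hdvd
  obtain ⟨hfin, hcard⟩ := card_three_torsion_le (a := A) (b := B) E₀.rat
  have hGn : 0 < Nat.card (MW.Gn (E3 A B).toAffine.Point 3) := Nat.card_pos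
  have hpos : 0 < (MW.nG (E3 A B).toAffine.Point 3).index := by
    rw [hidx]
    positivity
  have h2 : Nat.card f.range ≤ 3 ^ (algebraicRank (E3 A B) + 1) := by
    refine (Nat.le_of_dvd hpos hdvd).trans ?_
    rw [hidx, pow_succ]
    exact Nat.mul_le_mul_left _ hcard
  exact (Nat.pow_le_pow_iff_right (by norm_num)).mp (ht.trans h2)

/-- A homomorphism `(ZMod 3) ^ t`-valued with independent values of `t` points. -/
theorem card_range_of_det {G : Type} [AddCommGroup G] {t : ℕ} (f : G →+ (Fin t → ZMod 3))
    (Q : Fin t → G) (hdet : (Matrix.of fun i j => f (Q j) i).det ≠ 0) :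
    3 ^ t ≤ Nat.card f.range := by
  have : Fact (Nat.Prime 3) := ⟨Nat.prime_three⟩
  have hsurj : Function.Surjective f := by
    intro y
    have hu : IsUnit (Matrix.of fun i j => f (Q j) i).det := isUnit_iff_ne_zero.mpr hdet
    set M := Matrix.of fun i j => f (Q j) i with hM
    -- solve `M x = y`
    obtain ⟨x, hx⟩ : ∃ x : Fin t → ZMod 3, M.mulVec x = y :=
      ⟨M⁻¹.mulVec y, by rw [Matrix.mulVec_mulVec, Matrix.mul_nonsing_inv _ hu, Matrix.one_mulVec]⟩
    refine ⟨∑ j, (x j).val • Q j, ?_⟩
    rw [map_sum, ← hx]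
    ext i
    rw [Finset.sum_apply, Matrix.mulVec, dotProduct]
    refine Finset.sum_congr rfl fun j _ => ?_
    rw [map_nsmul, Pi.smul_apply, nsmul_eq_mul, hM, Matrix.of_apply, mul_comm]
    congr 1
    exact ZMod.natCast_zmod_val (x j)
  rw [AddMonoidHom.range_eq_top.mpr hsurj]
  simp

omit [Finite k] in
include E₀ in
/-- **Criterion**: `t` points whose `y`-coordinates have independent values modulo three at `t`
places give rank at least `t - 1` (the point `(0, 0)` of order three may be among them). -/
theorem rank_lower_det (hB0 : B ≠ 0) (h1 : Module.Finite ℤ (E3 A B).toAffine.Point) {t : ℕ}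
    (v : Fin t → HeightOneSpectrum k[X]) (Q : Fin t → (E3 A B).toAffine.Point)
    (hdet : (Matrix.of fun i j => alphaFun A B (vchar (pval (v i))) (Q j)).det ≠ 0) :
    t ≤ algebraicRank (E3 A B) + 1 := by
  let f : (E3 A B).toAffine.Point →+ (Fin t → ZMod 3) :=
    AddMonoidHom.mk' (fun P i => alpha hB0 (vchar_isChar (pval (v i))) P) (by
      intro P Q
      ext i
      exact map_add (alpha hB0 (vchar_isChar (pval (v i)))) P Q)
  exact rank_lower E₀ h1 f (card_range_of_det f Q hdet)

end

/-- **Criterion for polynomials** `a`, `b`: `t` points `(x j, y j)`, `y j ≠ 0` (for instance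
`(0, -b)`), and `t` irreducible polynomials `π i` such that the matrix of the values of `y j` at
`π i` modulo three is invertible, give `t ≤ rank + 1`. -/
theorem rank_ge {k : Type} [Field k] [Finite k] (h3 : (3 : k) ≠ 0) (hq : Nat.card k % 3 = 2)
    {a b : k[X]} (hb : b ≠ 0) (hc : a ^ 3 - 27 * b ≠ 0)
    (h1 : open Classical in Module.Finite ℤ (Three.E3 a b).toAffine.Point) {t : ℕ}
    (π : Fin t → k[X]) (hπ : ∀ i, Irreducible (π i)) (x y : Fin t → RatFunc k)
    (hy : ∀ j, y j ≠ 0)
    (hxy : ∀ j, y j ^ 2 + algebraMap k[X] (RatFunc k) a * x j * y j +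
      algebraMap k[X] (RatFunc k) b * y j = x j ^ 3)
    (hdet : (Matrix.of fun i j => vchar (pval (ofPrime (hπ i).prime)) (y j)).det ≠ 0) :
    t ≤ algebraicRank (Three.E3 a b) + 1 := by
  classical
  obtain ⟨k', _, _, -, ⟨E₀⟩⟩ := exists_ext k hq h3
  have hB0 : algebraMap k[X] (RatFunc k) b ≠ 0 := by simpa using hb
  have hC0 : (algebraMap k[X] (RatFunc k) a) ^ 3 - 27 * algebraMap k[X] (RatFunc k) b ≠ 0 := by
    have e : (algebraMap k[X] (RatFunc k) a) ^ 3 - 27 * algebraMap k[X] (RatFunc k) b =
        algebraMap k[X] (RatFunc k) (a ^ 3 - 27 * b) := by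
      rw [map_sub, map_mul, map_pow, map_ofNat]
    rw [e]
    exact (map_ne_zero_iff _ (IsFractionRing.injective k[X] (RatFunc k))).mpr hc
  have h1' : Module.Finite ℤ (E3 (algebraMap k[X] (RatFunc k) a)
      (algebraMap k[X] (RatFunc k) b)).toAffine.Point := h1
  refine rank_lower_det E₀ hB0 h1' (fun i => ofPrime (hπ i).prime)
    (fun j => .some (x j) (y j) (nonsing hB0 hC0 (hxy j))) ?_
  have e : (Matrix.of fun i j => alphaFun (algebraMap k[X] (RatFunc k) a)
      (algebraMap k[X] (RatFunc k) b) (vchar (pval (ofPrime (hπ i).prime)))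
      (.some (x j) (y j) (nonsing hB0 hC0 (hxy j)))) =
      (Matrix.of fun i j => vchar (pval (ofPrime (hπ i).prime)) (y j)) := by
    ext i j
    simp only [Matrix.of_apply, alphaFun, if_neg (hy j)]
  rw [e]
  exact hdet

/-- The value modulo three of a polynomial `π ^ n * g`, `π` not dividing `g`. -/
theorem vchar_poly {k : Type} [Field k] {π g : k[X]} (hπ : Irreducible π) (hg : ¬ π ∣ g) (n : ℕ) :
    vchar (pval (ofPrime hπ.prime)) (algebraMap k[X] (RatFunc k) (π ^ n * g)) = -(n : ZMod 3) := by
  have hg0 : g ≠ 0 := by rintro rfl; exact hg (dvd_zero π)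
  have h1 : pval (ofPrime hπ.prime) (algebraMap k[X] (RatFunc k) g) = 1 := by
    rw [pval_eq_one_iff]
    intro h
    exact hg (Ideal.mem_span_singleton.mp h)
  have h2 : pval (ofPrime hπ.prime) (algebraMap k[X] (RatFunc k) π) = exp (-1 : ℤ) := by
    unfold pval
    rw [HeightOneSpectrum.valuation_of_algebraMap,
      HeightOneSpectrum.intValuation_singleton _ hπ.ne_zero rfl]
  unfold vchar
  rw [map_mul, map_pow, map_mul, map_pow, h1, h2, mul_one, log_pow, log_exp]
  simp

end Pool.Agent.BSDFF.T3
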