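import Pool.Agent.Lib.MP_48b749_nt.Tors3.Loc
import Pool.Agent.Lib.MP_48b749_nt.Three.RankT

/-!
The bound for the rank of `y² + a x y + b y = x³` over `k(t)`.
-/

set_option autoImplicit false

open Polynomial IsDedekindDomain WithZero WeierstrassCurve

namespace Pool.Agent.BSDFF.T3

section
variable {k : Type} [Field k] [Finite k] [DecidableEq (RatFunc k)]

omit [Finite k] in
/-- The degree relation for the image of the first map, when infinity imposes no condition. -/
theorem alpha_sum {a b : k[X]} (hb0 : b ≠ 0) (h3b : 3 ∣ b.natDegree)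
    (hab : 3 * a.natDegree ≤ b.natDegree) (S : Finset (HeightOneSpectrum k[X]))
    (hS : ∀ v, v ∉ S → b ∉ v.asIdeal)
    (P : (E3 (algebraMap k[X] (RatFunc k) a) (algebraMap k[X] (RatFunc k) b)).toAffine.Point) :
    ∑ v ∈ S, alphaFun (algebraMap k[X] (RatFunc k) a) (algebraMap k[X] (RatFunc k) b)
      (vchar (pval v)) P * ((MW.vdeg v : ℕ) : ZMod 3) = 0 := by
  have hB0 : algebraMap k[X] (RatFunc k) b ≠ 0 := by simpa using hb0
  have hBv : ∀ v, v ∉ S → pval v (algebraMap k[X] (RatFunc k) b) = 1 := fun v hv =>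
    (pval_eq_one_iff v b).mpr (hS v hv)
  rcases P with _ | ⟨x, y, h⟩
  · simp [alphaFun]
  · have he := (eqn_iff _ _ x y).mp h.1
    by_cases hy : y = 0
    · have hfun : ∀ v : HeightOneSpectrum k[X], alphaFun (algebraMap k[X] (RatFunc k) a)
          (algebraMap k[X] (RatFunc k) b) (vchar (pval v)) (.some x y h) =
          2 * vchar (pval v) (algebraMap k[X] (RatFunc k) b) := by
        intro v
        simp only [alphaFun, if_pos hy]
      have h1 := degree_mod3 hB0 S (by
        intro v hv
        rw [vchar_eq_zero, hBv v hv, log_one]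
        exact dvd_zero _)
      rw [RatFunc.intDegree_polynomial] at h1
      have h2 : (((b.natDegree : ℤ) : ℤ) : ZMod 3) = 0 := by
        rw [ZMod.intCast_zmod_eq_zero_iff_dvd]
        exact_mod_cast h3b
      rw [h2, neg_zero] at h1
      rw [Finset.sum_congr rfl (fun v _ => by rw [hfun v, mul_assoc]), ← Finset.mul_sum, h1,
        mul_zero]
    · have hfun : ∀ v : HeightOneSpectrum k[X], alphaFun (algebraMap k[X] (RatFunc k) a)
          (algebraMap k[X] (RatFunc k) b) (vchar (pval v)) (.some x y h) =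
          vchar (pval v) y := by
        intro v
        simp only [alphaFun, if_neg hy]
      have h1 := degree_mod3 hy S (by
        intro v hv
        rw [vchar_eq_zero]
        refine local_alpha (pval v) hB0 (s := 0) ?_ ?_ he hy
        · rw [exp_zero]; exact pval_poly_le v a
        · rw [hBv v hv, mul_zero, exp_zero])
      have h2 : (((y.intDegree : ℤ) : ℤ) : ZMod 3) = 0 := by
        rw [ZMod.intCast_zmod_eq_zero_iff_dvd]
        have h3 := local_alpha (RatFunc.inftyValuation k) hB0 (s := ((b.natDegree / 3 : ℕ) : ℤ))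
          (infty_poly_le a (by
            push_cast
            omega))
          (by
            rw [infty_poly hb0]
            congr 1
            omega) he hy
        rw [RatFunc.inftyValuation_apply, RatFunc.inftyValuation_of_nonzero k hy, log_exp] at h3
        exact_mod_cast h3
      rw [h2, neg_zero] at h1
      rw [Finset.sum_congr rfl (fun v _ => by rw [hfun v]), h1]

omit [Finite k] in
/-- The image of the first map is in a hyperplane when infinity imposes no condition. -/
theorem range_bound {a b : k[X]} (hB0 : algebraMap k[X] (RatFunc k) b ≠ 0)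
    (h3b : 3 ∣ b.natDegree)
    (hab : 3 * a.natDegree ≤ b.natDegree) (S : Finset (HeightOneSpectrum k[X]))
    (hS : ∀ v, v ∉ S → b ∉ v.asIdeal) {v₀ : HeightOneSpectrum k[X]} (hv₀ : v₀ ∈ S)
    (hdeg : ¬ 3 ∣ MW.vdeg v₀) :
    Nat.card (alphaMap (a := algebraMap k[X] (RatFunc k) a) hB0 S).range ≤ 3 ^ (S.card - 1) := by
  classical
  have hb0 : b ≠ 0 := by rintro rfl; simp at hB0
  let f : (S → ZMod 3) →+ ZMod 3 :=
    { toFun := fun e => ∑ v, e v * ((MW.vdeg v.1 : ℕ) : ZMod 3)
      map_zero' := by simp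
      map_add' := by
        intro x y
        rw [← Finset.sum_add_distrib]
        refine Finset.sum_congr rfl fun v _ => ?_
        rw [Pi.add_apply]; ring }
  have hle : (alphaMap (a := algebraMap k[X] (RatFunc k) a) hB0 S).range ≤ f.ker := by
    rintro _ ⟨P, rfl⟩
    rw [AddMonoidHom.mem_ker]
    have h1 := alpha_sum hb0 h3b hab S hS P
    rw [← Finset.sum_coe_sort] at h1
    exact h1
  have hsurj : Function.Surjective f := by
    have hd : ((MW.vdeg v₀ : ℕ) : ZMod 3) ≠ 0 := by
      rw [Ne, ZMod.natCast_eq_zero_iff]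
      exact hdeg
    intro z
    refine ⟨Pi.single ⟨v₀, hv₀⟩ (z / ((MW.vdeg v₀ : ℕ) : ZMod 3)), ?_⟩
    change ∑ v, (Pi.single (⟨v₀, hv₀⟩ : S) (z / ((MW.vdeg v₀ : ℕ) : ZMod 3)) : S → ZMod 3) v *
      ((MW.vdeg v.1 : ℕ) : ZMod 3) = z
    rw [Finset.sum_eq_single (⟨v₀, hv₀⟩ : S)]
    · rw [Pi.single_eq_same]
      have : Fact (Nat.Prime 3) := ⟨Nat.prime_three⟩
      field_simp
    · intro v _ hv
      rw [Pi.single_eq_of_ne hv, zero_mul]
    · intro h; exact absurd (Finset.mem_univ _) h
  have hcard := f.ker.card_mul_index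
  rw [AddSubgroup.index_ker, AddMonoidHom.range_eq_top.mpr hsurj, card_fun] at hcard
  simp only [AddSubgroup.card_top, Nat.card_zmod] at hcard
  have hpos : 0 < S.card := Finset.card_pos.mpr ⟨v₀, hv₀⟩
  have h3 : Nat.card f.ker = 3 ^ (S.card - 1) := by
    have : 3 ^ S.card = 3 ^ (S.card - 1) * 3 := by
      rw [← pow_succ]; congr 1; omega
    rw [this] at hcard
    exact Nat.eq_of_mul_eq_mul_right (by norm_num) hcard
  rw [← h3]
  exact Nat.card_le_card_of_injective (Set.inclusion hle) (Set.inclusion_injective hle)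

end

section final

variable {k : Type} [Field k]

/-- The primes given by a finite set of irreducible polynomials. -/
noncomputable def toPrimes (S : Finset k[X]) (hS : ∀ P ∈ S, Irreducible P) :
    Finset (HeightOneSpectrum k[X]) := by
  classical
  exact S.attach.image (fun P => ofPrime (hS P.1 P.2).prime)

theorem toPrimes_card (S : Finset k[X]) (hS : ∀ P ∈ S, Irreducible P) :
    (toPrimes S hS).card ≤ S.card := by
  classical
  unfold toPrimes
  exact Finset.card_image_le.trans (by rw [Finset.card_attach])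

theorem mem_toPrimes {S : Finset k[X]} {hS : ∀ P ∈ S, Irreducible P}
    {v : HeightOneSpectrum k[X]} {P : k[X]} (hP : P ∈ S) (hv : P ∈ v.asIdeal) :
    v ∈ toPrimes S hS := by
  classical
  unfold toPrimes
  rw [Finset.mem_image]
  refine ⟨⟨P, hP⟩, Finset.mem_attach _ _, ?_⟩
  apply eq_of_le
  exact (Ideal.span_singleton_le_iff_mem _).mpr hv

/-- The monic generator of a prime. -/
theorem exists_monic (v : HeightOneSpectrum k[X]) :
    ∃ P : k[X], P.Monic ∧ Irreducible P ∧ v.asIdeal = Ideal.span {P} ∧ P.natDegree = MW.vdeg v := by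
  have h0 := MW.gen_ne_zero v
  have hlc : (gen v).leadingCoeff⁻¹ ≠ 0 := inv_ne_zero (leadingCoeff_ne_zero.mpr h0)
  have hass : Associated (gen v * C (gen v).leadingCoeff⁻¹) (gen v) := by
    refine ⟨(isUnit_C.mpr (isUnit_iff_ne_zero.mpr (inv_ne_zero hlc))).unit, ?_⟩
    rw [IsUnit.unit_spec, mul_assoc, ← C_mul, mul_inv_cancel₀ hlc, C_1, mul_one]
  have hsp : v.asIdeal = Ideal.span {gen v * C (gen v).leadingCoeff⁻¹} := by
    rw [Ideal.span_singleton_eq_span_singleton.mpr hass]
    exact MW.span_gen v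
  refine ⟨_, monic_mul_leadingCoeff_inv h0, ?_, hsp, ?_⟩
  · exact hass.symm.irreducible (MW.gen_prime v).irreducible
  · rw [MW.vdeg_eq v hsp]

end final

open Three in
/-- **The bound for the rank.** -/
theorem algebraic_bound {k : Type} [Field k] [Finite k] (h3 : (3 : k) ≠ 0)
    (hq : Nat.card k % 3 = 2)
    (a b : k[X]) (hb : b ≠ 0) (hc : a ^ 3 - 27 * b ≠ 0)
    (hmin : ∀ π : k[X], π.Monic → Irreducible π → π ∣ a → ¬ π ^ 3 ∣ b)
    (hloc : ¬(3 ∣ b.natDegree ∧ 3 * a.natDegree ≤ b.natDegree) ∨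
      ∃ π : k[X], π.Monic ∧ Irreducible π ∧ π ∣ b ∧ ¬ 3 ∣ π.natDegree) :
    (open Classical in Module.Finite ℤ (Three.E3 a b).toAffine.Point) ∧
      algebraicRank (Three.E3 a b) + 2 ≤ (primesOf b).card +
        (open Classical in ((primesOf (a ^ 3 - 27 * b)).filter
          (fun π => Even π.natDegree)).card) +
        (if 3 ∣ b.natDegree ∧ 3 * a.natDegree ≤ b.natDegree then 0 else 1) := by
  classical
  obtain ⟨k', _, _, hq', ⟨E₀⟩⟩ := exists_ext k hq h3
  have hB0 : algebraMap k[X] (RatFunc k) b ≠ 0 := by simpa using hb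
  have eC : (algebraMap k[X] (RatFunc k) a) ^ 3 - 27 * algebraMap k[X] (RatFunc k) b =
      algebraMap k[X] (RatFunc k) (a ^ 3 - 27 * b) := by
    rw [map_sub, map_mul, map_pow, map_ofNat]
  have hC0 : (algebraMap k[X] (RatFunc k) a) ^ 3 - 27 * algebraMap k[X] (RatFunc k) b ≠ 0 := by
    rw [eC]
    exact (map_ne_zero_iff _ (IsFractionRing.injective k[X] (RatFunc k))).mpr hc
  -- the finite sets of primes
  let Tb := primesOf b
  let Tc := (primesOf (a ^ 3 - 27 * b)).filter (fun π => Even π.natDegree)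
  have hTb : ∀ P ∈ Tb, Irreducible P := fun P hP => (primesOf_spec hP).2.1
  have hTc : ∀ P ∈ Tc, Irreducible P := fun P hP =>
    (primesOf_spec (Finset.mem_filter.mp hP).1).2.1
  let Sb := toPrimes Tb hTb
  let Sc := toPrimes Tc hTc
  have hSb : ∀ v : HeightOneSpectrum k[X], v ∉ Sb → b ∉ v.asIdeal := by
    intro v hv hbv
    apply hv
    obtain ⟨P, hP1, hP2, hP3, hP4⟩ := exists_monic v
    rw [hP3, Ideal.mem_span_singleton] at hbv
    refine mem_toPrimes ((mem_primesOf_iff hb).mpr ⟨hP1, hP2, hbv⟩) ?_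
    rw [hP3]
    exact Ideal.mem_span_singleton_self P
  have hSc : ∀ w : HeightOneSpectrum k'[X], contr E₀ w ∉ Sc → Even (MW.vdeg (contr E₀ w)) →
      pval w (E₀.rat.ι ((algebraMap k[X] (RatFunc k) a) ^ 3 -
        27 * algebraMap k[X] (RatFunc k) b)) = 1 := by
    intro w hw hev
    rw [eC, rat_ι, pval_eq_one_iff, ← mem_contr]
    intro hcv
    apply hw
    obtain ⟨P, hP1, hP2, hP3, hP4⟩ := exists_monic (contr E₀ w)
    rw [hP3, Ideal.mem_span_singleton] at hcv
    refine mem_toPrimes (Finset.mem_filter.mpr ⟨(mem_primesOf_iff hc).mpr ⟨hP1, hP2, hcv⟩, ?_⟩) ?_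
    · rw [hP4]; exact hev
    · rw [hP3]
      exact Ideal.mem_span_singleton_self P
  have hLoc : Loc E₀ (algebraMap k[X] (RatFunc k) a) (algebraMap k[X] (RatFunc k) b) := by
    by_cases he : 3 ∣ b.natDegree ∧ 3 * a.natDegree ≤ b.natDegree
    · rcases hloc with h | ⟨P, hP1, hP2, hP3, hP4⟩
      · exact absurd he h
      · refine loc_finite E₀ hq' hb hc (ofPrime hP2.prime) ?_ ?_ ?_
        · rw [MW.vdeg_eq (ofPrime hP2.prime) rfl]; exact hP4
        · exact Ideal.mem_span_singleton.mpr hP3
        · by_cases hPa : P ∣ a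
          · right
            intro h
            apply hmin P hP1 hP2 hPa
            have h' : b ∈ Ideal.span {P} ^ 3 := h
            rwa [Ideal.span_singleton_pow, Ideal.mem_span_singleton] at h'
          · left
            intro h
            exact hPa (Ideal.mem_span_singleton.mp h)
    · exact loc_infty E₀ hb hc he
  have key : ∀ N : ℕ, Nat.card (alphaMap (a := algebraMap k[X] (RatFunc k) a) hB0 Sb).range ≤
      3 ^ N → Module.Finite ℤ (Three.E3 a b).toAffine.Point ∧
      algebraicRank (Three.E3 a b) + 1 ≤ N + Sc.card := by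
    intro N hN
    obtain ⟨i1, i2⟩ := index_bound E₀ hB0 hC0 (fun v => pval_poly_le v a)
      (fun w => by rw [rat_ι]; exact pval_poly_le w _) Sb Sc
      (fun v hv => (pval_eq_one_iff v b).mpr (hSb v hv)) hSc hLoc N hN
    exact rank_bound hB0 hC0 i1 i2
  have cb : Sb.card ≤ (primesOf b).card := toPrimes_card Tb hTb
  have cc : Sc.card ≤ ((primesOf (a ^ 3 - 27 * b)).filter (fun π => Even π.natDegree)).card :=
    toPrimes_card Tc hTc
  by_cases he : 3 ∣ b.natDegree ∧ 3 * a.natDegree ≤ b.natDegree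
  · rcases hloc with h | ⟨P, hP1, hP2, hP3, hP4⟩
    · exact absurd he h
    · have hmem : ofPrime hP2.prime ∈ Sb :=
        mem_toPrimes ((mem_primesOf_iff hb).mpr ⟨hP1, hP2, hP3⟩)
          (Ideal.mem_span_singleton_self P)
      obtain ⟨h1, h2⟩ := key (Sb.card - 1) (range_bound hB0 he.1 he.2 Sb hSb hmem
        (by rw [MW.vdeg_eq (ofPrime hP2.prime) rfl]; exact hP4))
      refine ⟨h1, ?_⟩
      rw [if_pos he]
      have hpos : 0 < Sb.card := Finset.card_pos.mpr ⟨_, hmem⟩
      omega
  · obtain ⟨h1, h2⟩ := key Sb.card (by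
      rw [← card_fun Sb]
      exact Nat.card_le_card_of_injective _ Subtype.val_injective)
    refine ⟨h1, ?_⟩
    rw [if_neg he]
    omega

end Pool.Agent.BSDFF.T3
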