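import Pool.Agent.Lib.MP_48b749_nt.Tors3.Group

/-!
The first map of the descent: `(x, y) ↦ y` modulo cubes, seen through a character.
-/

set_option autoImplicit false

open WeierstrassCurve

namespace Pool.Agent.BSDFF.T3

/-- A homomorphism from the nonzero elements of `K` to `ℤ/3`. -/
def IsChar {K : Type} [Field K] (φ : K → ZMod 3) : Prop :=
  ∀ x y : K, x ≠ 0 → y ≠ 0 → φ (x * y) = φ x + φ y

section char
variable {K : Type} [Field K] {φ : K → ZMod 3} (hφ : IsChar φ)
include hφ

theorem IsChar.one : φ 1 = 0 := by
  have := hφ 1 1 one_ne_zero one_ne_zero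
  rw [mul_one] at this
  exact left_eq_add.mp this

theorem IsChar.neg {x : K} (hx : x ≠ 0) : φ (-x) = φ x := by
  have h1 := hφ (-1) (-1) (by simp) (by simp)
  rw [neg_mul_neg, mul_one, hφ.one] at h1
  have h2 : ∀ z : ZMod 3, 0 = z + z → z = 0 := by decide
  have h3 := h2 _ h1
  have := hφ (-1) x (by simp) hx
  rw [h3, zero_add, neg_one_mul] at this
  exact this

theorem IsChar.cube {x : K} (hx : x ≠ 0) : φ (x ^ 3) = 0 := by
  have h : x ^ 3 = x * (x * x) := by ring
  rw [h, hφ x _ hx (mul_ne_zero hx hx), hφ x x hx hx]
  generalize φ x = z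
  revert z
  decide

theorem IsChar.div {x y : K} (hx : x ≠ 0) (hy : y ≠ 0) : φ (x / y) = φ x - φ y := by
  have := hφ (x / y) y (div_ne_zero hx hy) hy
  rw [div_mul_cancel₀ x hy] at this
  rw [this, add_sub_cancel_right]

theorem IsChar.mul3 {x y z : K} (hx : x ≠ 0) (hy : y ≠ 0) (hz : z ≠ 0) :
    φ (x * y * z) = φ x + φ y + φ z := by
  rw [hφ _ _ (mul_ne_zero hx hy) hz, hφ _ _ hx hy]

end char

variable {K : Type} [Field K] [DecidableEq K]

/-- The function `P ↦ φ (y (P))`. -/
def alphaFun (a b : K) (φ : K → ZMod 3) : (E3 a b).toAffine.Point → ZMod 3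
  | .zero => 0
  | .some _ y _ => if y = 0 then 2 * φ b else φ y

theorem alpha_add {a b : K} (hb : b ≠ 0) {φ : K → ZMod 3} (hφ : IsChar φ)
    (P Q : (E3 a b).toAffine.Point) :
    alphaFun a b φ (P + Q) = alphaFun a b φ P + alphaFun a b φ Q := by
  refine add_of_coll ⊤ (alphaFun a b φ) rfl ?_ ?_ P Q trivial trivial
  · rintro (_ | ⟨x, y, h⟩) _
    · rw [← Affine.Point.zero_def, neg_zero]
      exact (neg_zero (G := ZMod 3)).symm
    · rw [Affine.Point.neg_some]
      have he := (eqn_iff a b x y).mp h.1
      have hn : (E3 a b).toAffine.negY x y = -y - a * x - b := by simp [Affine.negY, E3]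
      simp only [alphaFun, hn]
      by_cases hy : y = 0
      · subst hy
        have hx : x = 0 := by
          have : x ^ 3 = 0 := by rw [← he]; ring
          exact pow_eq_zero_iff (by norm_num) |>.mp this
        subst hx
        have h1 : -(0 : K) - a * 0 - b = -b := by ring
        rw [h1, if_neg (neg_ne_zero.mpr hb), if_pos rfl, hφ.neg hb]
        generalize φ b = z
        revert z
        decide
      · by_cases hy' : -y - a * x - b = 0
        · have hx : x = 0 := by
            have : x ^ 3 = 0 := by rw [← he]; linear_combination -y * hy'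
            exact pow_eq_zero_iff (by norm_num) |>.mp this
          subst hx
          have h1 : y = -b := by linear_combination -hy'
          rw [if_pos hy', if_neg hy, h1, hφ.neg hb]
          generalize φ b = z
          revert z
          decide
        · rw [if_neg hy', if_neg hy]
          have hx : x ≠ 0 := by
            rintro rfl
            have h1 : y * (-y - a * 0 - b) = 0 := by linear_combination -he
            rcases mul_eq_zero.mp h1 with h | h
            · exact hy h
            · exact hy' h
          have h1 : (-y - a * x - b) * y = -x ^ 3 := by linear_combination -he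
          have h2 := hφ _ _ hy' hy
          rw [h1, hφ.neg (pow_ne_zero 3 hx), hφ.cube hx] at h2
          exact eq_neg_of_add_eq_zero_left h2.symm
  · intro l n x₁ x₂ x₃ h₁ h₂ h₃ hc _ _ _
    simp only [alphaFun]
    have hprod := hc.prod
    by_cases hn : n = 0
    · subst hn
      obtain ⟨e1, e2, e3⟩ := hc
      -- one of the `x i` vanishes
      have key : ∀ u v w : K, u + v + w = l ^ 2 + a * l →
          u * v + u * w + v * w = -(2 * l * 0 + a * 0 + b * l) → u * v * w = 0 ^ 2 + b * 0 →
          w = 0 →
          (if l * u + 0 = 0 then 2 * φ b else φ (l * u + 0)) +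
          (if l * v + 0 = 0 then 2 * φ b else φ (l * v + 0)) +
          (if l * w + 0 = 0 then 2 * φ b else φ (l * w + 0)) = 0 := by
        intro u v w f1 f2 f3 hw
        subst hw
        have f2' : u * v = -(b * l) := by linear_combination f2
        by_cases hl : l = 0
        · subst hl
          simp only [zero_mul, add_zero, if_true]
          generalize φ b = z
          revert z
          decide
        · have huv : u * v ≠ 0 := by
            rw [f2']
            exact neg_ne_zero.mpr (mul_ne_zero hb hl)
          have hu : u ≠ 0 := left_ne_zero_of_mul huv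
          have hv : v ≠ 0 := right_ne_zero_of_mul huv
          have g1 : l * u + 0 ≠ 0 := by rw [add_zero]; exact mul_ne_zero hl hu
          have g2 : l * v + 0 ≠ 0 := by rw [add_zero]; exact mul_ne_zero hl hv
          have g3 : l * 0 + 0 = 0 := by ring
          rw [if_neg g1, if_neg g2, if_pos g3, ← hφ _ _ g1 g2]
          have g4 : (l * u + 0) * (l * v + 0) = (-b) * l ^ 3 := by
            linear_combination l ^ 2 * f2'
          rw [g4, hφ _ _ (neg_ne_zero.mpr hb) (pow_ne_zero 3 hl), hφ.neg hb, hφ.cube hl]
          generalize φ b = z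
          revert z
          decide
      have h0 : x₁ * x₂ * x₃ = 0 := by rw [e3]; ring
      rcases mul_eq_zero.mp h0 with h0 | h0
      · rcases mul_eq_zero.mp h0 with h0 | h0
        · have := key x₂ x₃ x₁ (by linear_combination e1) (by linear_combination e2)
            (by linear_combination e3) h0
          rw [← this]
          ring
        · have := key x₁ x₃ x₂ (by linear_combination e1) (by linear_combination e2)
            (by linear_combination e3) h0
          rw [← this]
          ring
      · exact key x₁ x₂ x₃ e1 e2 e3 h0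
    · have hn3 : n ^ 3 ≠ 0 := pow_ne_zero 3 hn
      rw [← hprod] at hn3
      have g3 := right_ne_zero_of_mul hn3
      have g12 := left_ne_zero_of_mul hn3
      have g1 := left_ne_zero_of_mul g12
      have g2 := right_ne_zero_of_mul g12
      rw [if_neg g1, if_neg g2, if_neg g3, ← hφ.mul3 g1 g2 g3, hprod, hφ.cube hn]

/-- The homomorphism `P ↦ φ (y (P))`. -/
def alpha {a b : K} (hb : b ≠ 0) {φ : K → ZMod 3} (hφ : IsChar φ) :
    (E3 a b).toAffine.Point →+ ZMod 3 where
  toFun := alphaFun a b φ
  map_zero' := rfl
  map_add' := alpha_add hb hφ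

end Pool.Agent.BSDFF.T3
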