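import Pool.Agent.Lib.MP_48b749_nt.Tors3.Const

/-!
The quadratic extension of the constants, when `q ≡ 2 (mod 3)`.
-/

set_option autoImplicit false

open Polynomial

namespace Pool.Agent.BSDFF.T3

theorem exists_ext (k : Type) [Field k] [Finite k] (hq : Nat.card k % 3 = 2) (h3 : (3 : k) ≠ 0) :
    ∃ (k' : Type) (_ : Field k') (_ : Finite k'), Nat.card k' % 3 = 1 ∧ Nonempty (Ext k k') := by
  classical
  obtain ⟨p, hp⟩ := CharP.exists k
  have hpp : Fact p.Prime := ⟨CharP.char_is_prime k p⟩
  let k' := FiniteField.Extension k p 2
  have hcard : Nat.card k' = Nat.card k ^ 2 := FiniteField.natCard_extension k p 2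
  have hmod : Nat.card k' % 3 = 1 := by
    rw [hcard, Nat.pow_mod, hq]
  refine ⟨k', inferInstance, inferInstance, hmod, ?_⟩
  have hpos : 0 < Nat.card k' := Nat.card_pos
  -- an element of order three
  have hunits : 3 ∣ Nat.card k'ˣ := by
    rw [Nat.card_units]
    omega
  have : Fact (Nat.Prime 3) := ⟨Nat.prime_three⟩
  obtain ⟨w, hw⟩ := exists_prime_orderOf_dvd_card' 3 hunits
  have hw3 : (w : k') ^ 3 = 1 := by
    have := pow_orderOf_eq_one w
    rw [hw] at this
    rw [← Units.val_pow_eq_pow_val, this, Units.val_one]
  have hw1 : (w : k') ≠ 1 := by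
    intro h
    have h1 : w = 1 := by ext; exact h
    rw [h1, orderOf_one] at hw
    norm_num at hw
  have hwrel : (w : k') ^ 2 + w + 1 = 0 := by
    have : ((w : k') - 1) * ((w : k') ^ 2 + w + 1) = 0 := by linear_combination hw3
    rcases mul_eq_zero.mp this with h | h
    · exact absurd (sub_eq_zero.mp h) hw1
    · exact h
  refine ⟨{
    ι := algebraMap k k'
    σ := (FiniteField.Extension.frob k p 2 : k' →+* k')
    ω := w
    hω := hwrel
    σω := ?_
    σι := ?_
    σσ := ?_
    fixed := ?_
    three := h3 }⟩
  · change FiniteField.Extension.frob k p 2 (w : k') = (w : k') ^ 2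
    rw [FiniteField.Extension.frob_apply]
    have : Nat.card k = 3 * (Nat.card k / 3) + 2 := by omega
    rw [this, pow_add, pow_mul, hw3, one_pow, one_mul]
  · intro x
    change FiniteField.Extension.frob k p 2 (algebraMap k k' x) = algebraMap k k' x
    exact AlgEquiv.commutes _ x
  · intro x
    change FiniteField.Extension.frob k p 2 (FiniteField.Extension.frob k p 2 x) = x
    rw [FiniteField.Extension.frob_apply, FiniteField.Extension.frob_apply, ← pow_mul, ← sq,
      ← hcard]
    have := Fintype.ofFinite k'
    rw [Nat.card_eq_fintype_card]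
    exact FiniteField.pow_card x
  · intro x hx
    have hx' : FiniteField.Extension.frob k p 2 x = x := hx
    have : x ∈ (⊥ : IntermediateField k k') := by
      rw [IsGalois.mem_bot_iff_fixed]
      intro f
      obtain ⟨i, _, rfl⟩ := FiniteField.Extension.exists_frob_pow_eq k p 2 f
      clear * - hx'
      induction i with
      | zero => rfl
      | succ n ih => rw [pow_succ, AlgEquiv.mul_apply, hx', ih]
    exact IntermediateField.mem_bot.mp this

/-- Every element of a finite field with `q ≡ 2 (mod 3)` is a cube. -/
theorem exists_cube_root {k k' : Type} [Field k] [Field k'] [Finite k] (E : Ext k k') (c : k) :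
    ∃ d : k, d ^ 3 = c := by
  have hinj : Function.Injective (fun x : k => x ^ 3) := fun x y h => E.cube_inj h
  exact (Finite.surjective_of_injective hinj) c

end Pool.Agent.BSDFF.T3
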