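import Pool.Agent.Lib.MP_48b749_nt.Tors3.Alpha

/-!
The second map of the descent: `P ↦ m / m'` modulo cubes of the quadratic extension.
-/

set_option autoImplicit false

open WeierstrassCurve

namespace Pool.Agent.BSDFF.T3

/-- The quadratic extension `F = K(ω)`, `ω` a primitive cube root of unity, with its
automorphism. -/
structure Ext (K F : Type) [Field K] [Field F] where
  /-- the inclusion -/
  ι : K →+* F
  /-- the nontrivial automorphism -/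
  σ : F →+* F
  /-- the cube root of unity -/
  ω : F
  hω : ω ^ 2 + ω + 1 = 0
  σω : σ ω = ω ^ 2
  σι : ∀ x, σ (ι x) = ι x
  σσ : ∀ x, σ (σ x) = x
  fixed : ∀ x, σ x = x → ∃ y, ι y = x
  three : (3 : K) ≠ 0

theorem key_identity {F : Type} [Field F] {ω l n a b e1 e2 : F} (hω : ω ^ 2 + ω + 1 = 0)
    (R1 : l ^ 2 * a = e1 ^ 3 - l ^ 3 - 3 * e1 * e2)
    (R2 : l ^ 3 * b = n * (e1 ^ 3 - l ^ 3) - e2 ^ 3) :
    l ^ 3 * (e1 ^ 3 - l ^ 3) * (27 * (ω * e1 - ω ^ 2 * l) ^ 3 * n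
      - 9 * (ω * e1 - ω ^ 2 * l) ^ 2 * (3 * ω * e2 + l * a) * e2
      + 3 * (ω * e1 - ω ^ 2 * l) * (3 * ω * e2 + l * a) ^ 2 * e1
      - (3 * ω * e2 + l * a) ^ 3) = - l ^ 6 * (a ^ 3 - 27 * b) * (ω * e1 - ω ^ 2 * l) ^ 3 := by
  obtain ⟨h, hh⟩ : ∃ h, h = e1 - ω * l := ⟨_, rfl⟩
  obtain ⟨g, hg⟩ : ∃ g, g = e1 ^ 2 + ω * l * e1 + ω ^ 2 * l ^ 2 := ⟨_, rfl⟩
  have hω3 : ω ^ 3 = 1 := by linear_combination (ω - 1) * hω
  have hS : e1 ^ 3 - l ^ 3 = h * g := by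
    rw [hh, hg]; linear_combination l ^ 3 * hω3
  have hu : ω * e1 - ω ^ 2 * l = ω * h := by rw [hh]; ring
  have hv : l * (3 * ω * e2 + l * a) = h * (g - 3 * e2) := by
    have : l * (3 * ω * e2 + l * a) = 3 * ω * l * e2 + l ^ 2 * a := by ring
    rw [this, R1]
    have : h * (g - 3 * e2) = h * g - 3 * e2 * h := by ring
    rw [this, ← hS, hh]
    ring
  have hc : l ^ 6 * (a ^ 3 - 27 * b) = (h * g - 3 * e1 * e2) ^ 3 - 27 * l ^ 3 * (n * (h * g) - e2 ^ 3) := by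
    rw [← hS]
    linear_combination (l ^ 4 * a ^ 2 + l ^ 2 * a * (e1 ^ 3 - l ^ 3 - 3 * e1 * e2) +
      (e1 ^ 3 - l ^ 3 - 3 * e1 * e2) ^ 2) * R1 - 27 * l ^ 3 * R2
  have key : -9 * l ^ 2 * ω ^ 2 * e2 + 3 * l * ω * (g - 3 * e2) * e1 - (g - 3 * e2) ^ 2 =
      -((h * (e1 - ω ^ 2 * l) - 3 * e2) * (h * (e1 - l) - 3 * e2)) := by
    rw [hh, hg]
    linear_combination (-ω ^ 2 * l ^ 3 * e1 + 2 * ω * l ^ 2 * e1 ^ 2 - 3 * ω * l ^ 2 * e2
      - l * e1 ^ 3 + 3 * l * e1 * e2) * hω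
  have hg2 : g = (e1 - l) * (e1 - ω ^ 2 * l) := by
    rw [hg]; linear_combination l * e1 * hω
  have f1 : (h * g - 3 * e1 * e2) + ω * (3 * l * e2) = h * (g - 3 * e2) := by
    linear_combination 3 * e2 * hh
  have f2 : (h * g - 3 * e1 * e2) + (3 * l * e2) =
      (e1 - l) * (h * (e1 - ω ^ 2 * l) - 3 * e2) := by
    linear_combination h * hg2
  have f3 : (h * g - 3 * e1 * e2) + ω ^ 2 * (3 * l * e2) =
      (e1 - ω ^ 2 * l) * (h * (e1 - l) - 3 * e2) := by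
    linear_combination h * hg2
  have f4 : (h * g - 3 * e1 * e2) ^ 3 + (3 * l * e2) ^ 3 =
      g * (h * (g - 3 * e2)) * ((h * (e1 - ω ^ 2 * l) - 3 * e2) * (h * (e1 - l) - 3 * e2)) := by
    have : (h * g - 3 * e1 * e2) ^ 3 + (3 * l * e2) ^ 3 =
        ((h * g - 3 * e1 * e2) + (3 * l * e2)) * ((h * g - 3 * e1 * e2) + ω * (3 * l * e2)) *
        ((h * g - 3 * e1 * e2) + ω ^ 2 * (3 * l * e2)) := by
      generalize (h * g - 3 * e1 * e2) = X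
      generalize (3 * l * e2) = Y
      linear_combination (-X ^ 2 * Y - ω * X * Y ^ 2 - (ω - 1) * Y ^ 3) * hω
    rw [this, f1, f2, f3, hg2]
    ring
  have lhs : l ^ 3 * (e1 ^ 3 - l ^ 3) * (27 * (ω * e1 - ω ^ 2 * l) ^ 3 * n
      - 9 * (ω * e1 - ω ^ 2 * l) ^ 2 * (3 * ω * e2 + l * a) * e2
      + 3 * (ω * e1 - ω ^ 2 * l) * (3 * ω * e2 + l * a) ^ 2 * e1
      - (3 * ω * e2 + l * a) ^ 3) = h * g * (27 * l ^ 3 * (ω * h) ^ 3 * n -
        9 * l ^ 2 * (ω * h) ^ 2 * (h * (g - 3 * e2)) * e2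
        + 3 * l * (ω * h) * (h * (g - 3 * e2)) ^ 2 * e1 - (h * (g - 3 * e2)) ^ 3) := by
    rw [← hv, ← hu, ← hS]
    ring
  rw [lhs, neg_mul, neg_mul, hc, hu]
  have e0 : (ω * h) ^ 3 = h ^ 3 := by rw [mul_pow, hω3, one_mul]
  rw [e0]
  linear_combination (h * g * h ^ 3 * (g - 3 * e2)) * key + h ^ 3 * f4

namespace Ext

variable {K F : Type} [Field K] [Field F] (E : Ext K F)

include E

theorem three' : (3 : F) ≠ 0 := by
  intro h
  apply E.three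
  apply E.ι.injective
  rw [map_zero, map_ofNat]
  exact h

theorem ω3 : E.ω ^ 3 = 1 := by linear_combination (E.ω - 1) * E.hω

theorem ω_ne_zero : E.ω ≠ 0 := by
  intro h
  have := E.ω3
  rw [h] at this
  simp at this

theorem ω_ne_one : E.ω ≠ 1 := by
  intro h
  have := E.hω
  rw [h] at this
  apply E.three'
  linear_combination this

theorem ω_ne : E.ω ≠ E.ω ^ 2 := by
  intro h
  have h2 : E.ω * (E.ω - 1) = 0 := by linear_combination -h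
  rcases mul_eq_zero.mp h2 with h | h
  · exact E.ω_ne_zero h
  · exact E.ω_ne_one (sub_eq_zero.mp h)

theorem hω2 : (E.ω ^ 2) ^ 2 + E.ω ^ 2 + 1 = 0 := by
  linear_combination (E.ω ^ 2 - E.ω + 1) * E.hω

theorem σω2 : E.σ (E.ω ^ 2) = E.ω := by
  rw [map_pow, E.σω]
  linear_combination E.ω * E.ω3

/-- If `ι x = ω ι y` then both vanish. -/
theorem eq_zero_of {x y : K} (h : E.ι x = E.ω * E.ι y) : y = 0 := by
  have h2 := congrArg E.σ h
  rw [map_mul, E.σι, E.σι, E.σω] at h2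
  have h3 : (E.ω - E.ω ^ 2) * E.ι y = 0 := by linear_combination h2 - h
  rcases mul_eq_zero.mp h3 with h4 | h4
  · exact absurd (sub_eq_zero.mp h4) E.ω_ne
  · exact (map_eq_zero E.ι).mp h4

/-- Cube roots in `K` are unique. -/
theorem cube_inj {x y : K} (h : x ^ 3 = y ^ 3) : x = y := by
  by_contra hne
  have h1 : (x - y) * (x ^ 2 + x * y + y ^ 2) = 0 := by linear_combination h
  have h2 : x ^ 2 + x * y + y ^ 2 = 0 := by
    rcases mul_eq_zero.mp h1 with h | h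
    · exact absurd (sub_eq_zero.mp h) hne
    · exact h
  have h3 := congrArg E.ι h2
  simp only [map_add, map_mul, map_pow, map_zero] at h3
  have h4 : (E.ι x - E.ω * E.ι y) * (E.ι x - E.ω ^ 2 * E.ι y) = 0 := by
    linear_combination h3 - (E.ι x * E.ι y) * E.hω + (E.ι y ^ 2) * E.ω3
  have h5 : y = 0 := by
    rcases mul_eq_zero.mp h4 with h | h
    · exact E.eq_zero_of (sub_eq_zero.mp h)
    · have h6 := congrArg E.σ (sub_eq_zero.mp h)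
      rw [map_mul, E.σι, E.σι, E.σω2] at h6
      exact E.eq_zero_of h6
  subst h5
  apply hne
  have : x ^ 2 = 0 := by linear_combination h2
  exact pow_eq_zero_iff (by norm_num) |>.mp this

omit E in
/-- The element `m`. -/
noncomputable def mm (E : Ext K F) (a A B : K) : F :=
  E.ω * E.ι B - E.ω ^ 2 * E.ι A - E.ι a / 3

omit E in
/-- The element `m'`. -/
noncomputable def mm' (E : Ext K F) (a A B : K) : F :=
  E.ω ^ 2 * E.ι B - E.ω * E.ι A - E.ι a / 3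

theorem σ_mm (a A B : K) : E.σ (E.mm a A B) = E.mm' a A B := by
  simp only [mm, mm', map_sub, map_mul, E.σι, E.σω, E.σω2, map_div₀, map_ofNat]

theorem σ_mm' (a A B : K) : E.σ (E.mm' a A B) = E.mm a A B := by
  rw [← E.σ_mm, E.σσ]

theorem sum_mm (a A B : K) : E.ι (B - A - a / 3) + E.mm a A B + E.mm' a A B = E.ι (-a) := by
  have h3 := E.three'
  simp only [mm, mm', map_sub, map_div₀, map_ofNat, map_neg]
  field_simp
  linear_combination (3 * (E.ι B - E.ι A)) * E.hω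

theorem prod_mm {a b A B : K} (h : B ^ 3 - A ^ 3 = a * A * B + b) :
    E.ι (B - A - a / 3) * E.mm a A B * E.mm' a A B = E.ι (-(a ^ 3 - 27 * b) / 27) := by
  have h3 := E.three'
  have h27 : (27 : F) ≠ 0 := by
    have : (27 : F) = 3 ^ 3 := by norm_num
    rw [this]; exact pow_ne_zero 3 h3
  have h' := congrArg E.ι h
  simp only [map_add, map_mul, map_pow, map_sub] at h'
  simp only [mm, mm', map_sub, map_div₀, map_ofNat, map_neg, map_mul, map_pow]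
  have key : ∀ X Y Z : F, (X + Y + Z) * (E.ω * X + E.ω ^ 2 * Y + Z) *
      (E.ω ^ 2 * X + E.ω * Y + Z) = X ^ 3 + Y ^ 3 + Z ^ 3 - 3 * X * Y * Z := by
    intro X Y Z
    have e1 : (E.ω * X + E.ω ^ 2 * Y + Z) * (E.ω ^ 2 * X + E.ω * Y + Z) =
        X ^ 2 + Y ^ 2 + Z ^ 2 - X * Y - Y * Z - X * Z := by
      linear_combination ((E.ω - 1) * X ^ 2 + (E.ω - 1) * Y ^ 2 +
        (E.ω ^ 2 - E.ω + 1) * X * Y + X * Z + Y * Z) * E.hω
    rw [mul_assoc, e1]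
    ring
  have h5 := key (E.ι B) (-E.ι A) (-(E.ι a / 3))
  have h6 : (E.ι B - E.ι A - E.ι a / 3) * (E.ω * E.ι B - E.ω ^ 2 * E.ι A - E.ι a / 3) *
      (E.ω ^ 2 * E.ι B - E.ω * E.ι A - E.ι a / 3) =
      (E.ι B + -E.ι A + -(E.ι a / 3)) * (E.ω * E.ι B + E.ω ^ 2 * -E.ι A + -(E.ι a / 3)) *
      (E.ω ^ 2 * E.ι B + E.ω * -E.ι A + -(E.ι a / 3)) := by ring
  rw [h6, h5]
  field_simp
  have h7 : (27 : F) = 3 ^ 3 := by norm_num
  linear_combination 27 * 27 * h'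

theorem c_div_ne {a b : K} (hc : a ^ 3 - 27 * b ≠ 0) : E.ι (-(a ^ 3 - 27 * b) / 27) ≠ 0 := by
  have h27 : (27 : K) ≠ 0 := by
    have : (27 : K) = 3 ^ 3 := by norm_num
    rw [this]; exact pow_ne_zero 3 E.three
  rw [map_ne_zero]
  exact div_ne_zero (neg_ne_zero.mpr hc) h27

theorem ll_ne_zero {a b A B : K} (h : B ^ 3 - A ^ 3 = a * A * B + b)
    (hc : a ^ 3 - 27 * b ≠ 0) : B - A - a / 3 ≠ 0 := by
  have h1 := E.c_div_ne hc
  rw [← E.prod_mm h] at h1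
  have := left_ne_zero_of_mul (left_ne_zero_of_mul h1)
  rwa [map_ne_zero] at this

theorem mm_ne_zero {a b A B : K} (h : B ^ 3 - A ^ 3 = a * A * B + b)
    (hc : a ^ 3 - 27 * b ≠ 0) : E.mm a A B ≠ 0 := by
  have h1 := E.c_div_ne hc
  rw [← E.prod_mm h] at h1
  exact right_ne_zero_of_mul (left_ne_zero_of_mul h1)

theorem mm'_ne_zero {a b A B : K} (h : B ^ 3 - A ^ 3 = a * A * B + b)
    (hc : a ^ 3 - 27 * b ≠ 0) : E.mm' a A B ≠ 0 := by
  have h1 := E.c_div_ne hc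
  rw [← E.prod_mm h] at h1
  exact right_ne_zero_of_mul h1

/-- `A B = x` for the cube roots. -/
theorem AB_eq {a b x y A B : K} (he : y ^ 2 + a * x * y + b * y = x ^ 3)
    (hA : A ^ 3 = y) (hB : B ^ 3 = y + a * x + b) : A * B = x := by
  apply E.cube_inj
  rw [mul_pow, hA, hB, ← he]
  ring

theorem slopeB {a b l n x₁ x₂ x₃ A₁ A₂ A₃ B₁ : K}
    (hc : Coll a b l n x₁ x₂ x₃)
    (hA₁ : A₁ ^ 3 = l * x₁ + n) (hA₂ : A₂ ^ 3 = l * x₂ + n) (hA₃ : A₃ ^ 3 = l * x₃ + n)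
    (hB₁ : B₁ ^ 3 = l * x₁ + n + a * x₁ + b) (hAB : A₁ * B₁ = x₁) (hn : A₁ * A₂ * A₃ = n) :
    l * B₁ = A₁ ^ 2 - A₂ * A₃ := by
  by_cases h0 : A₁ = 0
  · subst h0
    have hn0 : n = 0 := by rw [← hn]; ring
    subst hn0
    have hx : x₁ = 0 := by rw [← hAB]; ring
    subst hx
    have e2 := hc.2.1
    apply E.cube_inj
    linear_combination l ^ 3 * hB₁ + A₃ ^ 3 * hA₂ + l * x₂ * hA₃ + l ^ 2 * e2
  · apply mul_left_cancel₀ h0
    linear_combination l * hAB - hA₁ + hn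

omit [Field F] E in
/-- The relations between the symmetric functions. -/
theorem rels {a b l n x₁ x₂ x₃ A₁ A₂ A₃ B₁ B₂ B₃ : K}
    (hc : Coll a b l n x₁ x₂ x₃)
    (hB₁ : l * B₁ = A₁ ^ 2 - A₂ * A₃) (hB₂ : l * B₂ = A₂ ^ 2 - A₁ * A₃)
    (hB₃ : l * B₃ = A₃ ^ 2 - A₁ * A₂)
    (h₁ : A₁ * B₁ = x₁) (h₂ : A₂ * B₂ = x₂) (h₃ : A₃ * B₃ = x₃) (hn : A₁ * A₂ * A₃ = n) :
    l ^ 2 * a = (A₁ + A₂ + A₃) ^ 3 - l ^ 3 -
        3 * (A₁ + A₂ + A₃) * (A₁ * A₂ + A₁ * A₃ + A₂ * A₃) ∧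
      l ^ 3 * b = n * ((A₁ + A₂ + A₃) ^ 3 - l ^ 3) - (A₁ * A₂ + A₁ * A₃ + A₂ * A₃) ^ 3 := by
  obtain ⟨e1, e2, e3⟩ := hc
  have R1 : l ^ 2 * a = (A₁ + A₂ + A₃) ^ 3 - l ^ 3 -
        3 * (A₁ + A₂ + A₃) * (A₁ * A₂ + A₁ * A₃ + A₂ * A₃) := by
    linear_combination (-l) * e1 - l * h₁ - l * h₂ - l * h₃ + A₁ * hB₁ + A₂ * hB₂ + A₃ * hB₃
  refine ⟨R1, ?_⟩
  have h : l * (l ^ 2 * b) + l ^ 2 * (2 * l * n + a * n) =
      -(A₁ * (l * B₁) * (A₂ * (l * B₂)) + A₁ * (l * B₁) * (A₃ * (l * B₃)) +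
        A₂ * (l * B₂) * (A₃ * (l * B₃))) := by
    have e2' : A₁ * B₁ * (A₂ * B₂) + A₁ * B₁ * (A₃ * B₃) + A₂ * B₂ * (A₃ * B₃) =
      -(2 * l * n + a * n + b * l) := by rw [h₁, h₂, h₃, e2]
    linear_combination l ^ 2 * e2'
  rw [hB₁, hB₂, hB₃] at h
  have h5 : l ^ 3 * b = -n * (l ^ 2 * a) - 2 * l ^ 3 * n -
      (A₁ * (A₁ ^ 2 - A₂ * A₃) * (A₂ * (A₂ ^ 2 - A₁ * A₃)) +
      A₁ * (A₁ ^ 2 - A₂ * A₃) * (A₃ * (A₃ ^ 2 - A₁ * A₂)) +
        A₂ * (A₂ ^ 2 - A₁ * A₃) * (A₃ * (A₃ ^ 2 - A₁ * A₂))) := by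
    linear_combination h
  rw [h5, R1, ← hn]
  ring

/-- The product formula for `m` on a line. -/
theorem triple {a b l n x₁ x₂ x₃ A₁ A₂ A₃ B₁ B₂ B₃ : K}
    (hc0 : a ^ 3 - 27 * b ≠ 0) (hc : Coll a b l n x₁ x₂ x₃)
    (hA₁ : A₁ ^ 3 = l * x₁ + n) (hA₂ : A₂ ^ 3 = l * x₂ + n) (hA₃ : A₃ ^ 3 = l * x₃ + n)
    (hB₁ : B₁ ^ 3 = l * x₁ + n + a * x₁ + b) (hB₂ : B₂ ^ 3 = l * x₂ + n + a * x₂ + b)
    (hB₃ : B₃ ^ 3 = l * x₃ + n + a * x₃ + b) :
    ∃ z : F, z ≠ 0 ∧ E.mm a A₁ B₁ * E.mm a A₂ B₂ * E.mm a A₃ B₃ =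
      z ^ 3 * (E.mm' a A₁ B₁ * E.mm' a A₂ B₂ * E.mm' a A₃ B₃) := by
  have h3 := E.three'
  have q₁ := E.AB_eq (by linear_combination hc.eqn₁) hA₁ hB₁
  have q₂ := E.AB_eq (by linear_combination hc.eqn₂) hA₂ hB₂
  have q₃ := E.AB_eq (by linear_combination hc.eqn₃) hA₃ hB₃
  have hn : A₁ * A₂ * A₃ = n := by
    apply E.cube_inj
    rw [← hc.prod, ← hA₁, ← hA₂, ← hA₃]
    ring
  have r₁ : B₁ ^ 3 - A₁ ^ 3 = a * A₁ * B₁ + b := by linear_combination hB₁ - hA₁ - a * q₁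
  have r₂ : B₂ ^ 3 - A₂ ^ 3 = a * A₂ * B₂ + b := by linear_combination hB₂ - hA₂ - a * q₂
  have r₃ : B₃ ^ 3 - A₃ ^ 3 = a * A₃ * B₃ + b := by linear_combination hB₃ - hA₃ - a * q₃
  by_cases hl : l = 0
  · subst hl
    have s12 : A₁ = A₂ := E.cube_inj (by rw [hA₁, hA₂]; ring)
    have s13 : A₁ = A₃ := E.cube_inj (by rw [hA₁, hA₃]; ring)
    subst s12 s13
    by_cases h0 : A₁ = 0
    · subst h0
      have x1 : x₁ = 0 := by rw [← q₁]; ring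
      have x2 : x₂ = 0 := by rw [← q₂]; ring
      have x3 : x₃ = 0 := by rw [← q₃]; ring
      subst x1 x2 x3
      have t12 : B₁ = B₂ := E.cube_inj (by rw [hB₁, hB₂])
      have t13 : B₁ = B₃ := E.cube_inj (by rw [hB₁, hB₃])
      subst t12 t13
      refine ⟨E.mm a 0 B₁ / E.mm' a 0 B₁, div_ne_zero (E.mm_ne_zero r₁ hc0)
        (E.mm'_ne_zero r₁ hc0), ?_⟩
      have := E.mm'_ne_zero r₁ hc0
      field_simp
    · obtain ⟨e1, e2, e3⟩ := hc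
      rw [← q₁, ← q₂, ← q₃] at e1 e2 e3
      rw [← hn] at e2 e3
      have f1 : B₁ + B₂ + B₃ = 0 := by
        apply mul_left_cancel₀ h0
        linear_combination e1
      have f2 : B₁ * B₂ + B₁ * B₃ + B₂ * B₃ = -(a * A₁) := by
        apply mul_left_cancel₀ (pow_ne_zero 2 h0)
        linear_combination e2
      have f3 : B₁ * B₂ * B₃ = A₁ ^ 3 + b := by
        apply mul_left_cancel₀ (pow_ne_zero 3 h0)
        linear_combination e3
      have g1 := congrArg E.ι f1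
      have g2 := congrArg E.ι f2
      have g3 := congrArg E.ι f3
      simp only [map_add, map_mul, map_pow, map_neg, map_zero] at g1 g2 g3
      refine ⟨1, one_ne_zero, ?_⟩
      have gen : ∀ w : F, w ^ 2 + w + 1 = 0 → w ^ 3 = 1 →
          (w * E.ι B₁ - w ^ 2 * E.ι A₁ - E.ι a / 3) * (w * E.ι B₂ - w ^ 2 * E.ι A₁ - E.ι a / 3) *
          (w * E.ι B₃ - w ^ 2 * E.ι A₁ - E.ι a / 3) = E.ι b - E.ι a ^ 3 / 27 := by
        intro w hw hw3
        have h27 : (27 : F) = 3 ^ 3 := by norm_num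
        set s := w ^ 2 * E.ι A₁ + E.ι a / 3 with hs
        have e : (w * E.ι B₁ - w ^ 2 * E.ι A₁ - E.ι a / 3) *
            (w * E.ι B₂ - w ^ 2 * E.ι A₁ - E.ι a / 3) *
            (w * E.ι B₃ - w ^ 2 * E.ι A₁ - E.ι a / 3) =
            w ^ 3 * (E.ι B₁ * E.ι B₂ * E.ι B₃) - s * w ^ 2 * (E.ι B₁ * E.ι B₂ + E.ι B₁ * E.ι B₃ +
              E.ι B₂ * E.ι B₃) + s ^ 2 * w * (E.ι B₁ + E.ι B₂ + E.ι B₃) - s ^ 3 := by
          rw [hs]; ring
        rw [e, g1, g2, g3, hs, h27]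
        have w4 : w ^ 4 = w := by linear_combination w * hw3
        have w5 : w ^ 5 = w ^ 2 := by linear_combination w ^ 2 * hw3
        have w6 : w ^ 6 = 1 := by linear_combination (w ^ 3 + 1) * hw3
        field_simp
        linear_combination (27 * E.ι A₁ ^ 3 + 27 * E.ι b) * hw3 - 27 * E.ι A₁ ^ 3 * w6
      have G1 := gen E.ω E.hω E.ω3
      have G2 := gen (E.ω ^ 2) E.hω2 (by rw [← pow_mul, mul_comm, pow_mul, E.ω3, one_pow])
      have w4 : (E.ω ^ 2) ^ 2 = E.ω := by linear_combination E.ω * E.ω3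
      rw [w4] at G2
      simp only [mm, mm']
      rw [G1, G2]
      ring
  · have b₁ := E.slopeB hc hA₁ hA₂ hA₃ hB₁ q₁ hn
    have b₂ := E.slopeB hc.perm12 hA₂ hA₁ hA₃ hB₂ q₂ (by rw [← hn]; ring)
    have b₃ := E.slopeB (hc.perm23.perm12) hA₃ hA₁ hA₂ hB₃ q₃ (by rw [← hn]; ring)
    obtain ⟨R1, R2⟩ := rels hc b₁ b₂ b₃ q₁ q₂ q₃ hn
    have S1 := congrArg E.ι R1
    have S2 := congrArg E.ι R2
    have c₁ := congrArg E.ι b₁
    have c₂ := congrArg E.ι b₂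
    have c₃ := congrArg E.ι b₃
    have cn := congrArg E.ι hn
    have hl' : E.ι l ≠ 0 := (map_ne_zero E.ι).mpr hl
    have hcF : E.ι (a ^ 3 - 27 * b) ≠ 0 := (map_ne_zero E.ι).mpr hc0
    simp only [map_add, map_mul, map_pow, map_sub, map_ofNat] at S1 S2 c₁ c₂ c₃ cn hcF
    set e1 := E.ι A₁ + E.ι A₂ + E.ι A₃ with he1
    set e2 := E.ι A₁ * E.ι A₂ + E.ι A₁ * E.ι A₃ + E.ι A₂ * E.ι A₃ with he2
    clear_value e1 e2
    -- the identity for both roots of unity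
    have gen : ∀ w : F, w ^ 2 + w + 1 = 0 →
        27 * (e1 ^ 3 - E.ι l ^ 3) * ((w * E.ι B₁ - w ^ 2 * E.ι A₁ - E.ι a / 3) *
          (w * E.ι B₂ - w ^ 2 * E.ι A₂ - E.ι a / 3) * (w * E.ι B₃ - w ^ 2 * E.ι A₃ - E.ι a / 3)) =
        -(E.ι a ^ 3 - 27 * E.ι b) * (w * e1 - w ^ 2 * E.ι l) ^ 3 := by
      intro w hw
      have h1 := key_identity hw S1 S2
      have k₁ : E.ι l * (w * E.ι B₁ - w ^ 2 * E.ι A₁ - E.ι a / 3) =
          (w * e1 - w ^ 2 * E.ι l) * E.ι A₁ - (w * e2 + E.ι l * E.ι a / 3) := by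
        rw [he1, he2]; linear_combination w * c₁
      have k₂ : E.ι l * (w * E.ι B₂ - w ^ 2 * E.ι A₂ - E.ι a / 3) =
          (w * e1 - w ^ 2 * E.ι l) * E.ι A₂ - (w * e2 + E.ι l * E.ι a / 3) := by
        rw [he1, he2]; linear_combination w * c₂
      have k₃ : E.ι l * (w * E.ι B₃ - w ^ 2 * E.ι A₃ - E.ι a / 3) =
          (w * e1 - w ^ 2 * E.ι l) * E.ι A₃ - (w * e2 + E.ι l * E.ι a / 3) := by
        rw [he1, he2]; linear_combination w * c₃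
      set u := w * e1 - w ^ 2 * E.ι l with hu
      set v := w * e2 + E.ι l * E.ι a / 3 with hv
      have hv3 : 3 * w * e2 + E.ι l * E.ι a = 3 * v := by
        rw [hv]; field_simp
      rw [hv3] at h1
      have k : E.ι l ^ 3 * ((w * E.ι B₁ - w ^ 2 * E.ι A₁ - E.ι a / 3) *
          (w * E.ι B₂ - w ^ 2 * E.ι A₂ - E.ι a / 3) *
          (w * E.ι B₃ - w ^ 2 * E.ι A₃ - E.ι a / 3)) =
          u ^ 3 * E.ι n - u ^ 2 * v * e2 + u * v ^ 2 * e1 - v ^ 3 := by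
        have : E.ι l ^ 3 * ((w * E.ι B₁ - w ^ 2 * E.ι A₁ - E.ι a / 3) *
          (w * E.ι B₂ - w ^ 2 * E.ι A₂ - E.ι a / 3) *
          (w * E.ι B₃ - w ^ 2 * E.ι A₃ - E.ι a / 3)) =
          (E.ι l * (w * E.ι B₁ - w ^ 2 * E.ι A₁ - E.ι a / 3)) *
          (E.ι l * (w * E.ι B₂ - w ^ 2 * E.ι A₂ - E.ι a / 3)) *
          (E.ι l * (w * E.ι B₃ - w ^ 2 * E.ι A₃ - E.ι a / 3)) := by ring
        rw [this, k₁, k₂, k₃, ← cn, he1, he2]
        ring
      apply mul_left_cancel₀ (pow_ne_zero 6 hl')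
      linear_combination h1 + 27 * E.ι l ^ 3 * (e1 ^ 3 - E.ι l ^ 3) * k
    have G1 := gen E.ω E.hω
    have G2 := gen (E.ω ^ 2) E.hω2
    have w4 : (E.ω ^ 2) ^ 2 = E.ω := by linear_combination E.ω * E.ω3
    rw [w4] at G2
    have M1 : E.mm a A₁ B₁ * E.mm a A₂ B₂ * E.mm a A₃ B₃ ≠ 0 :=
      mul_ne_zero (mul_ne_zero (E.mm_ne_zero r₁ hc0) (E.mm_ne_zero r₂ hc0)) (E.mm_ne_zero r₃ hc0)
    have M2 : E.mm' a A₁ B₁ * E.mm' a A₂ B₂ * E.mm' a A₃ B₃ ≠ 0 :=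
      mul_ne_zero (mul_ne_zero (E.mm'_ne_zero r₁ hc0) (E.mm'_ne_zero r₂ hc0))
        (E.mm'_ne_zero r₃ hc0)
    change 27 * (e1 ^ 3 - E.ι l ^ 3) * (E.mm a A₁ B₁ * E.mm a A₂ B₂ * E.mm a A₃ B₃) = _ at G1
    change 27 * (e1 ^ 3 - E.ι l ^ 3) * (E.mm' a A₁ B₁ * E.mm' a A₂ B₂ * E.mm' a A₃ B₃) = _ at G2
    have h27 : (27 : F) ≠ 0 := by
      have : (27 : F) = 3 ^ 3 := by norm_num
      rw [this]; exact pow_ne_zero 3 h3
    have hS : e1 ^ 3 - E.ι l ^ 3 ≠ 0 := by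
      intro h0
      rw [h0] at G1
      have hu : (E.ω * e1 - E.ω ^ 2 * E.ι l) ^ 3 = 0 := by
        have : (E.ι a ^ 3 - 27 * E.ι b) * (E.ω * e1 - E.ω ^ 2 * E.ι l) ^ 3 = 0 := by
          linear_combination G1
        rcases mul_eq_zero.mp this with h | h
        · exact absurd h hcF
        · exact h
      have hu' := pow_eq_zero_iff (by norm_num) |>.mp hu
      have he : E.ι (A₁ + A₂ + A₃) = E.ω * E.ι l := by
        apply mul_left_cancel₀ E.ω_ne_zero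
        rw [map_add, map_add, ← he1]
        linear_combination hu'
      exact hl (E.eq_zero_of he)
    have hu1 : E.ω * e1 - E.ω ^ 2 * E.ι l ≠ 0 := by
      intro h0
      rw [h0] at G1
      have : 27 * (e1 ^ 3 - E.ι l ^ 3) * (E.mm a A₁ B₁ * E.mm a A₂ B₂ * E.mm a A₃ B₃) = 0 := by
        rw [G1]; ring
      exact mul_ne_zero (mul_ne_zero h27 hS) M1 this
    have hu2 : E.ω ^ 2 * e1 - E.ω * E.ι l ≠ 0 := by
      intro h0
      rw [h0] at G2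
      have : 27 * (e1 ^ 3 - E.ι l ^ 3) * (E.mm' a A₁ B₁ * E.mm' a A₂ B₂ * E.mm' a A₃ B₃) = 0 := by
        rw [G2]; ring
      exact mul_ne_zero (mul_ne_zero h27 hS) M2 this
    refine ⟨(E.ω * e1 - E.ω ^ 2 * E.ι l) / (E.ω ^ 2 * e1 - E.ω * E.ι l),
      div_ne_zero hu1 hu2, ?_⟩
    rw [div_pow]
    have hu3 := pow_ne_zero 3 hu2
    rw [div_mul_eq_mul_div, eq_div_iff hu3]
    apply mul_left_cancel₀ (mul_ne_zero h27 hS)
    linear_combination (E.ω ^ 2 * e1 - E.ω * E.ι l) ^ 3 * G1 -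
      (E.ω * e1 - E.ω ^ 2 * E.ι l) ^ 3 * G2

end Ext

/-- A cube root, if there is one. -/
noncomputable def cbrt {K : Type} [Field K] (x : K) : K :=
  open Classical in if h : ∃ z, z ^ 3 = x then h.choose else 0

theorem cbrt_pow {K : Type} [Field K] {x : K} (h : ∃ z, z ^ 3 = x) : cbrt x ^ 3 = x := by
  classical
  have : cbrt x = h.choose := by
    unfold cbrt
    rw [dif_pos h]
  rw [this]
  exact h.choose_spec

section
variable {K F : Type} [Field K] [Field F] [DecidableEq K] (E : Ext K F) {a b : K}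

/-- The function `P ↦ φ (m / m')`. -/
noncomputable def betaFun (E : Ext K F) (a b : K) (φ : F → ZMod 3) :
    (E3 a b).toAffine.Point → ZMod 3
  | .zero => 0
  | .some x y _ => φ (E.mm a (cbrt y) (cbrt (y + a * x + b))) -
      φ (E.mm' a (cbrt y) (cbrt (y + a * x + b)))

/-- All points of the subgroup have `y` and `y + a x + b` cubes. -/
def CubeSub (H : AddSubgroup (E3 a b).toAffine.Point) : Prop :=
  ∀ (x y : K) (h : (E3 a b).toAffine.Nonsingular x y), Affine.Point.some x y h ∈ H →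
    (∃ z, z ^ 3 = y) ∧ ∃ z, z ^ 3 = y + a * x + b

omit [DecidableEq K] in
include E in
theorem AB_rel {x y : K} (he : y ^ 2 + a * x * y + b * y = x ^ 3) (h1 : ∃ z, z ^ 3 = y)
    (h2 : ∃ z, z ^ 3 = y + a * x + b) :
    cbrt (y + a * x + b) ^ 3 - cbrt y ^ 3 = a * cbrt y * cbrt (y + a * x + b) + b := by
  have h := E.AB_eq he (cbrt_pow h1) (cbrt_pow h2)
  rw [cbrt_pow h1, cbrt_pow h2]
  linear_combination -a * h

theorem beta_add {H : AddSubgroup (E3 a b).toAffine.Point} (hH : CubeSub H)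
    (hc0 : a ^ 3 - 27 * b ≠ 0) {φ : F → ZMod 3} (hφ : IsChar φ)
    (P Q : (E3 a b).toAffine.Point) (hP : P ∈ H) (hQ : Q ∈ H) :
    betaFun E a b φ (P + Q) = betaFun E a b φ P + betaFun E a b φ Q := by
  refine add_of_coll H (betaFun E a b φ) rfl ?_ ?_ P Q hP hQ
  · rintro (_ | ⟨x, y, h⟩) hP
    · rw [← Affine.Point.zero_def, neg_zero]
      exact (neg_zero (G := ZMod 3)).symm
    · rw [Affine.Point.neg_some]
      have he := (eqn_iff a b x y).mp h.1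
      have hn : (E3 a b).toAffine.negY x y = -y - a * x - b := by simp [Affine.negY, E3]
      obtain ⟨h1, h2⟩ := hH x y h hP
      simp only [betaFun, hn]
      have e1 : cbrt (-y - a * x - b) = -cbrt (y + a * x + b) := by
        apply E.cube_inj
        rw [cbrt_pow]
        · rw [neg_pow, cbrt_pow h2]; ring
        · obtain ⟨z, hz⟩ := h2
          exact ⟨-z, by rw [neg_pow, hz]; ring⟩
      have e2 : cbrt (-y - a * x - b + a * x + b) = -cbrt y := by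
        have : -y - a * x - b + a * x + b = -y := by ring
        rw [this]
        apply E.cube_inj
        rw [cbrt_pow]
        · rw [neg_pow, cbrt_pow h1]; ring
        · obtain ⟨z, hz⟩ := h1
          exact ⟨-z, by rw [neg_pow, hz]; ring⟩
      rw [e1, e2]
      have e3 : E.mm a (-cbrt (y + a * x + b)) (-cbrt y) =
          E.mm' a (cbrt y) (cbrt (y + a * x + b)) := by
        simp only [Ext.mm, Ext.mm', map_neg]; ring
      have e4 : E.mm' a (-cbrt (y + a * x + b)) (-cbrt y) =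
          E.mm a (cbrt y) (cbrt (y + a * x + b)) := by
        simp only [Ext.mm, Ext.mm', map_neg]; ring
      rw [e3, e4]
      ring
  · intro l n x₁ x₂ x₃ h₁ h₂ h₃ hc g₁ g₂ g₃
    obtain ⟨u₁, v₁⟩ := hH _ _ _ g₁
    obtain ⟨u₂, v₂⟩ := hH _ _ _ g₂
    obtain ⟨u₃, v₃⟩ := hH _ _ _ g₃
    obtain ⟨z, hz, hprod⟩ := E.triple hc0 hc (cbrt_pow u₁) (cbrt_pow u₂) (cbrt_pow u₃)
      (cbrt_pow v₁) (cbrt_pow v₂) (cbrt_pow v₃)
    have r₁ := AB_rel E ((eqn_iff a b _ _).mp h₁.1) u₁ v₁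
    have r₂ := AB_rel E ((eqn_iff a b _ _).mp h₂.1) u₂ v₂
    have r₃ := AB_rel E ((eqn_iff a b _ _).mp h₃.1) u₃ v₃
    have m₁ := E.mm_ne_zero r₁ hc0
    have m₂ := E.mm_ne_zero r₂ hc0
    have m₃ := E.mm_ne_zero r₃ hc0
    have m₁' := E.mm'_ne_zero r₁ hc0
    have m₂' := E.mm'_ne_zero r₂ hc0
    have m₃' := E.mm'_ne_zero r₃ hc0
    have h := congrArg φ hprod
    rw [hφ.mul3 m₁ m₂ m₃, hφ _ _ (pow_ne_zero 3 hz) (mul_ne_zero (mul_ne_zero m₁' m₂') m₃'),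
      hφ.cube hz, hφ.mul3 m₁' m₂' m₃'] at h
    simp only [betaFun]
    linear_combination h

/-- The homomorphism `P ↦ φ (m / m')` on a subgroup of points with cubes. -/
noncomputable def beta {H : AddSubgroup (E3 a b).toAffine.Point} (hH : CubeSub H)
    (hc0 : a ^ 3 - 27 * b ≠ 0) {φ : F → ZMod 3} (hφ : IsChar φ) : H →+ ZMod 3 where
  toFun P := betaFun E a b φ P.1
  map_zero' := rfl
  map_add' P Q := beta_add E hH hc0 hφ P.1 Q.1 P.2 Q.2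

end

end Pool.Agent.BSDFF.T3
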