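import Pool.Agent.Lib.MP_48b749_nt.Tors3.Prim

/-!
Constants which are cubes at a place of degree prime to three.
-/

set_option autoImplicit false

open Polynomial IsDedekindDomain WithZero

namespace Pool.Agent.BSDFF.T3

theorem cube_of_pow {k : Type} [Field k] [Finite k] (hq : Nat.card k % 3 = 1) {u : k}
    (hu : u ≠ 0) (h : u ^ ((Nat.card k - 1) / 3) = 1) : ∃ c : k, c ^ 3 = u := by
  classical
  have := Fintype.ofFinite k
  obtain ⟨g, hg⟩ := IsCyclic.exists_generator (α := kˣ)
  obtain ⟨j, hj⟩ := (mem_powers_iff_mem_zpowers.mpr (hg (Units.mk0 u hu)))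
  have hcard : orderOf g = Nat.card k - 1 := by
    rw [orderOf_eq_card_of_forall_mem_zpowers hg, Nat.card_units]
  have h1 : g ^ (j * ((Nat.card k - 1) / 3)) = 1 := by
    rw [pow_mul]
    have hj' : g ^ j = Units.mk0 u hu := hj
    rw [hj']
    ext
    rw [Units.val_pow_eq_pow_val, Units.val_mk0, h, Units.val_one]
  have h2 : Nat.card k - 1 ∣ j * ((Nat.card k - 1) / 3) := by
    rw [← hcard] at *
    exact orderOf_dvd_of_pow_eq_one h1
  have hpos : 1 < Nat.card k := Finite.one_lt_card
  have h3 : 3 * ((Nat.card k - 1) / 3) = Nat.card k - 1 := by omega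
  have h4 : 0 < (Nat.card k - 1) / 3 := by omega
  have h5 : 3 ∣ j := by
    have : 3 * ((Nat.card k - 1) / 3) ∣ j * ((Nat.card k - 1) / 3) := by rw [h3]; exact h2
    exact Nat.dvd_of_mul_dvd_mul_right h4 this
  obtain ⟨i, rfl⟩ := h5
  refine ⟨((g ^ i : kˣ) : k), ?_⟩
  have hj' : g ^ (3 * i) = Units.mk0 u hu := hj
  have := congrArg (fun x : kˣ => (x : k)) hj'
  simp only [Units.val_mk0] at this
  rw [← this, ← Units.val_pow_eq_pow_val, ← pow_mul, mul_comm]

theorem cube_of_ext {k κ : Type} [Field k] [Finite k] [Field κ] [Finite κ] (j : k →+* κ)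
    (hq : Nat.card k % 3 = 1) {d : ℕ} (hd : ¬ 3 ∣ d) (hcard : Nat.card κ = Nat.card k ^ d)
    {u : k} (hu : u ≠ 0) {x : κ} (hx : x ^ 3 = j u) : ∃ c : k, c ^ 3 = u := by
  classical
  apply cube_of_pow hq hu
  have := Fintype.ofFinite κ
  have := Fintype.ofFinite k
  set q := Nat.card k with hqdef
  set s := (q - 1) / 3 with hs
  have hq1 : 1 < q := Finite.one_lt_card
  have h3s : 3 * s = q - 1 := by omega
  have hx0 : x ≠ 0 := by
    rintro rfl
    apply hu
    have : j u = 0 := by rw [← hx]; ring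
    exact (map_eq_zero j).mp this
  -- the geometric sum
  have hgeom : (∑ i ∈ Finset.range d, q ^ i) * (q - 1) = q ^ d - 1 := by
    have := Nat.geomSum_eq (m := q) hq1 d
    rw [this, Nat.div_mul_cancel]
    exact Nat.sub_one_dvd_pow_sub_one q d
  set t := ∑ i ∈ Finset.range d, q ^ i with ht
  have htmod : t % 3 = d % 3 := by
    have h1 : ∀ i, q ^ i ≡ 1 [MOD 3] := by
      intro i
      have h2 : q ≡ 1 [MOD 3] := hq
      have := h2.pow i
      rwa [one_pow] at this
    have h2 : t ≡ ∑ i ∈ Finset.range d, 1 [MOD 3] := by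
      rw [ht]
      clear_value t s
      clear hd hcard hgeom ht
      induction d with
      | zero => rfl
      | succ n ih =>
        rw [Finset.sum_range_succ, Finset.sum_range_succ]
        exact ih.add (h1 n)
    rw [Finset.sum_const, Finset.card_range, smul_eq_mul, mul_one] at h2
    exact h2
  -- `x ^ (q ^ d - 1) = 1`
  have h1 : x ^ (q ^ d - 1) = 1 := by
    have := FiniteField.pow_card_sub_one_eq_one x hx0
    rwa [← Nat.card_eq_fintype_card, hcard] at this
  have h2 : (u ^ s) ^ t = 1 := by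
    apply j.injective
    have e : 3 * (s * t) = q ^ d - 1 := by rw [← mul_assoc, h3s, mul_comm, hgeom]
    rw [map_pow, map_pow, ← hx, map_one, ← pow_mul, ← pow_mul, e]
    exact h1
  have h3 : (u ^ s) ^ 3 = 1 := by
    rw [← pow_mul, mul_comm, h3s]
    have := FiniteField.pow_card_sub_one_eq_one u hu
    rwa [← Nat.card_eq_fintype_card] at this
  have h4 : orderOf (u ^ s) ∣ Nat.gcd t 3 :=
    Nat.dvd_gcd (orderOf_dvd_of_pow_eq_one h2) (orderOf_dvd_of_pow_eq_one h3)
  have h5 : Nat.gcd t 3 = 1 := by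
    have : ¬ 3 ∣ t := by omega
    exact ((Nat.prime_three.coprime_iff_not_dvd).mpr this).symm
  rw [h5, Nat.dvd_one, orderOf_eq_one_iff] at h4
  exact h4

variable {k : Type} [Field k] [Finite k]

/-- A constant which is a cube modulo a prime of degree prime to three is a cube. -/
theorem const_cube (hq : Nat.card k % 3 = 1) {u : k} (hu : u ≠ 0) {w : HeightOneSpectrum k[X]}
    (hw : ¬ 3 ∣ MW.vdeg w) {z : RatFunc k} (hz : pval w z = 1)
    (hz2 : pval w (algebraMap k[X] (RatFunc k) (C u) - z ^ 3) < 1) : ∃ c : k, c ^ 3 = u := by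
  classical
  have hd0 : algebraMap k[X] (RatFunc k) z.denom ≠ 0 := by simpa using z.denom_ne_zero
  have hzz : z * algebraMap k[X] (RatFunc k) z.denom = algebraMap k[X] (RatFunc k) z.num :=
    ((div_eq_iff hd0).mp (RatFunc.num_div_denom z)).symm
  have hden : z.denom ∉ w.asIdeal := by
    intro h
    have h1 := (pval_lt_one_iff w _).mpr h
    have h2 : pval w (algebraMap k[X] (RatFunc k) z.num) < 1 := by
      rw [← hzz, map_mul, hz, one_mul]; exact h1
    rw [pval_lt_one_iff] at h2
    obtain ⟨a, b, hab⟩ := RatFunc.isCoprime_num_denom z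
    apply w.isPrime.ne_top
    rw [Ideal.eq_top_iff_one, ← hab]
    exact add_mem (Ideal.mul_mem_left _ _ h2) (Ideal.mul_mem_left _ _ h)
  have hdv := (pval_eq_one_iff w _).mpr hden
  have hmem : C u * z.denom ^ 3 - z.num ^ 3 ∈ w.asIdeal := by
    rw [← pval_lt_one_iff, map_sub, map_mul, map_pow, map_pow, ← hzz]
    have : algebraMap k[X] (RatFunc k) (C u) * algebraMap k[X] (RatFunc k) z.denom ^ 3 -
        (z * algebraMap k[X] (RatFunc k) z.denom) ^ 3 =
        (algebraMap k[X] (RatFunc k) (C u) - z ^ 3) *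
          algebraMap k[X] (RatFunc k) z.denom ^ 3 := by ring
    rw [this, map_mul, map_pow, hdv, one_pow, mul_one]
    exact hz2
  rw [mem_iff] at hmem hden
  have hirr : Irreducible (gen w) := (MW.gen_prime w).irreducible
  have : Fact (Irreducible (gen w)) := ⟨hirr⟩
  have hfd : Module.Finite k (AdjoinRoot (gen w)) :=
    (AdjoinRoot.powerBasis hirr.ne_zero).finite
  have hfin : Finite (AdjoinRoot (gen w)) := Module.finite_of_finite k
  have hcard : Nat.card (AdjoinRoot (gen w)) = Nat.card k ^ MW.vdeg w := by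
    rw [Module.natCard_eq_pow_finrank (K := k),
      (AdjoinRoot.powerBasis hirr.ne_zero).finrank, AdjoinRoot.powerBasis_dim]
    rfl
  have hd1 : AdjoinRoot.mk (gen w) z.denom ≠ 0 := by
    rw [Ne, AdjoinRoot.mk_eq_zero]; exact hden
  have he : AdjoinRoot.mk (gen w) (C u * z.denom ^ 3 - z.num ^ 3) = 0 :=
    AdjoinRoot.mk_eq_zero.mpr hmem
  rw [map_sub, map_mul, map_pow, map_pow, AdjoinRoot.mk_C] at he
  refine cube_of_ext (AdjoinRoot.of (gen w)) hq hw hcard hu
    (x := AdjoinRoot.mk (gen w) z.num / AdjoinRoot.mk (gen w) z.denom) ?_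
  rw [div_pow, div_eq_iff (pow_ne_zero 3 hd1)]
  linear_combination -he

omit [Finite k] in
/-- A constant which is a cube at infinity is a cube. -/
theorem const_cube_infty [DecidableEq (RatFunc k)] {u : k} {z : RatFunc k}
    (hz : RatFunc.inftyValuation k z = 1)
    (hz2 : RatFunc.inftyValuation k (algebraMap k[X] (RatFunc k) (C u) - z ^ 3) < 1) :
    ∃ c : k, c ^ 3 = u := by
  have hz0 : z ≠ 0 := by rintro rfl; simp at hz
  have hd0 : algebraMap k[X] (RatFunc k) z.denom ≠ 0 := by simpa using z.denom_ne_zero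
  have hzz : z * algebraMap k[X] (RatFunc k) z.denom = algebraMap k[X] (RatFunc k) z.num :=
    ((div_eq_iff hd0).mp (RatFunc.num_div_denom z)).symm
  have hn0 : z.num ≠ 0 := RatFunc.num_ne_zero hz0
  have hdeg : z.num.natDegree = z.denom.natDegree := by
    have h1 := congrArg (RatFunc.inftyValuation k) hzz
    rw [map_mul, hz, one_mul, RatFunc.inftyValuation_apply, RatFunc.inftyValuation_apply,
      RatFunc.inftyValuation.polynomial k z.denom_ne_zero,
      RatFunc.inftyValuation.polynomial k hn0, exp_inj] at h1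
    exact_mod_cast h1.symm
  set n := z.denom.natDegree with hn
  have h3 : RatFunc.inftyValuation k (algebraMap k[X] (RatFunc k)
      (C u * z.denom ^ 3 - z.num ^ 3)) < exp (((3 * n : ℕ)) : ℤ) := by
    have : algebraMap k[X] (RatFunc k) (C u * z.denom ^ 3 - z.num ^ 3) =
        (algebraMap k[X] (RatFunc k) (C u) - z ^ 3) *
          algebraMap k[X] (RatFunc k) z.denom ^ 3 := by
      rw [map_sub, map_mul, map_pow, map_pow, ← hzz]; ring
    rw [this, map_mul, map_pow]
    have h4 : RatFunc.inftyValuation k (algebraMap k[X] (RatFunc k) z.denom) = exp (n : ℤ) := by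
      rw [RatFunc.inftyValuation_apply, RatFunc.inftyValuation.polynomial k z.denom_ne_zero]
    rw [h4, ← exp_nsmul]
    have h5 : (3 • (n : ℤ)) = ((3 * n : ℕ) : ℤ) := by push_cast; simp
    rw [h5]
    calc _ < 1 * exp (((3 * n : ℕ)) : ℤ) := by
          apply mul_lt_mul_of_pos_right hz2
          exact exp_pos
      _ = _ := one_mul _
  have h4 : (C u * z.denom ^ 3 - z.num ^ 3).coeff (3 * n) = 0 := by
    by_cases h0 : C u * z.denom ^ 3 - z.num ^ 3 = 0
    · rw [h0, coeff_zero]
    · rw [RatFunc.inftyValuation_apply, RatFunc.inftyValuation.polynomial k h0, exp_lt_exp] at h3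
      apply coeff_eq_zero_of_natDegree_lt
      exact_mod_cast h3
  rw [coeff_sub, coeff_C_mul] at h4
  have h5 : ∀ f : k[X], f.natDegree = n → (f ^ 3).coeff (3 * n) = f.leadingCoeff ^ 3 := by
    intro f hf
    rw [← hf, ← natDegree_pow]
    exact leadingCoeff_pow f 3
  rw [h5 _ rfl, h5 _ hdeg] at h4
  have h6 : z.denom.leadingCoeff ≠ 0 := leadingCoeff_ne_zero.mpr z.denom_ne_zero
  refine ⟨z.num.leadingCoeff / z.denom.leadingCoeff, ?_⟩
  rw [div_pow, div_eq_iff (pow_ne_zero 3 h6)]
  linear_combination -h4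

end Pool.Agent.BSDFF.T3
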