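import Pool.Agent.Lib.MP_48b749_nt.Tors3.Desc
import Pool.Agent.Lib.MP_48b749_nt.MW

/-!
Counting: the index of `3 E(K)` and the bound for the rank.
-/

set_option autoImplicit false

open Polynomial IsDedekindDomain WithZero WeierstrassCurve

namespace Pool.Agent.BSDFF.T3

variable {k k' : Type} [Field k] [Field k'] [Finite k] (E₀ : Ext k k') [DecidableEq (RatFunc k)]
variable {A B : RatFunc k}

/-- The second map of the descent. -/
noncomputable def betaMap {H : AddSubgroup (E3 A B).toAffine.Point} (hH : CubeSub H)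
    (hC0 : A ^ 3 - 27 * B ≠ 0) (S : Finset (HeightOneSpectrum k[X]))
    (up : HeightOneSpectrum k[X] → HeightOneSpectrum k'[X]) : H →+ (S → ZMod 3) :=
  AddMonoidHom.mk' (fun P v => beta E₀.rat hH hC0 (vchar_isChar (pval (up v.1))) P) (by
    intro P Q
    ext v
    exact map_add (beta E₀.rat hH hC0 (vchar_isChar (pval (up v.1)))) P Q)

omit [Finite k] [DecidableEq (RatFunc k)] in
theorem card_fun (S : Finset (HeightOneSpectrum k[X])) : Nat.card (S → ZMod 3) = 3 ^ S.card := by
  rw [Nat.card_fun]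
  simp

theorem index_bound (hB0 : B ≠ 0) (hC0 : A ^ 3 - 27 * B ≠ 0)
    (hAv : ∀ v : HeightOneSpectrum k[X], pval v A ≤ 1)
    (hAw : ∀ w : HeightOneSpectrum k'[X], pval w (E₀.rat.ι A) ≤ 1)
    (Sb Sc : Finset (HeightOneSpectrum k[X])) (hSb : ∀ v, v ∉ Sb → pval v B = 1)
    (hSc : ∀ w : HeightOneSpectrum k'[X], contr E₀ w ∉ Sc → Even (MW.vdeg (contr E₀ w)) →
      pval w (E₀.rat.ι (A ^ 3 - 27 * B)) = 1)
    (hloc : Loc E₀ A B) (N : ℕ)
    (hN : Nat.card (alphaMap (a := A) hB0 Sb).range ≤ 3 ^ N) :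
    (MW.nG (E3 A B).toAffine.Point 3).index ≠ 0 ∧
      (MW.nG (E3 A B).toAffine.Point 3).index ≤ 3 ^ (N + Sc.card) := by
  have hH := cubeSub E₀ hB0 hAv Sb hSb
  choose up hup using exists_above E₀
  set H := (alphaMap (a := A) hB0 Sb).ker with hHdef
  set β := betaMap E₀ hH hC0 Sc up with hβ
  have hle : β.ker.map H.subtype ≤ MW.nG (E3 A B).toAffine.Point 3 := by
    rintro _ ⟨⟨P, hP⟩, hker, rfl⟩
    rcases P with _ | ⟨x, y, h⟩
    · exact zero_mem _
    · obtain ⟨h1, h2⟩ := hH x y h hP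
      have he := (eqn_iff A B x y).mp h.1
      have hx := E₀.rat.AB_eq he (cbrt_pow h1) (cbrt_pow h2)
      have hy := cbrt_pow h1
      have hUV := AB_rel E₀.rat he h1 h2
      have hker' : ∀ v ∈ Sc, vchar (pval (up v)) (E₀.rat.mm A (cbrt y) (cbrt (y + A * x + B))) =
          vchar (pval (up v)) (E₀.rat.mm' A (cbrt y) (cbrt (y + A * x + B))) := by
        intro v hv
        have := congrFun (AddMonoidHom.mem_ker.mp hker) ⟨v, hv⟩
        exact sub_eq_zero.mp this
      have hall := beta_all E₀ hC0 hUV hAw Sc hSc up hup hker'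
      have hP' : (E3 A B).toAffine.Nonsingular (cbrt y * cbrt (y + A * x + B)) (cbrt y ^ 3) := by
        rw [hx, hy]; exact h
      obtain ⟨R, hR⟩ := in3 E₀ hB0 hC0 hUV hloc hall hP'
      refine ⟨R, ?_⟩
      change 3 • R = Affine.Point.some x y h
      rw [← hR]
      congr 1
  have i1 : (β.ker.map H.subtype).index = β.ker.index * H.index :=
    AddSubgroup.index_map_subtype _
  have i2 : β.ker.index = Nat.card β.range := AddSubgroup.index_ker _
  have i3 : H.index = Nat.card (alphaMap (a := A) hB0 Sb).range := AddSubgroup.index_ker _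
  have c1 : Nat.card β.range ≤ 3 ^ Sc.card := by
    rw [← card_fun Sc]
    exact Nat.card_le_card_of_injective _ Subtype.val_injective
  have p1 : 0 < Nat.card β.range := Nat.card_pos
  have p2 : 0 < Nat.card (alphaMap (a := A) hB0 Sb).range := Nat.card_pos
  have i4 : (β.ker.map H.subtype).index ≠ 0 := by
    rw [i1, i2, i3]
    exact (Nat.mul_pos p1 p2).ne'
  have i5 : (β.ker.map H.subtype).index ≤ 3 ^ (N + Sc.card) := by
    rw [i1, i2, i3, pow_add, mul_comm]
    exact Nat.mul_le_mul hN c1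
  have hdvd := AddSubgroup.index_dvd_of_le hle
  refine ⟨fun h => i4 (Nat.eq_zero_of_zero_dvd (h ▸ hdvd)), ?_⟩
  exact (Nat.le_of_dvd (Nat.pos_of_ne_zero i4) hdvd).trans i5

/-- The rank bound. -/
theorem rank_bound (hB0 : B ≠ 0) (hC0 : A ^ 3 - 27 * B ≠ 0) {M : ℕ}
    (h1 : (MW.nG (E3 A B).toAffine.Point 3).index ≠ 0)
    (h2 : (MW.nG (E3 A B).toAffine.Point 3).index ≤ 3 ^ M) :
    Module.Finite ℤ (E3 A B).toAffine.Point ∧ algebraicRank (E3 A B) + 1 ≤ M := by
  have hell := elliptic hB0 hC0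
  refine ⟨MW.module_finite (E3 A B) (n := 3) (by norm_num) h1, ?_⟩
  have hidx := MW.index_eq (E3 A B) (n := 3) (by norm_num) h1
  -- the point `(0, 0)` has order three
  have nT : (E3 A B).toAffine.Nonsingular 0 0 := nonsing hB0 hC0 (by ring)
  have hY : (0 : RatFunc k) ≠ (E3 A B).toAffine.negY 0 0 := by
    simp only [Affine.negY, E3]
    intro h
    apply hB0
    linear_combination h
  have h2T : (2 : ℕ) • Affine.Point.some _ _ nT = -Affine.Point.some _ _ nT := by
    rw [two_nsmul, Affine.Point.add_self_of_Y_ne hY, Affine.Point.neg_some]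
    have hs : (E3 A B).toAffine.slope 0 0 0 0 = 0 := by
      rw [Affine.slope_of_Y_ne rfl hY]
      simp [E3]
    congr 1
    · rw [hs]; simp [Affine.addX, E3]
    · rw [hs]; simp [Affine.addY, Affine.negAddY, Affine.addX, E3, Affine.negY]
  have hT3 : (3 : ℕ) • Affine.Point.some _ _ nT = 0 := by
    rw [show (3 : ℕ) = 2 + 1 from rfl, add_nsmul, h2T, one_nsmul, neg_add_cancel]
  have hT0 : Affine.Point.some _ _ nT ≠ (0 : (E3 A B).toAffine.Point) :=
    Affine.Point.some_ne_zero nT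
  have hcard : Nat.card (MW.Gn (E3 A B).toAffine.Point 3) ≠ 0 := by
    intro h0
    rw [h0, mul_zero] at hidx
    exact h1 hidx
  have hord : addOrderOf (⟨Affine.Point.some _ _ nT, hT3⟩ :
      MW.Gn (E3 A B).toAffine.Point 3) = 3 := by
    have : Fact (Nat.Prime 3) := ⟨Nat.prime_three⟩
    apply addOrderOf_eq_prime
    · ext1
      exact hT3
    · intro h
      exact hT0 (congrArg Subtype.val h)
  have hge : 3 ≤ Nat.card (MW.Gn (E3 A B).toAffine.Point 3) := by
    have := addOrderOf_dvd_natCard (⟨Affine.Point.some _ _ nT, hT3⟩ :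
      MW.Gn (E3 A B).toAffine.Point 3)
    rw [hord] at this
    exact Nat.le_of_dvd (Nat.pos_of_ne_zero hcard) this
  have h3 := MW.pow_rank_mul_le (E3 A B) (n := 3) (by norm_num) h1 h2 hge
  rw [← pow_succ] at h3
  exact (Nat.pow_le_pow_iff_right (by norm_num)).mp h3

end Pool.Agent.BSDFF.T3
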