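import Pool.Agent.Lib.MP_48b749_nt.Tors3.Base

/-!
The descent through the two maps: the subgroup `H` of points with cubes, and the kernel of the
second map.
-/

set_option autoImplicit false

open Polynomial IsDedekindDomain WithZero WeierstrassCurve

namespace Pool.Agent.BSDFF.T3

/-- The value of `y` is divisible by three at a place where `b` has a value divisible by three
and `a` is integral (up to scaling). -/
theorem local_alpha {K : Type} [Field K] (v : Valuation K (WithZero (Multiplicative ℤ)))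
    {a b x y : K} (hb : b ≠ 0) {s : ℤ} (ha : v a ≤ exp s) (hvb : v b = exp (3 * s))
    (he : y ^ 2 + a * x * y + b * y = x ^ 3) (hy : y ≠ 0) : (3 : ℤ) ∣ log (v y) := by
  by_cases hx : x = 0
  · subst hx
    have h1 : y = -b := by
      have : y * (y + b) = 0 := by linear_combination he
      rcases mul_eq_zero.mp this with h | h
      · exact absurd h hy
      · linear_combination h
    rw [h1, Valuation.map_neg, hvb, log_exp]
    exact dvd_mul_right _ _
  · have hp : y / x ≠ 0 := div_ne_zero hy hx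
    have hq : -(x ^ 2 / y) ≠ 0 := neg_ne_zero.mpr (div_ne_zero (pow_ne_zero 2 hx) hy)
    have hr : b / x ≠ 0 := div_ne_zero hb hx
    have e1 : y / x + -(x ^ 2 / y) + b / x = -a := by
      field_simp
      linear_combination he
    have e2 : y / x * -(x ^ 2 / y) * (b / x) = -b := by field_simp
    have h := lemmaB v hp hq hr (s := s) (by rw [e1, Valuation.map_neg]; exact ha)
      (by rw [e2, Valuation.map_neg]; exact hvb)
    rw [Valuation.map_neg, map_div₀, map_div₀, map_pow,
      log_div ((Valuation.ne_zero_iff v).mpr hy) ((Valuation.ne_zero_iff v).mpr hx),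
      log_div (pow_ne_zero 2 ((Valuation.ne_zero_iff v).mpr hx)) ((Valuation.ne_zero_iff v).mpr hy),
      log_pow] at h
    simp only [nsmul_eq_mul, Nat.cast_ofNat] at h
    omega

section
variable {k k' : Type} [Field k] [Field k'] [Finite k] (E₀ : Ext k k')

include E₀ in
/-- An element of `k(t)` with all values divisible by three is a cube. -/
theorem is_cube {x : RatFunc k} (hv : ∀ v : HeightOneSpectrum k[X], vchar (pval v) x = 0) :
    ∃ z : RatFunc k, z ^ 3 = x := by
  by_cases hx : x = 0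
  · exact ⟨0, by rw [hx]; ring⟩
  · obtain ⟨c, w, hc, hw, h⟩ := unit_cube hx hv
    obtain ⟨d, hd⟩ := exists_cube_root E₀ c
    exact ⟨RatFunc.C d * w, by rw [mul_pow, ← map_pow, hd, h]⟩

variable [DecidableEq (RatFunc k)]

/-- The first map of the descent. -/
noncomputable def alphaMap {a b : RatFunc k} (hb : b ≠ 0) (S : Finset (HeightOneSpectrum k[X])) :
    (E3 a b).toAffine.Point →+ (S → ZMod 3) :=
  AddMonoidHom.mk' (fun P v => alpha hb (vchar_isChar (pval v.1)) P) (by
    intro P Q
    ext v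
    exact map_add (alpha hb (vchar_isChar (pval v.1))) P Q)

include E₀ in
/-- The points of the kernel of the first map have cubes. -/
theorem cubeSub {A B : RatFunc k} (hB : B ≠ 0) (hAv : ∀ v : HeightOneSpectrum k[X], pval v A ≤ 1)
    (S : Finset (HeightOneSpectrum k[X])) (hS : ∀ v, v ∉ S → pval v B = 1) :
    CubeSub (alphaMap (a := A) hB S).ker := by
  intro x y h hP
  have he := (eqn_iff A B x y).mp h.1
  have hker : ∀ v ∈ S, alphaFun A B (vchar (pval v)) (.some x y h) = 0 := by
    intro v hv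
    have := congrFun (AddMonoidHom.mem_ker.mp hP) ⟨v, hv⟩
    exact this
  have hBv : ∀ v, v ∉ S → pval v B = exp (3 * 0) := by
    intro v hv
    rw [mul_zero, exp_zero]
    exact hS v hv
  have hAv' : ∀ v : HeightOneSpectrum k[X], pval v A ≤ exp 0 := fun v => by
    rw [exp_zero]; exact hAv v
  by_cases hy : y = 0
  · subst hy
    have hx : x = 0 := by
      have : x ^ 3 = 0 := by rw [← he]; ring
      exact pow_eq_zero_iff (by norm_num) |>.mp this
    subst hx
    refine ⟨⟨0, by ring⟩, ?_⟩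
    have : (0 : RatFunc k) + A * 0 + B = B := by ring
    rw [this]
    apply is_cube E₀
    intro v
    by_cases hv : v ∈ S
    · have h1 := hker v hv
      simp only [alphaFun, if_true] at h1
      have h2 : ∀ z : ZMod 3, 2 * z = 0 → z = 0 := by decide
      exact h2 _ h1
    · rw [vchar_eq_zero, hBv v hv, log_exp]; norm_num
  · have hycube : ∃ z, z ^ 3 = y := by
      apply is_cube E₀
      intro v
      by_cases hv : v ∈ S
      · have h1 := hker v hv
        simp only [alphaFun, if_neg hy] at h1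
        exact h1
      · rw [vchar_eq_zero]
        exact local_alpha (pval v) hB (hAv' v) (hBv v hv) he hy
    refine ⟨hycube, ?_⟩
    obtain ⟨z, hz⟩ := hycube
    refine ⟨x / z, ?_⟩
    rw [div_pow, hz, div_eq_iff hy]
    linear_combination -he

end

section
variable {k k' : Type} [Field k] [Field k'] (E₀ : Ext k k')

theorem pval_ofNat (w : HeightOneSpectrum k'[X]) {n : ℕ} [n.AtLeastTwo]
    (h : (OfNat.ofNat n : k') ≠ 0) : pval w (OfNat.ofNat n) = 1 := by
  have e : (OfNat.ofNat n : RatFunc k') = algebraMap k'[X] (RatFunc k') (C (OfNat.ofNat n)) := by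
    rw [map_ofNat, map_ofNat]
  rw [e]
  exact pval_C w h

include E₀ in
theorem twentyseven_k' : (27 : k') ≠ 0 := by
  have : (27 : k') = 3 ^ 3 := by norm_num
  rw [this]; exact pow_ne_zero 3 E₀.three'

/-- At a place prime to `a ^ 3 - 27 b` the values of `m` and `m'` agree modulo three. -/
theorem beta_good {A B U V : RatFunc k} (hC0 : A ^ 3 - 27 * B ≠ 0)
    (hUV : V ^ 3 - U ^ 3 = A * U * V + B) (w : HeightOneSpectrum k'[X])
    (hA : pval w (E₀.rat.ι A) ≤ 1) (hC : pval w (E₀.rat.ι (A ^ 3 - 27 * B)) = 1) :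
    vchar (pval w) (E₀.rat.mm A U V) = vchar (pval w) (E₀.rat.mm' A U V) := by
  have hm := E₀.rat.mm_ne_zero hUV hC0
  have hm' := E₀.rat.mm'_ne_zero hUV hC0
  have hl : E₀.rat.ι (V - U - A / 3) ≠ 0 :=
    (_root_.map_ne_zero _).mpr (E₀.rat.ll_ne_zero hUV hC0)
  have hsum := E₀.rat.sum_mm A U V
  have hprod := E₀.rat.prod_mm hUV
  have h := lemmaB (pval w) hm hm' hl (s := 0)
    (by
      have e : E₀.rat.mm A U V + E₀.rat.mm' A U V + E₀.rat.ι (V - U - A / 3) = E₀.rat.ι (-A) := by
        rw [← hsum]; ring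
      rw [e, map_neg, Valuation.map_neg, exp_zero]
      exact hA)
    (by
      have e : E₀.rat.mm A U V * E₀.rat.mm' A U V * E₀.rat.ι (V - U - A / 3) =
          E₀.rat.ι (-(A ^ 3 - 27 * B) / 27) := by
        rw [← hprod]; ring
      rw [e, map_div₀, map_neg, map_ofNat, map_div₀, Valuation.map_neg, hC,
        pval_ofNat w (twentyseven_k' E₀), div_one, mul_zero, exp_zero])
  unfold vchar
  rw [← sub_eq_zero, ← Int.cast_sub]
  exact (ZMod.intCast_zmod_eq_zero_iff_dvd _ _).mpr h

theorem pval_conj_mm (A U V : RatFunc k) (w : HeightOneSpectrum k'[X]) :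
    pval (conj E₀ w) (E₀.rat.mm A U V) = pval w (E₀.rat.mm' A U V) := by
  rw [pval_conj]
  change pval w (E₀.rat.σ _) = _
  rw [E₀.rat.σ_mm]

theorem pval_conj_mm' (A U V : RatFunc k) (w : HeightOneSpectrum k'[X]) :
    pval (conj E₀ w) (E₀.rat.mm' A U V) = pval w (E₀.rat.mm A U V) := by
  rw [pval_conj]
  change pval w (E₀.rat.σ _) = _
  rw [E₀.rat.σ_mm']

/-- The places to be tested: one above each prime of even degree dividing `a ^ 3 - 27 b`. -/
theorem beta_all {A B U V : RatFunc k} (hC0 : A ^ 3 - 27 * B ≠ 0)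
    (hUV : V ^ 3 - U ^ 3 = A * U * V + B) (hA : ∀ w, pval w (E₀.rat.ι A) ≤ 1)
    (S : Finset (HeightOneSpectrum k[X]))
    (hS : ∀ w : HeightOneSpectrum k'[X], contr E₀ w ∉ S → Even (MW.vdeg (contr E₀ w)) →
      pval w (E₀.rat.ι (A ^ 3 - 27 * B)) = 1)
    (up : HeightOneSpectrum k[X] → HeightOneSpectrum k'[X]) (hup : ∀ v, contr E₀ (up v) = v)
    (hker : ∀ v ∈ S, vchar (pval (up v)) (E₀.rat.mm A U V) =
      vchar (pval (up v)) (E₀.rat.mm' A U V)) (w : HeightOneSpectrum k'[X]) :
    vchar (pval w) (E₀.rat.mm A U V) = vchar (pval w) (E₀.rat.mm' A U V) := by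
  by_cases hw : contr E₀ w ∈ S
  · have h1 := hker _ hw
    rcases eq_of_contr E₀ (hup (contr E₀ w)) with h | h
    · rw [h] at h1; exact h1
    · rw [← h]
      unfold vchar at h1 ⊢
      rw [pval_conj_mm, pval_conj_mm', h1]
  · rcases vdeg_contr E₀ w with h | ⟨_, h⟩
    · exact beta_good E₀ hC0 hUV w (hA w) (hS w hw (by rw [h]; exact even_two_mul _))
    · unfold vchar
      conv_lhs => rw [← h]
      rw [pval_conj_mm]

/-- The local hypothesis: constants occurring in `m / m'` are cubes. -/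
def Loc (E₀ : Ext k k') (A B : RatFunc k) : Prop :=
  ∀ (U V : RatFunc k) (u : k') (w : RatFunc k'), V ^ 3 - U ^ 3 = A * U * V + B → u ≠ 0 →
    E₀.rat.mm A U V = algebraMap k'[X] (RatFunc k') (C u) * w ^ 3 * E₀.rat.mm' A U V →
    ∃ c : k', c ^ 3 = u

theorem in3 [DecidableEq (RatFunc k)] {A B U V : RatFunc k} (hB0 : B ≠ 0)
    (hC0 : A ^ 3 - 27 * B ≠ 0)
    (hUV : V ^ 3 - U ^ 3 = A * U * V + B) (hloc : Loc E₀ A B)
    (hall : ∀ w : HeightOneSpectrum k'[X],
      vchar (pval w) (E₀.rat.mm A U V) = vchar (pval w) (E₀.rat.mm' A U V))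
    (hP : (E3 A B).toAffine.Nonsingular (U * V) (U ^ 3)) :
    ∃ R : (E3 A B).toAffine.Point, Affine.Point.some _ _ hP = 3 • R := by
  have hm := E₀.rat.mm_ne_zero hUV hC0
  have hm' := E₀.rat.mm'_ne_zero hUV hC0
  obtain ⟨u, w, hu, hw, h⟩ := unit_cube (x := E₀.rat.mm A U V / E₀.rat.mm' A U V)
    (div_ne_zero hm hm') (by
      intro v
      rw [(vchar_isChar (pval v)).div hm hm', hall v, sub_self])
  rw [div_eq_iff hm'] at h
  rw [← RatFunc.algebraMap_C] at h
  obtain ⟨c, hc⟩ := hloc U V u w hUV hu h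
  refine div3 E₀.rat hB0 hC0 hUV (z := algebraMap k'[X] (RatFunc k') (C c) * w) ?_ hP
  rw [h, ← hc, C_pow, map_pow]
  ring

end

end Pool.Agent.BSDFF.T3
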