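import Mathlib

/-!
The curves `y² + a x y + b y = x³`: collinear triples of points and homomorphisms.
-/

set_option autoImplicit false

open Polynomial WeierstrassCurve

namespace Pool.Agent.BSDFF.T3

variable {K : Type} [Field K]

/-- The Weierstrass curve `y² + a x y + b y = x³`. -/
def E3 (a b : K) : WeierstrassCurve K := ⟨a, 0, b, 0, 0⟩

theorem E3_Δ (a b : K) : (E3 a b).Δ = b ^ 3 * (a ^ 3 - 27 * b) := by
  simp only [E3, WeierstrassCurve.Δ, WeierstrassCurve.b₂, WeierstrassCurve.b₄,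
    WeierstrassCurve.b₆, WeierstrassCurve.b₈]
  ring

theorem E3_c₄ (a b : K) : (E3 a b).c₄ = a * (a ^ 3 - 24 * b) := by
  simp only [E3, WeierstrassCurve.c₄, WeierstrassCurve.b₂, WeierstrassCurve.b₄]
  ring

theorem eqn_iff (a b x y : K) :
    (E3 a b).toAffine.Equation x y ↔ y ^ 2 + a * x * y + b * y = x ^ 3 := by
  rw [Affine.equation_iff]
  simp [E3]

/-- Three points `(x i, l x i + n)` on the line `y = l x + n` are the intersection (with
multiplicities) with the curve. -/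
def Coll (a b l n x₁ x₂ x₃ : K) : Prop :=
  x₁ + x₂ + x₃ = l ^ 2 + a * l ∧
  x₁ * x₂ + x₁ * x₃ + x₂ * x₃ = -(2 * l * n + a * n + b * l) ∧
  x₁ * x₂ * x₃ = n ^ 2 + b * n

theorem Coll.perm12 {a b l n x₁ x₂ x₃ : K} (h : Coll a b l n x₁ x₂ x₃) :
    Coll a b l n x₂ x₁ x₃ := by
  obtain ⟨h1, h2, h3⟩ := h
  refine ⟨?_, ?_, ?_⟩
  · linear_combination h1
  · linear_combination h2
  · linear_combination h3

theorem Coll.perm23 {a b l n x₁ x₂ x₃ : K} (h : Coll a b l n x₁ x₂ x₃) :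
    Coll a b l n x₁ x₃ x₂ := by
  obtain ⟨h1, h2, h3⟩ := h
  refine ⟨?_, ?_, ?_⟩
  · linear_combination h1
  · linear_combination h2
  · linear_combination h3

theorem Coll.eqn₁ {a b l n x₁ x₂ x₃ : K} (h : Coll a b l n x₁ x₂ x₃) :
    (l * x₁ + n) ^ 2 + a * x₁ * (l * x₁ + n) + b * (l * x₁ + n) = x₁ ^ 3 := by
  obtain ⟨h1, h2, h3⟩ := h
  linear_combination -x₁ ^ 2 * h1 + x₁ * h2 - h3

theorem Coll.eqn₂ {a b l n x₁ x₂ x₃ : K} (h : Coll a b l n x₁ x₂ x₃) :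
    (l * x₂ + n) ^ 2 + a * x₂ * (l * x₂ + n) + b * (l * x₂ + n) = x₂ ^ 3 :=
  h.perm12.eqn₁

theorem Coll.eqn₃ {a b l n x₁ x₂ x₃ : K} (h : Coll a b l n x₁ x₂ x₃) :
    (l * x₃ + n) ^ 2 + a * x₃ * (l * x₃ + n) + b * (l * x₃ + n) = x₃ ^ 3 :=
  h.perm23.eqn₂

theorem Coll.prod {a b l n x₁ x₂ x₃ : K} (h : Coll a b l n x₁ x₂ x₃) :
    (l * x₁ + n) * (l * x₂ + n) * (l * x₃ + n) = n ^ 3 := by
  obtain ⟨h1, h2, h3⟩ := h
  linear_combination l ^ 3 * h3 + l ^ 2 * n * h2 + l * n ^ 2 * h1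

section
variable [DecidableEq K]

theorem add_some_some {a b x₁ y₁ x₂ y₂ : K} (h₁ : (E3 a b).toAffine.Nonsingular x₁ y₁)
    (h₂ : (E3 a b).toAffine.Nonsingular x₂ y₂) (h : ¬(x₁ = x₂ ∧ y₁ = -y₂ - a * x₂ - b)) :
    ∃ l n x₃ : K, ∃ h₃ : (E3 a b).toAffine.Nonsingular x₃ (l * x₃ + n),
      y₁ = l * x₁ + n ∧ y₂ = l * x₂ + n ∧ Coll a b l n x₁ x₂ x₃ ∧
      Affine.Point.some _ _ h₁ + Affine.Point.some _ _ h₂ = -Affine.Point.some _ _ h₃ := by
  have hneg : ∀ x y : K, (E3 a b).toAffine.negY x y = -y - a * x - b := by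
    intro x y; simp [Affine.negY, E3]
  have hxy : ¬(x₁ = x₂ ∧ y₁ = (E3 a b).toAffine.negY x₂ y₂) := by rw [hneg]; exact h
  set l := (E3 a b).toAffine.slope x₁ x₂ y₁ y₂ with hl
  have hpoly := Affine.addPolynomial_slope h₁.1 h₂.1 hxy
  rw [← hl, Affine.addPolynomial_eq, neg_inj, Cubic.prod_X_sub_C_eq, Cubic.toPoly_injective] at hpoly
  have hb := congrArg Cubic.b hpoly
  have hc := congrArg Cubic.c hpoly
  have hd := congrArg Cubic.d hpoly
  simp only [E3, Affine.addX] at hb hc hd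
  set x₃ := (E3 a b).toAffine.addX x₁ x₂ l with hx3
  have hx3' : x₃ = l ^ 2 + a * l - x₁ - x₂ := by
    simp only [hx3, Affine.addX, E3]; ring
  have hy3 : (E3 a b).toAffine.negAddY x₁ x₂ y₁ l = l * x₃ + (y₁ - l * x₁) := by
    simp only [Affine.negAddY, ← hx3]; ring
  have h3 : (E3 a b).toAffine.Nonsingular x₃ (l * x₃ + (y₁ - l * x₁)) := by
    rw [← hy3]; exact Affine.nonsingular_negAdd h₁ h₂ hxy
  have hy2 : y₂ = l * x₂ + (y₁ - l * x₁) := by
    by_cases hx : x₁ = x₂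
    · have hy : y₁ ≠ (E3 a b).toAffine.negY x₂ y₂ := fun h => hxy ⟨hx, h⟩
      have := Affine.Y_eq_of_Y_ne h₁.1 h₂.1 hx hy
      rw [← this, hx]; ring
    · have : l = (y₁ - y₂) / (x₁ - x₂) := by rw [hl]; exact Affine.slope_of_X_ne hx
      have hx' : x₁ - x₂ ≠ 0 := sub_ne_zero.mpr hx
      have h5 : l * (x₁ - x₂) = y₁ - y₂ := by rw [this]; field_simp
      linear_combination h5
  refine ⟨l, y₁ - l * x₁, x₃, h3, by ring, hy2, ⟨?_, ?_, ?_⟩, ?_⟩
  · rw [hx3']; ring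
  · rw [hx3']
    linear_combination -hc
  · rw [hx3']
    linear_combination hd
  · rw [Affine.Point.add_some hxy]
    rw [Affine.Point.neg_some]
    congr 1
    simp only [Affine.addY]
    rw [← hl, hy3]

/-- A criterion for a function on the points to be additive on a subgroup. -/
theorem add_of_coll {a b : K} {A : Type} [AddCommGroup A]
    (H : AddSubgroup (E3 a b).toAffine.Point) (f : (E3 a b).toAffine.Point → A)
    (h0 : f 0 = 0) (hneg : ∀ P ∈ H, f (-P) = -f P)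
    (hcoll : ∀ (l n x₁ x₂ x₃ : K) (h₁ : (E3 a b).toAffine.Nonsingular x₁ (l * x₁ + n))
      (h₂ : (E3 a b).toAffine.Nonsingular x₂ (l * x₂ + n))
      (h₃ : (E3 a b).toAffine.Nonsingular x₃ (l * x₃ + n)), Coll a b l n x₁ x₂ x₃ →
      Affine.Point.some _ _ h₁ ∈ H → Affine.Point.some _ _ h₂ ∈ H →
      Affine.Point.some _ _ h₃ ∈ H →
      f (.some _ _ h₁) + f (.some _ _ h₂) + f (.some _ _ h₃) = 0)
    (P Q : (E3 a b).toAffine.Point) (hP : P ∈ H) (hQ : Q ∈ H) :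
    f (P + Q) = f P + f Q := by
  rcases P with _ | ⟨x₁, y₁, h₁⟩
  · change f (0 + Q) = f 0 + f Q
    rw [zero_add, h0, zero_add]
  rcases Q with _ | ⟨x₂, y₂, h₂⟩
  · change f (_ + 0) = _ + f 0
    rw [add_zero, h0, add_zero]
  by_cases h : x₁ = x₂ ∧ y₁ = -y₂ - a * x₂ - b
  · have hneg' : (E3 a b).toAffine.negY x₂ y₂ = -y₂ - a * x₂ - b := by
      simp [Affine.negY, E3]
    have h1 : (Affine.Point.some _ _ h₁ : (E3 a b).toAffine.Point) = -Affine.Point.some _ _ h₂ := by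
      rw [Affine.Point.neg_some]
      congr 1
      · exact h.1
      · rw [h.2, hneg']
    rw [h1, neg_add_cancel, h0, hneg _ hQ, neg_add_cancel]
  · obtain ⟨l, n, x₃, h₃, e1, e2, hc, hsum⟩ := add_some_some h₁ h₂ h
    subst e1 e2
    have hR : Affine.Point.some _ _ h₃ ∈ H := by
      have : (Affine.Point.some _ _ h₃ : (E3 a b).toAffine.Point) =
          -(Affine.Point.some _ _ h₁ + Affine.Point.some _ _ h₂) := by
        rw [hsum, neg_neg]
      rw [this]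
      exact H.neg_mem (H.add_mem hP hQ)
    rw [hsum, hneg _ hR]
    have := hcoll l n x₁ x₂ x₃ h₁ h₂ h₃ hc hP hQ hR
    rw [eq_comm, ← sub_eq_zero, sub_neg_eq_add]
    exact this

end

end Pool.Agent.BSDFF.T3
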