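import Pool.Agent.Lib.MP_48b749_nt.Tors3.Beta

/-!
The kernel of the second map: a point with `m / m'` a cube is divisible by three.
-/

set_option autoImplicit false

open WeierstrassCurve

namespace Pool.Agent.BSDFF.T3

section
variable {K : Type} [Field K] [DecidableEq K] {a b : K}

/-- Addition with given slope. -/
theorem add_eq {x₁ y₁ x₂ y₂ x₃ y₃ : K} (h₁ : (E3 a b).toAffine.Nonsingular x₁ y₁)
    (h₂ : (E3 a b).toAffine.Nonsingular x₂ y₂) (h₃ : (E3 a b).toAffine.Nonsingular x₃ y₃)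
    (hx : x₁ ≠ x₂) (l : K) (hl : l * (x₁ - x₂) = y₁ - y₂)
    (hx₃ : l ^ 2 + a * l - x₁ - x₂ = x₃) (hy₃ : -(l * (x₃ - x₁) + y₁) - a * x₃ - b = y₃) :
    Affine.Point.some x₁ y₁ h₁ + Affine.Point.some x₂ y₂ h₂ = Affine.Point.some x₃ y₃ h₃ := by
  have hx' : x₁ - x₂ ≠ 0 := sub_ne_zero.mpr hx
  have hs : (E3 a b).toAffine.slope x₁ x₂ y₁ y₂ = l := by
    rw [Affine.slope_of_X_ne hx, ← hl, mul_div_cancel_right₀ _ hx']
  rw [Affine.Point.add_some (fun h => hx h.1)]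
  have e1 : (E3 a b).toAffine.addX x₁ x₂ ((E3 a b).toAffine.slope x₁ x₂ y₁ y₂) = x₃ := by
    rw [hs, ← hx₃]
    simp only [Affine.addX, E3]
    ring
  have e2 : (E3 a b).toAffine.addY x₁ x₂ y₁ ((E3 a b).toAffine.slope x₁ x₂ y₁ y₂) = y₃ := by
    simp only [Affine.addY, Affine.negY, Affine.negAddY]
    rw [e1, hs, ← hy₃]
    simp only [E3]
  congr 1

omit [DecidableEq K] in
theorem elliptic (hb : b ≠ 0) (hc : a ^ 3 - 27 * b ≠ 0) : (E3 a b).IsElliptic := by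
  refine ⟨?_⟩
  rw [E3_Δ]
  exact (mul_ne_zero (pow_ne_zero 3 hb) hc).isUnit

omit [DecidableEq K] in
theorem nonsing (hb : b ≠ 0) (hc : a ^ 3 - 27 * b ≠ 0) {x y : K}
    (h : y ^ 2 + a * x * y + b * y = x ^ 3) : (E3 a b).toAffine.Nonsingular x y := by
  have := elliptic hb hc
  exact Affine.equation_iff_nonsingular.mp ((eqn_iff a b x y).mpr h)

omit [DecidableEq K] in
theorem eqR {p q r : K} (ha : a = -(p + q + r)) (hb : b = -(p * q * r)) :
    (-(p ^ 2 * q)) ^ 2 + a * (-(p * q)) * (-(p ^ 2 * q)) + b * (-(p ^ 2 * q)) =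
      (-(p * q)) ^ 3 := by
  subst ha hb
  ring

/-- The tripling formula. -/
theorem tripling {p q r : K} (ha : a = -(p + q + r)) (hb : b = -(p * q * r)) (hb0 : b ≠ 0)
    (hc0 : a ^ 3 - 27 * b ≠ 0) (hpr : p ≠ r)
    (hD : p ^ 2 + q ^ 2 + r ^ 2 - p * q - q * r - r * p ≠ 0) {A B : K}
    (hA : A = -(p ^ 2 * r + q ^ 2 * p + r ^ 2 * q - 3 * p * q * r) /
      (p ^ 2 + q ^ 2 + r ^ 2 - p * q - q * r - r * p))
    (hB : B = (p ^ 2 * q + q ^ 2 * r + r ^ 2 * p - 3 * p * q * r) /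
      (p ^ 2 + q ^ 2 + r ^ 2 - p * q - q * r - r * p))
    (hP : (E3 a b).toAffine.Nonsingular (A * B) (A ^ 3)) :
    ∃ R : (E3 a b).toAffine.Point, Affine.Point.some _ _ hP = 3 • R := by
  have hpqr : p * q * r ≠ 0 := by
    intro h; apply hb0; rw [hb, h, neg_zero]
  have hr : r ≠ 0 := right_ne_zero_of_mul hpqr
  have hp : p ≠ 0 := left_ne_zero_of_mul (left_ne_zero_of_mul hpqr)
  have hq : q ≠ 0 := right_ne_zero_of_mul (left_ne_zero_of_mul hpqr)
  have hpr' : p - r ≠ 0 := sub_ne_zero.mpr hpr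
  obtain ⟨D, hDdef⟩ : ∃ D, D = p ^ 2 + q ^ 2 + r ^ 2 - p * q - q * r - r * p := ⟨_, rfl⟩
  rw [← hDdef] at hD hA hB
  have n0 := nonsing hb0 hc0 (eqR (p := p) (q := q) (r := r) ha hb)
  have n1 := nonsing hb0 hc0 (eqR (p := q) (q := r) (r := p) (by rw [ha]; ring) (by rw [hb]; ring))
  have n2 := nonsing hb0 hc0 (eqR (p := r) (q := p) (r := q) (by rw [ha]; ring) (by rw [hb]; ring))
  have nT : (E3 a b).toAffine.Nonsingular 0 0 := nonsing hb0 hc0 (by ring)
  have t0 : Affine.Point.some _ _ n0 + Affine.Point.some _ _ nT = Affine.Point.some _ _ n2 := by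
    refine add_eq n0 nT n2 (by simp [hp, hq]) p ?_ ?_ ?_
    · ring
    · rw [ha]; ring
    · rw [ha, hb]; ring
  have t1 : Affine.Point.some _ _ n1 + Affine.Point.some _ _ nT = Affine.Point.some _ _ n0 := by
    refine add_eq n1 nT n0 (by simp [hr, hq]) q ?_ ?_ ?_
    · ring
    · rw [ha]; ring
    · rw [ha, hb]; ring
  have t2 : Affine.Point.some _ _ n2 + Affine.Point.some _ _ nT = Affine.Point.some _ _ n1 := by
    refine add_eq n2 nT n1 (by simp [hr, hp]) r ?_ ?_ ?_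
    · ring
    · rw [ha]; ring
    · rw [ha, hb]; ring
  have hS : (E3 a b).toAffine.Nonsingular (p * r * (p - q) * (r - q) / (p - r) ^ 2)
      (-(p ^ 2 * r * (r - q) ^ 3) / (p - r) ^ 3) := by
    apply nonsing hb0 hc0
    rw [ha, hb]
    field_simp
    ring
  have s1 : Affine.Point.some _ _ n0 + Affine.Point.some _ _ n1 = Affine.Point.some _ _ hS := by
    refine add_eq n0 n1 hS ?_ ((p ^ 2 - q * r) / (p - r)) ?_ ?_ ?_
    · intro h
      apply hpr
      have : q * (p - r) = 0 := by linear_combination -h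
      rcases mul_eq_zero.mp this with h | h
      · exact absurd h hq
      · exact sub_eq_zero.mp h
    · field_simp
      ring
    · rw [ha]
      field_simp
      ring
    · rw [ha, hb]
      field_simp
      ring
  have hN : (E3 a b).toAffine.Nonsingular (A * B) (-B ^ 3) := by
    apply nonsing hb0 hc0
    rw [ha, hb, hA, hB]
    field_simp
    rw [hDdef]
    ring
  have s2 : Affine.Point.some _ _ hS + Affine.Point.some _ _ n2 = Affine.Point.some _ _ hN := by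
    refine add_eq hS n2 hN ?_ ((r * (p - r) ^ 3 - p * (r - q) ^ 3) / (D * (p - r))) ?_ ?_ ?_
    · intro h
      have h2 : p * r * D = 0 := by
        rw [div_eq_iff (pow_ne_zero 2 hpr')] at h
        rw [hDdef]
        linear_combination h
      exact mul_ne_zero (mul_ne_zero hp hr) hD h2
    · field_simp
      rw [hDdef]
      ring
    · rw [hA, hB, ha]
      field_simp
      rw [hDdef]
      ring
    · rw [hA, hB, ha, hb]
      field_simp
      rw [hDdef]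
      ring
  have neg : -Affine.Point.some _ _ hP = Affine.Point.some _ _ hN := by
    rw [Affine.Point.neg_some]
    congr 1
    simp only [Affine.negY, E3]
    rw [hA, hB, ha, hb]
    field_simp
    rw [hDdef]
    ring
  refine ⟨-Affine.Point.some _ _ n0, ?_⟩
  rw [← neg_inj, neg, ← s2, ← s1, smul_neg, neg_neg]
  have h3T : (3 : ℕ) • Affine.Point.some _ _ nT = (0 : (E3 a b).toAffine.Point) := by
    have : Affine.Point.some _ _ n0 + (3 : ℕ) • Affine.Point.some _ _ nT =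
        Affine.Point.some _ _ n0 := by
      have h3 : (3 : ℕ) • Affine.Point.some _ _ nT = Affine.Point.some _ _ nT +
        Affine.Point.some _ _ nT + Affine.Point.some _ _ nT := by abel
      rw [h3, ← add_assoc, ← add_assoc, t0, t2, t1]
    exact left_eq_add.mp this.symm
  have e2 : Affine.Point.some _ _ n2 =
      Affine.Point.some _ _ n0 + Affine.Point.some _ _ nT := t0.symm
  have e1 : Affine.Point.some _ _ n1 =
      Affine.Point.some _ _ n0 + Affine.Point.some _ _ nT + Affine.Point.some _ _ nT := by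
    rw [t0, t2]
  rw [e1, e2]
  have : Affine.Point.some _ _ n0 + (Affine.Point.some _ _ n0 + Affine.Point.some _ _ nT +
      Affine.Point.some _ _ nT) + (Affine.Point.some _ _ n0 + Affine.Point.some _ _ nT) =
      (3 : ℕ) • Affine.Point.some _ _ n0 + (3 : ℕ) • Affine.Point.some _ _ nT := by abel
  rw [this, h3T, add_zero]

end

section poly
variable {F : Type} [Field F] {ω : F} (hω : ω ^ 2 + ω + 1 = 0)
include hω

theorem poly1 (s t u : F) : (s + t + u) * (s + ω ^ 2 * t + ω * u) * (s + ω * t + ω ^ 2 * u) =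
    s ^ 3 + t ^ 3 + u ^ 3 - 3 * s * t * u := by
  linear_combination (ω ^ 2 * s * t * u + ω ^ 2 * t ^ 2 * u + ω ^ 2 * t * u ^ 2 + ω * s * t ^ 2
    - ω * s * t * u + ω * s * u ^ 2 + ω * t ^ 3 + ω * u ^ 3 + s ^ 2 * t + s ^ 2 * u
    + 3 * s * t * u - t ^ 3 - u ^ 3) * hω

theorem poly2 (s t u : F) :
    (s + t + u) ^ 2 + (s + ω ^ 2 * t + ω * u) ^ 2 + (s + ω * t + ω ^ 2 * u) ^ 2
      - (s + t + u) * (s + ω ^ 2 * t + ω * u)
      - (s + ω ^ 2 * t + ω * u) * (s + ω * t + ω ^ 2 * u)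
      - (s + ω * t + ω ^ 2 * u) * (s + t + u) = 9 * t * u := by
  linear_combination (ω ^ 2 * t ^ 2 - ω ^ 2 * t * u + ω ^ 2 * u ^ 2 - 2 * ω * t ^ 2
    + 5 * ω * t * u - 2 * ω * u ^ 2 + t ^ 2 - 7 * t * u + u ^ 2) * hω

theorem poly3 (s t u : F) :
    (s + t + u) ^ 2 * (s + ω ^ 2 * t + ω * u) +
      (s + ω ^ 2 * t + ω * u) ^ 2 * (s + ω * t + ω ^ 2 * u) +
      (s + ω * t + ω ^ 2 * u) ^ 2 * (s + t + u) -
      3 * (s + t + u) * (s + ω ^ 2 * t + ω * u) * (s + ω * t + ω ^ 2 * u) =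
      3 * (3 * s * t * u + (ω ^ 2 - 1) * t ^ 3 + (ω - 1) * u ^ 3) := by
  linear_combination (ω ^ 4 * t ^ 2 * u + ω ^ 3 * t ^ 3 - ω ^ 3 * t ^ 2 * u
    + 2 * ω ^ 3 * t * u ^ 2 + ω ^ 2 * s * t ^ 2 - ω ^ 2 * s * t * u + ω ^ 2 * s * u ^ 2
    - ω ^ 2 * t ^ 3 - ω ^ 2 * t ^ 2 * u - 4 * ω ^ 2 * t * u ^ 2 + 2 * ω ^ 2 * u ^ 3
    - 2 * ω * s * t ^ 2 + 5 * ω * s * t * u - 2 * ω * s * u ^ 2 - 3 * ω * t ^ 3
    + ω * t ^ 2 * u + 2 * ω * t * u ^ 2 - 5 * ω * u ^ 3 + s * t ^ 2 - 7 * s * t * u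
    + s * u ^ 2 + 3 * t ^ 3 + 3 * u ^ 3) * hω

theorem poly4 (s t u : F) :
    (s + t + u) ^ 2 * (s + ω * t + ω ^ 2 * u) +
      (s + ω ^ 2 * t + ω * u) ^ 2 * (s + t + u) +
      (s + ω * t + ω ^ 2 * u) ^ 2 * (s + ω ^ 2 * t + ω * u) -
      3 * (s + t + u) * (s + ω ^ 2 * t + ω * u) * (s + ω * t + ω ^ 2 * u) =
      3 * (3 * s * t * u + (ω - 1) * t ^ 3 + (ω ^ 2 - 1) * u ^ 3) := by
  linear_combination (ω ^ 4 * t * u ^ 2 + 2 * ω ^ 3 * t ^ 2 * u - ω ^ 3 * t * u ^ 2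
    + ω ^ 3 * u ^ 3 + ω ^ 2 * s * t ^ 2 - ω ^ 2 * s * t * u + ω ^ 2 * s * u ^ 2
    + 2 * ω ^ 2 * t ^ 3 - 4 * ω ^ 2 * t ^ 2 * u - ω ^ 2 * t * u ^ 2 - ω ^ 2 * u ^ 3
    - 2 * ω * s * t ^ 2 + 5 * ω * s * t * u - 2 * ω * s * u ^ 2 - 5 * ω * t ^ 3
    + 2 * ω * t ^ 2 * u + ω * t * u ^ 2 - 3 * ω * u ^ 3 + s * t ^ 2 - 7 * s * t * u
    + s * u ^ 2 + 3 * t ^ 3 + 3 * u ^ 3) * hω

end poly

section
variable {K F : Type} [Field K] [Field F] [DecidableEq K] (E : Ext K F) {a b : K}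

include E

/-- A point with `m / m'` a cube is divisible by three. -/
theorem div3 (hb0 : b ≠ 0) (hc0 : a ^ 3 - 27 * b ≠ 0) {A B : K}
    (hAB : B ^ 3 - A ^ 3 = a * A * B + b) {z : F}
    (hz : E.mm a A B = z ^ 3 * E.mm' a A B)
    (hP : (E3 a b).toAffine.Nonsingular (A * B) (A ^ 3)) :
    ∃ R : (E3 a b).toAffine.Point, Affine.Point.some _ _ hP = 3 • R := by
  have h3 := E.three'
  have hm := E.mm_ne_zero hAB hc0
  have hm' := E.mm'_ne_zero hAB hc0
  have hprod := E.prod_mm hAB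
  have hsum := E.sum_mm a A B
  have hσm := E.σ_mm a A B
  have hσm' := E.σ_mm' a A B
  have hz0 : z ≠ 0 := by
    rintro rfl
    apply hm
    rw [hz]; ring
  have hmdef : E.mm a A B = E.ω * E.ι B - E.ω ^ 2 * E.ι A - E.ι a / 3 := rfl
  have hmdef' : E.mm' a A B = E.ω ^ 2 * E.ι B - E.ω * E.ι A - E.ι a / 3 := rfl
  obtain ⟨m, hmm⟩ : ∃ m, m = E.mm a A B := ⟨_, rfl⟩
  obtain ⟨m', hmm'⟩ : ∃ m', m' = E.mm' a A B := ⟨_, rfl⟩
  rw [← hmm] at hz hm hprod hsum hσm hσm' hmdef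
  rw [← hmm'] at hz hm' hprod hsum hσm hσm' hmdef'
  -- the norm of `z` is `1`
  have hzz : z * E.σ z = 1 := by
    obtain ⟨w, hw⟩ := E.fixed (z * E.σ z) (by rw [map_mul, E.σσ]; ring)
    have h1 : (z * E.σ z) ^ 3 = 1 := by
      have h2 := congrArg E.σ hz
      rw [hσm, map_mul, map_pow, hσm'] at h2
      have h4 : m * ((z * E.σ z) ^ 3 - 1) = 0 := by
        linear_combination -hz - z ^ 3 * h2
      rcases mul_eq_zero.mp h4 with h | h
      · exact absurd h hm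
      · exact sub_eq_zero.mp h
    have h2 : w = 1 := by
      apply E.cube_inj
      apply E.ι.injective
      rw [map_pow, hw, h1]
      simp
    rw [← hw, h2, map_one]
  have hθ : ∃ θ : F, θ * z = 3 * m := ⟨3 * m / z, div_mul_cancel₀ _ hz0⟩
  obtain ⟨θ, hθ⟩ := hθ
  obtain ⟨η, hη⟩ : ∃ η : F, η = E.σ θ := ⟨_, rfl⟩
  have hη2 : η = 3 * m' * z := by
    have h := congrArg E.σ hθ
    rw [map_mul, map_mul, hσm, ← hη, map_ofNat] at h
    linear_combination z * h - η * hzz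
  have hση : E.σ η = θ := by rw [hη, E.σσ]
  have hση' : E.σ θ = η := hη.symm
  -- products
  have p1 : θ * η = 9 * m * m' := by rw [hη2]; linear_combination 3 * m' * hθ
  have p2 : 3 * m * η = θ ^ 2 := by
    apply mul_left_cancel₀ (pow_ne_zero 2 hz0)
    rw [hη2]
    linear_combination -(θ * z + 3 * m) * hθ - 9 * m * hz
  have p3 : 3 * m' * θ = η ^ 2 := by
    rw [hη2]
    have : m' * (θ - 3 * m' * z ^ 2) = 0 := by
      apply mul_left_cancel₀ hz0
      linear_combination m' * hθ + 3 * m' * hz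
    linear_combination 3 * this
  -- the elements of `K`
  obtain ⟨p, hp⟩ := E.fixed ((-E.ι a + θ + η) / 3) (by
    rw [map_div₀, map_add, map_add, map_neg, E.σι, hση, hση', map_ofNat]; ring)
  obtain ⟨q, hq⟩ := E.fixed ((-E.ι a + E.ω ^ 2 * θ + E.ω * η) / 3) (by
    rw [map_div₀, map_add, map_add, map_neg, map_mul, map_mul, E.σι, hση, hση', E.σω2, E.σω,
      map_ofNat]; ring)
  obtain ⟨r, hr⟩ := E.fixed ((-E.ι a + E.ω * θ + E.ω ^ 2 * η) / 3) (by
    rw [map_div₀, map_add, map_add, map_neg, map_mul, map_mul, E.σι, hση, hση', E.σω2, E.σω,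
      map_ofNat]; ring)
  have hp3 : 3 * E.ι p = -E.ι a + θ + η := by rw [hp]; field_simp
  have hq3 : 3 * E.ι q = -E.ι a + E.ω ^ 2 * θ + E.ω * η := by rw [hq]; field_simp
  have hr3 : 3 * E.ι r = -E.ι a + E.ω * θ + E.ω ^ 2 * η := by rw [hr]; field_simp
  have h27 : (27 : F) ≠ 0 := by
    have : (27 : F) = 3 ^ 3 := by norm_num
    rw [this]; exact pow_ne_zero 3 h3
  have h9 : (9 : F) ≠ 0 := by
    have : (9 : F) = 3 ^ 2 := by norm_num
    rw [this]; exact pow_ne_zero 2 h3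
  have ha : a = -(p + q + r) := by
    apply E.ι.injective
    apply mul_left_cancel₀ h3
    rw [map_neg, map_add, map_add]
    linear_combination hp3 + hq3 + hr3 + (θ + η) * E.hω
  have hb : b = -(p * q * r) := by
    apply E.ι.injective
    apply mul_left_cancel₀ h27
    rw [map_neg, map_mul, map_mul]
    have e1 := poly1 E.hω (-E.ι a) θ η
    rw [← hp3, ← hq3, ← hr3] at e1
    have e2 : E.ι (-(a ^ 3 - 27 * b) / 27) * 27 = -(E.ι a ^ 3 - 27 * E.ι b) := by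
      rw [map_div₀, map_neg, map_sub, map_mul, map_pow, map_ofNat]
      field_simp
    have e3 : θ ^ 3 = 27 * m ^ 2 * m' := by
      linear_combination -θ * p2 + 3 * m * p1
    have e4 : η ^ 3 = 27 * m'^ 2 * m := by
      linear_combination -η * p3 + 3 * m' * p1
    have e5 : E.ι (B - A - a / 3) = -E.ι a - m - m' := by
      rw [map_neg] at hsum
      linear_combination hsum
    rw [e5] at hprod
    linear_combination -e2 - 27 * hprod + e1 + e3 + e4 + 3 * E.ι a * p1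
  have hD' : 9 * (E.ι p ^ 2 + E.ι q ^ 2 + E.ι r ^ 2 - E.ι p * E.ι q - E.ι q * E.ι r
      - E.ι r * E.ι p) = 9 * (θ * η) := by
    have e1 := poly2 E.hω (-E.ι a) θ η
    rw [← hp3, ← hq3, ← hr3] at e1
    linear_combination e1
  have hDF : E.ι (p ^ 2 + q ^ 2 + r ^ 2 - p * q - q * r - r * p) = θ * η := by
    apply mul_left_cancel₀ h9
    rw [← hD']
    simp only [map_add, map_sub, map_mul, map_pow]
  have hD : p ^ 2 + q ^ 2 + r ^ 2 - p * q - q * r - r * p ≠ 0 := by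
    rw [← map_ne_zero E.ι, hDF, p1]
    exact mul_ne_zero (mul_ne_zero h9 hm) hm'
  have hB : B * (p ^ 2 + q ^ 2 + r ^ 2 - p * q - q * r - r * p) =
      p ^ 2 * q + q ^ 2 * r + r ^ 2 * p - 3 * p * q * r := by
    apply E.ι.injective
    apply mul_left_cancel₀ h27
    rw [map_mul, hDF]
    simp only [map_add, map_sub, map_mul, map_pow, map_ofNat]
    have e1 := poly3 E.hω (-E.ι a) θ η
    rw [← hp3, ← hq3, ← hr3] at e1
    have e6 : 3 * E.ι B = -E.ι a + (E.ω ^ 2 - 1) * m + (E.ω - 1) * m' := by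
      apply mul_left_cancel₀ h3
      have f1 : 3 * m = 3 * E.ω * E.ι B - 3 * E.ω ^ 2 * E.ι A - E.ι a := by
        rw [hmdef]; field_simp
      have f2 : 3 * m' = 3 * E.ω ^ 2 * E.ι B - 3 * E.ω * E.ι A - E.ι a := by
        rw [hmdef']; field_simp
      linear_combination (3 * E.ω ^ 2 * E.ι A - 3 * E.ω * E.ι A - 6 * E.ω * E.ι B + 9 * E.ι B
        + E.ι a) * E.hω - (E.ω ^ 2 - 1) * f1 - (E.ω - 1) * f2
    linear_combination 9 * θ * η * e6 - e1 + 3 * θ * (E.ω ^ 2 - 1) * p2 +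
      3 * η * (E.ω - 1) * p3
  have hA : A * (p ^ 2 + q ^ 2 + r ^ 2 - p * q - q * r - r * p) =
      -(p ^ 2 * r + q ^ 2 * p + r ^ 2 * q - 3 * p * q * r) := by
    apply E.ι.injective
    apply mul_left_cancel₀ h27
    rw [map_mul, hDF]
    simp only [map_add, map_sub, map_mul, map_pow, map_ofNat, map_neg]
    have e1 := poly4 E.hω (-E.ι a) θ η
    rw [← hp3, ← hq3, ← hr3] at e1
    have e6 : -(3 * E.ι A) = -E.ι a + (E.ω - 1) * m + (E.ω ^ 2 - 1) * m' := by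
      apply mul_left_cancel₀ h3
      have f1 : 3 * m = 3 * E.ω * E.ι B - 3 * E.ω ^ 2 * E.ι A - E.ι a := by
        rw [hmdef]; field_simp
      have f2 : 3 * m' = 3 * E.ω ^ 2 * E.ι B - 3 * E.ω * E.ι A - E.ι a := by
        rw [hmdef']; field_simp
      linear_combination (-3 * E.ω ^ 2 * E.ι B + 6 * E.ω * E.ι A + 3 * E.ω * E.ι B - 9 * E.ι A
        + E.ι a) * E.hω - (E.ω - 1) * f1 - (E.ω ^ 2 - 1) * f2
    linear_combination -9 * θ * η * e6 + e1 - 3 * θ * (E.ω - 1) * p2 -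
      3 * η * (E.ω ^ 2 - 1) * p3
  have hA' := (eq_div_iff hD).mpr hA
  have hB' := (eq_div_iff hD).mpr hB
  by_cases hpr : p = r
  · have hqp : q ≠ p := by
      rintro rfl
      apply hD
      rw [hpr]
      ring
    refine tripling (p := q) (q := r) (r := p) ?_ ?_ hb0 hc0 hqp ?_ ?_ ?_ hP
    · rw [ha]; ring
    · rw [hb]; ring
    · intro h
      apply hD
      rw [← h]
      ring
    · rw [hA']
      congr 1 <;> ring
    · rw [hB']
      congr 1 <;> ring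
  · exact tripling ha hb hb0 hc0 hpr hD hA' hB' hP

end

end Pool.Agent.BSDFF.T3
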