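import Pool.Agent.Lib.MP_48b749_nt.Tors3.Count

/-!
The local hypothesis at a finite place of degree prime to three and at infinity, and the bound for
the image of the first map.
-/

set_option autoImplicit false

open Polynomial IsDedekindDomain WithZero WeierstrassCurve

namespace Pool.Agent.BSDFF.T3

variable {k k' : Type} [Field k] [Field k'] (E₀ : Ext k k')

theorem rat_ι (f : k[X]) : E₀.rat.ι (algebraMap k[X] (RatFunc k) f) =
    algebraMap k'[X] (RatFunc k') (f.map E₀.ι) := rm_poly E₀.ι f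

theorem rat_ω_eq : E₀.rat.ω = algebraMap k'[X] (RatFunc k') (C E₀.ω) := rfl

/-- The local hypothesis from a finite place of degree prime to three. -/
theorem loc_finite [Finite k'] (hq : Nat.card k' % 3 = 1) {a b : k[X]} (hb0 : b ≠ 0)
    (hc0 : a ^ 3 - 27 * b ≠ 0) (v : HeightOneSpectrum k[X]) (hdeg : ¬ 3 ∣ MW.vdeg v)
    (hb : b ∈ v.asIdeal) (hab : a ∉ v.asIdeal ∨ b ∉ v.asIdeal ^ 3) :
    Loc E₀ (algebraMap k[X] (RatFunc k) a) (algebraMap k[X] (RatFunc k) b) := by
  intro U V u w hUV hu hm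
  obtain ⟨p, hp⟩ := exists_above E₀ v
  have hdp : ¬ 3 ∣ MW.vdeg p := by
    rcases vdeg_contr E₀ p with h | h
    · rw [hp] at h; rw [h] at hdeg; omega
    · rw [hp] at h; rw [h.1] at hdeg; exact hdeg
  have hC0 : (algebraMap k[X] (RatFunc k) a) ^ 3 - 27 * algebraMap k[X] (RatFunc k) b ≠ 0 := by
    have e : (algebraMap k[X] (RatFunc k) a) ^ 3 - 27 * algebraMap k[X] (RatFunc k) b =
        algebraMap k[X] (RatFunc k) (a ^ 3 - 27 * b) := by
      rw [map_sub, map_mul, map_pow, map_ofNat]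
    rw [e]
    exact (map_ne_zero_iff _ (IsFractionRing.injective k[X] (RatFunc k))).mpr hc0
  have hB0 : algebraMap k[X] (RatFunc k) b ≠ 0 := by simpa using hb0
  have hUV' := congrArg E₀.rat.ι hUV
  rw [map_sub, map_add, map_mul, map_mul, map_pow, map_pow] at hUV'
  have hC0' := (_root_.map_ne_zero E₀.rat.ι).mpr hC0
  rw [map_sub, map_mul, map_pow, map_ofNat] at hC0'
  have hbp : b.map E₀.ι ∈ p.asIdeal := by
    rw [← mem_contr, hp]; exact hb
  have hvb : pval p (E₀.rat.ι (algebraMap k[X] (RatFunc k) b)) < 1 := by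
    rw [rat_ι, pval_lt_one_iff]; exact hbp
  have hab' : pval p (E₀.rat.ι (algebraMap k[X] (RatFunc k) a)) = 1 ∨
      pval p (E₀.rat.ι (algebraMap k[X] (RatFunc k) b)) = exp (-1) ∨
      pval p (E₀.rat.ι (algebraMap k[X] (RatFunc k) b)) = exp (-2) := by
    rcases hab with h | h
    · left
      rw [rat_ι, pval_eq_one_iff, ← mem_contr, hp]
      exact h
    · right
      have h1 : ¬ pval p (E₀.rat.ι (algebraMap k[X] (RatFunc k) b)) ≤ exp (-((3 : ℕ) : ℤ)) := by
        rw [rat_ι, pval_le_exp_iff]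
        intro h2
        apply h
        rw [← hp]
        exact cube_dvd E₀ p h2
      have hB0' : E₀.rat.ι (algebraMap k[X] (RatFunc k) b) ≠ 0 :=
        (_root_.map_ne_zero _).mpr hB0
      rw [v_eq_exp _ hB0', ← exp_zero, exp_lt_exp] at hvb
      rw [v_eq_exp _ hB0', exp_le_exp] at h1
      rw [v_eq_exp _ hB0', exp_inj, exp_inj]
      push_cast at h1
      omega
  have h3 : pval p 3 = 1 := pval_ofNat p E₀.three'
  have hm0 := E₀.rat.mm_ne_zero hUV hC0
  obtain ⟨z, hz, hz2⟩ := local_cond (v := pval p) E₀.rat.hω h3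
    (by rw [rat_ι]; exact pval_poly_le _ _) hvb ((_root_.map_ne_zero _).mpr hB0) hab' hC0' hUV'
    (l := E₀.rat.ι V - E₀.rat.ι U - E₀.rat.ι (algebraMap k[X] (RatFunc k) a) / 3) rfl rfl rfl hm0
    (u := algebraMap k'[X] (RatFunc k') (C u)) (pval_C p hu) hm
  exact const_cube hq hu hdp hz hz2

theorem infty_poly {k : Type} [Field k] [DecidableEq (RatFunc k)] {f : k[X]} (hf : f ≠ 0) :
    RatFunc.inftyValuation k (algebraMap k[X] (RatFunc k) f) = exp (f.natDegree : ℤ) := by
  rw [RatFunc.inftyValuation_apply, RatFunc.inftyValuation.polynomial k hf]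

theorem infty_poly_le {k : Type} [Field k] [DecidableEq (RatFunc k)] (f : k[X]) {s : ℤ}
    (h : (f.natDegree : ℤ) ≤ s) :
    RatFunc.inftyValuation k (algebraMap k[X] (RatFunc k) f) ≤ exp s := by
  by_cases hf : f = 0
  · subst hf; simp
  · rw [infty_poly hf, exp_le_exp]; exact h

/-- The local hypothesis from infinity. -/
theorem loc_infty {a b : k[X]} (hb0 : b ≠ 0) (hc0 : a ^ 3 - 27 * b ≠ 0)
    (h : ¬(3 ∣ b.natDegree ∧ 3 * a.natDegree ≤ b.natDegree)) :
    Loc E₀ (algebraMap k[X] (RatFunc k) a) (algebraMap k[X] (RatFunc k) b) := by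
  classical
  intro U V u w hUV hu hm
  have hC0 : (algebraMap k[X] (RatFunc k) a) ^ 3 - 27 * algebraMap k[X] (RatFunc k) b ≠ 0 := by
    have e : (algebraMap k[X] (RatFunc k) a) ^ 3 - 27 * algebraMap k[X] (RatFunc k) b =
        algebraMap k[X] (RatFunc k) (a ^ 3 - 27 * b) := by
      rw [map_sub, map_mul, map_pow, map_ofNat]
    rw [e]
    exact (map_ne_zero_iff _ (IsFractionRing.injective k[X] (RatFunc k))).mpr hc0
  have hB0 : algebraMap k[X] (RatFunc k) b ≠ 0 := by simpa using hb0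
  have hUV' := congrArg E₀.rat.ι hUV
  rw [map_sub, map_add, map_mul, map_mul, map_pow, map_pow] at hUV'
  have hC0' := (_root_.map_ne_zero E₀.rat.ι).mpr hC0
  rw [map_sub, map_mul, map_pow, map_ofNat] at hC0'
  have hB0' : E₀.rat.ι (algebraMap k[X] (RatFunc k) b) ≠ 0 := (_root_.map_ne_zero _).mpr hB0
  have hb0' : b.map E₀.ι ≠ 0 := (Polynomial.map_ne_zero_iff E₀.ι.injective).mpr hb0
  have hm0 := E₀.rat.mm_ne_zero hUV hC0
  set v := RatFunc.inftyValuation k' with hv
  have hvB : v (E₀.rat.ι (algebraMap k[X] (RatFunc k) b)) = exp (b.natDegree : ℤ) := by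
    rw [rat_ι, infty_poly hb0', natDegree_map]
  have h3k : (3 : k') ≠ 0 := E₀.three'
  have h3 : v 3 = 1 := by
    have e : (3 : RatFunc k') = algebraMap k'[X] (RatFunc k') (C 3) := by
      rw [map_ofNat, map_ofNat]
    rw [e, infty_poly (by simpa using h3k), natDegree_C]
    rfl
  have h3F : (3 : RatFunc k') ≠ 0 := E₀.rat.three'
  have hvu : v (algebraMap k'[X] (RatFunc k') (C u)) = 1 := by
    rw [infty_poly (by simpa using hu), natDegree_C]
    rfl
  -- the scaling
  obtain ⟨n, hn1, hn2, hn3⟩ : ∃ n : ℕ,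
      v (E₀.rat.ι (algebraMap k[X] (RatFunc k) a)) ≤ exp (n : ℤ) ∧ b.natDegree < 3 * n ∧
      (v (E₀.rat.ι (algebraMap k[X] (RatFunc k) a)) = exp (n : ℤ) ∨ b.natDegree + 1 = 3 * n ∨
        b.natDegree + 2 = 3 * n) := by
    by_cases h1 : 3 * a.natDegree ≤ b.natDegree
    · have h2 : ¬ 3 ∣ b.natDegree := fun h2 => h ⟨h2, h1⟩
      refine ⟨b.natDegree / 3 + 1, ?_, by omega, by right; omega⟩
      rw [rat_ι]
      apply infty_poly_le
      rw [natDegree_map]
      push_cast
      omega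
    · have ha0 : a ≠ 0 := by rintro rfl; simp at h1
      have ha0' : a.map E₀.ι ≠ 0 := (Polynomial.map_ne_zero_iff E₀.ι.injective).mpr ha0
      have e : v (E₀.rat.ι (algebraMap k[X] (RatFunc k) a)) = exp (a.natDegree : ℤ) := by
        rw [rat_ι, infty_poly ha0', natDegree_map]
      exact ⟨a.natDegree, e.le, by omega, Or.inl e⟩
  obtain ⟨τ, hτ⟩ : ∃ τ : RatFunc k', τ = algebraMap k'[X] (RatFunc k') (X ^ n) := ⟨_, rfl⟩
  have hτ0 : τ ≠ 0 := by
    rw [hτ]
    exact (map_ne_zero_iff _ (IsFractionRing.injective k'[X] (RatFunc k'))).mpr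
      (pow_ne_zero n X_ne_zero)
  have hvτ : v τ = exp (n : ℤ) := by
    rw [hτ, infty_poly (pow_ne_zero n X_ne_zero), natDegree_X_pow]
  have hva : ∀ x : RatFunc k', v (x / τ) = v x * exp (-(n : ℤ)) := by
    intro x
    rw [map_div₀, hvτ, div_eq_mul_inv, exp_neg]
  have hvB' : v (E₀.rat.ι (algebraMap k[X] (RatFunc k) b) / τ ^ 3) =
      exp ((b.natDegree : ℤ) - 3 * n) := by
    rw [map_div₀, map_pow, hvB, hvτ, ← exp_nsmul, ← exp_sub]
    congr 1
  obtain ⟨z, hz, hz2⟩ := local_cond (v := v) (ω := E₀.rat.ω)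
    (a := E₀.rat.ι (algebraMap k[X] (RatFunc k) a) / τ)
    (b := E₀.rat.ι (algebraMap k[X] (RatFunc k) b) / τ ^ 3)
    (A := E₀.rat.ι U / τ) (B := E₀.rat.ι V / τ)
    (u := algebraMap k'[X] (RatFunc k') (C u)) (w := w) E₀.rat.hω h3
    (by
      rw [hva]
      calc _ ≤ exp (n : ℤ) * exp (-(n : ℤ)) := mul_le_mul_left hn1 _
        _ = 1 := by rw [← exp_add, add_neg_cancel, exp_zero])
    (by
      rw [hvB', ← exp_zero, exp_lt_exp]
      omega)
    (div_ne_zero hB0' (pow_ne_zero 3 hτ0))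
    (by
      rw [hva, hvB', exp_inj, exp_inj]
      rcases hn3 with h | h | h
      · left
        rw [h, ← exp_add, add_neg_cancel, exp_zero]
      · right; left; omega
      · right; right; omega)
    (by
      have e : (E₀.rat.ι (algebraMap k[X] (RatFunc k) a) / τ) ^ 3 -
          27 * (E₀.rat.ι (algebraMap k[X] (RatFunc k) b) / τ ^ 3) =
          (E₀.rat.ι (algebraMap k[X] (RatFunc k) a) ^ 3 -
            27 * E₀.rat.ι (algebraMap k[X] (RatFunc k) b)) / τ ^ 3 := by
        field_simp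
      rw [e]
      exact div_ne_zero hC0' (pow_ne_zero 3 hτ0))
    (by
      field_simp
      linear_combination hUV')
    (l := (E₀.rat.ι V - E₀.rat.ι U - E₀.rat.ι (algebraMap k[X] (RatFunc k) a) / 3) / τ)
    (m := E₀.rat.mm (algebraMap k[X] (RatFunc k) a) U V / τ)
    (m' := E₀.rat.mm' (algebraMap k[X] (RatFunc k) a) U V / τ)
    (by field_simp)
    (by simp only [Ext.mm]; field_simp)
    (by simp only [Ext.mm']; field_simp)
    (div_ne_zero hm0 hτ0) hvu
    (by rw [hm]; field_simp)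
  exact const_cube_infty hz hz2

end Pool.Agent.BSDFF.T3
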