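import Mathlib

/-!
Local computations for the 3-descent, for a valuation with values in `ℤᵐ⁰`.
-/

set_option autoImplicit false

open WithZero

namespace Pool.Agent.BSDFF.T3

variable {F : Type} [Field F] (v : Valuation F (WithZero (Multiplicative ℤ)))

theorem v_eq_exp {x : F} (hx : x ≠ 0) : v x = exp (log (v x)) :=
  (exp_log ((Valuation.ne_zero_iff v).mpr hx)).symm

theorem log_v_mul {x y : F} (hx : x ≠ 0) (hy : y ≠ 0) :
    log (v (x * y)) = log (v x) + log (v y) := by
  rw [map_mul, log_mul ((Valuation.ne_zero_iff v).mpr hx) ((Valuation.ne_zero_iff v).mpr hy)]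

theorem v_lt_iff {x y : F} (hx : x ≠ 0) (hy : y ≠ 0) : v x < v y ↔ log (v x) < log (v y) := by
  rw [v_eq_exp v hx, v_eq_exp v hy, log_exp, log_exp, exp_lt_exp]

/-- If one of three terms has the strictly largest value, then it is the value of the sum. -/
theorem sum3 {x y z : F} (hx : x ≠ 0) (hy : y ≠ 0) (hz : z ≠ 0)
    (h1 : log (v y) < log (v x)) (h2 : log (v z) < log (v x)) : v (x + y + z) = v x := by
  have e1 : v (x + y) = v x := by
    apply Valuation.map_add_eq_of_lt_left
    exact (v_lt_iff v hy hx).mpr h1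
  rw [Valuation.map_add_eq_of_lt_left, e1]
  rw [e1]
  exact (v_lt_iff v hz hx).mpr h2

/-- The values of the three terms of a sum with bounded value and given product. -/
theorem three_terms {p q r : F} (hp : p ≠ 0) (hq : q ≠ 0) (hr : r ≠ 0) {s : ℤ}
    (h1 : v (p + q + r) ≤ exp s) (h2 : v (p * q * r) = exp (3 * s)) :
    log (v p) + log (v q) + log (v r) = 3 * s ∧
    ¬(log (v q) < log (v p) ∧ log (v r) < log (v p)) ∧
    ¬(log (v p) < log (v q) ∧ log (v r) < log (v q)) ∧
    ¬(log (v p) < log (v r) ∧ log (v q) < log (v r)) := by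
  have hsum : log (v p) + log (v q) + log (v r) = 3 * s := by
    rw [← log_v_mul v hp hq, ← log_v_mul v (mul_ne_zero hp hq) hr, h2, log_exp]
  have aux : ∀ x y z : F, x ≠ 0 → y ≠ 0 → z ≠ 0 → v (x + y + z) ≤ exp s →
      log (v x) + log (v y) + log (v z) = 3 * s →
      ¬(log (v y) < log (v x) ∧ log (v z) < log (v x)) := by
    rintro x y z hx hy hz h3 h4 ⟨h5, h6⟩
    rw [sum3 v hx hy hz h5 h6, v_eq_exp v hx, exp_le_exp] at h3
    omega
  refine ⟨hsum, aux p q r hp hq hr h1 hsum, aux q p r hq hp hr ?_ ?_, aux r p q hr hp hq ?_ ?_⟩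
  · rwa [add_comm q p]
  · omega
  · have : r + p + q = p + q + r := by ring
    rwa [this]
  · omega

/-- No strict maximum. -/
theorem no_max {p q r : F} (hp : p ≠ 0) (hq : q ≠ 0) (hr : r ≠ 0) {s t : ℤ}
    (h1 : v (p + q + r) ≤ exp s) (h2 : log (v p) + log (v q) + log (v r) = t)
    (h3 : 3 * s - 1 ≤ t) :
    ¬(log (v q) < log (v p) ∧ log (v r) < log (v p)) ∧
    ¬(log (v p) < log (v q) ∧ log (v r) < log (v q)) ∧
    ¬(log (v p) < log (v r) ∧ log (v q) < log (v r)) := by
  have aux : ∀ x y z : F, x ≠ 0 → y ≠ 0 → z ≠ 0 → v (x + y + z) ≤ exp s →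
      log (v x) + log (v y) + log (v z) = t →
      ¬(log (v y) < log (v x) ∧ log (v z) < log (v x)) := by
    rintro x y z hx hy hz h3 h4 ⟨h5, h6⟩
    rw [sum3 v hx hy hz h5 h6, v_eq_exp v hx, exp_le_exp] at h3
    omega
  refine ⟨aux p q r hp hq hr h1 h2, aux q p r hq hp hr ?_ ?_, aux r p q hr hp hq ?_ ?_⟩
  · rwa [add_comm q p]
  · omega
  · have : r + p + q = p + q + r := by ring
    rwa [this]
  · omega

/-- **Lemma B**: the values of the terms agree modulo three. -/
theorem lemmaB {p q r : F} (hp : p ≠ 0) (hq : q ≠ 0) (hr : r ≠ 0) {s : ℤ}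
    (h1 : v (p + q + r) ≤ exp s) (h2 : v (p * q * r) = exp (3 * s)) :
    (3 : ℤ) ∣ log (v p) - log (v q) := by
  obtain ⟨h3, h4, h5, h6⟩ := three_terms v hp hq hr h1 h2
  omega

/-- Principal units. -/
def PU (x : F) : Prop := v (x - 1) < 1

variable {v}

theorem PU.val {x : F} (h : PU v x) : v x = 1 := by
  have : x = (x - 1) + 1 := by ring
  rw [this, Valuation.map_add_eq_of_lt_right, map_one]
  rw [map_one]
  exact h

theorem PU.ne_zero {x : F} (h : PU v x) : x ≠ 0 := by
  rintro rfl
  have := h.val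
  simp at this

theorem PU.mul {x y : F} (hx : PU v x) (hy : PU v y) : PU v (x * y) := by
  have : x * y - 1 = (x - 1) * y + (y - 1) := by ring
  unfold PU
  rw [this]
  refine (Valuation.map_add v _ _).trans_lt (max_lt ?_ hy)
  rw [map_mul, hy.val, mul_one]
  exact hx

theorem PU.inv {x : F} (hx : PU v x) : PU v x⁻¹ := by
  have h0 := hx.ne_zero
  have : x⁻¹ - 1 = -(x - 1) * x⁻¹ := by field_simp; ring
  unfold PU
  rw [this, map_mul, Valuation.map_neg, map_inv₀, hx.val, inv_one, mul_one]
  exact hx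

theorem PU.div {x y : F} (hx : PU v x) (hy : PU v y) : PU v (x / y) := by
  rw [div_eq_mul_inv]; exact hx.mul hy.inv

/-- `1 + y / x` is a principal unit. -/
theorem pu_add {x y : F} (hx : x ≠ 0) (h : v y < v x) : PU v ((x + y) / x) := by
  have : (x + y) / x - 1 = y / x := by field_simp; ring
  unfold PU
  rw [this, map_div₀]
  have hvx : (0 : WithZero (Multiplicative ℤ)) < v x :=
    zero_lt_iff.mpr ((Valuation.ne_zero_iff v).mpr hx)
  rw [div_lt_one₀ hvx]
  exact h

theorem pow3_ne {x : WithZero (Multiplicative ℤ)} (h : x ^ 3 = 1) : x = 1 := by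
  rcases eq_or_ne x 0 with rfl | hx
  · simp at h
  · have h2 : log (x ^ 3) = 0 := by rw [h, log_one]
    rw [log_pow] at h2
    have h3 : log x = 0 := by
      simp only [nsmul_eq_mul, Nat.cast_ofNat] at h2
      omega
    rw [← exp_log hx, h3, exp_zero]

/-- The local condition: `m / m'` is a cube times a principal unit. -/
theorem local_aux {ω a b A B : F} (hω : ω ^ 2 + ω + 1 = 0) (h3 : v 3 = 1) (ha : v a ≤ 1)
    (hb : v b < 1) (hb0 : b ≠ 0) (hab : v a = 1 ∨ v b = exp (-1) ∨ v b = exp (-2))
    (hc : a ^ 3 - 27 * b ≠ 0) (h : B ^ 3 - A ^ 3 = a * A * B + b) {l m m' : F}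
    (hl : l = B - A - a / 3) (hm : m = ω * B - ω ^ 2 * A - a / 3)
    (hm' : m' = ω ^ 2 * B - ω * A - a / 3) (hdvd : (3 : ℤ) ∣ log (v m) - log (v m')) :
    ∃ t P : F, t ≠ 0 ∧ PU v P ∧ m = t ^ 3 * P * m' := by
  have h30 : (3 : F) ≠ 0 := by
    intro h0; rw [h0, map_zero] at h3; exact zero_ne_one h3
  have h27 : v 27 = 1 := by
    have : (27 : F) = 3 ^ 3 := by norm_num
    rw [this, map_pow, h3, one_pow]
  have h270 : (27 : F) ≠ 0 := by
    have : (27 : F) = 3 ^ 3 := by norm_num
    rw [this]; exact pow_ne_zero 3 h30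
  have hω3 : ω ^ 3 = 1 := by linear_combination (ω - 1) * hω
  have hω0 : ω ≠ 0 := by rintro rfl; simp at hω3
  have hvω : v ω = 1 := by
    apply pow3_ne
    rw [← map_pow, hω3, map_one]
  have hsum : l + m + m' = -a := by
    rw [hl, hm, hm']
    field_simp
    linear_combination (3 * (B - A)) * hω
  have hprod : l * m * m' * 27 = -(a ^ 3 - 27 * b) := by
    have key : ∀ X Y Z : F, (X + Y + Z) * (ω * X + ω ^ 2 * Y + Z) *
        (ω ^ 2 * X + ω * Y + Z) = X ^ 3 + Y ^ 3 + Z ^ 3 - 3 * X * Y * Z := by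
      intro X Y Z
      have e1 : (ω * X + ω ^ 2 * Y + Z) * (ω ^ 2 * X + ω * Y + Z) =
          X ^ 2 + Y ^ 2 + Z ^ 2 - X * Y - Y * Z - X * Z := by
        linear_combination ((ω - 1) * X ^ 2 + (ω - 1) * Y ^ 2 +
          (ω ^ 2 - ω + 1) * X * Y + X * Z + Y * Z) * hω
      rw [mul_assoc, e1]
      ring
    have h5 := key B (-A) (-(a / 3))
    have h6 : l * m * m' = (B + -A + -(a / 3)) * (ω * B + ω ^ 2 * -A + -(a / 3)) *
        (ω ^ 2 * B + ω * -A + -(a / 3)) := by rw [hl, hm, hm']; ring
    rw [h6, h5]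
    field_simp
    linear_combination 729 * h
  have hP : l * m * m' ≠ 0 := by
    intro h0
    rw [h0, zero_mul] at hprod
    exact hc (by linear_combination hprod)
  have hm0' : m' ≠ 0 := right_ne_zero_of_mul hP
  have hm0 : m ≠ 0 := right_ne_zero_of_mul (left_ne_zero_of_mul hP)
  have hl0 : l ≠ 0 := left_ne_zero_of_mul (left_ne_zero_of_mul hP)
  -- the case `m ≡ -m'`
  have caseA : v (l + a) < v m' → ∃ t P : F, t ≠ 0 ∧ PU v P ∧ m = t ^ 3 * P * m' := by
    intro hlt
    refine ⟨-1, (m' + (l + a)) / m', by simp, pu_add hm0' hlt, ?_⟩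
    field_simp
    linear_combination hsum
  have hmax : ∀ x : F, v (x + a) ≤ max (v x) (v a) := fun x => Valuation.map_add v x a
  have hlogsum : log (v l) + log (v m) + log (v m') = log (v (l * m * m')) := by
    rw [log_v_mul v (mul_ne_zero hl0 hm0) hm0', log_v_mul v hl0 hm0]
  have hvP : v (l * m * m') = v (a ^ 3 - 27 * b) := by
    have := congrArg v hprod
    rwa [map_mul, h27, mul_one, Valuation.map_neg] at this
  have hva1 : v (l + m + m') = v a := by rw [hsum, Valuation.map_neg]
  have hlog1 : ∀ x : F, x ≠ 0 → log (v x) = 0 → v x = 1 := by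
    intro x hx h0
    rw [v_eq_exp v hx, h0, exp_zero]
  rcases lt_or_eq_of_le ha with hlt | heq
  · -- additive case
    have hb2 : v b = exp (-1) ∨ v b = exp (-2) := by
      rcases hab with h | h
      · exact absurd h hlt.ne
      · exact h
    have hva : v a ≤ exp (-1) := by
      rcases eq_or_ne a 0 with rfl | ha0
      · simp
      · rw [v_eq_exp v ha0, ← exp_zero, exp_lt_exp] at hlt
        rw [v_eq_exp v ha0, exp_le_exp]
        omega
    have hva3 : v (a ^ 3) < v (-(27 * b)) := by
      rw [Valuation.map_neg, map_mul, h27, one_mul, map_pow]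
      have h1 : v a ^ 3 ≤ exp (-3) := by
        calc v a ^ 3 ≤ (exp (-1 : ℤ)) ^ 3 := pow_le_pow_left' hva 3
          _ = exp (-3) := by rw [← exp_nsmul]; rfl
      refine h1.trans_lt ?_
      rcases hb2 with h | h <;> rw [h, exp_lt_exp] <;> norm_num
    have hvc : v (a ^ 3 - 27 * b) = v b := by
      rw [sub_eq_add_neg, Valuation.map_add_eq_of_lt_right v hva3, Valuation.map_neg, map_mul, h27,
        one_mul]
    have ht : log (v l) + log (v m) + log (v m') = log (v b) := by rw [hlogsum, hvP, hvc]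
    have hlb : log (v b) = -1 ∨ log (v b) = -2 := by
      rcases hb2 with h | h
      · left; rw [h, log_exp]
      · right; rw [h, log_exp]
    obtain ⟨n1, n2, n3⟩ := no_max v hl0 hm0 hm0' (s := -1) (hva1.trans_le hva) ht (by omega)
    have c1 : log (v l) < log (v m') := by omega
    have c2 : 0 ≤ log (v m') := by omega
    apply caseA
    refine (hmax l).trans_lt (max_lt ((v_lt_iff v hl0 hm0').mpr c1) (hlt.trans_le ?_))
    rw [v_eq_exp v hm0', ← exp_zero, exp_le_exp]
    exact c2
  · -- nodal case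
    have ha0 : a ≠ 0 := by rintro rfl; simp at heq
    have hva3 : v (-(27 * b)) < v (a ^ 3) := by
      rw [Valuation.map_neg, map_mul, h27, one_mul, map_pow, heq, one_pow]
      exact hb
    have hvc : v (a ^ 3 - 27 * b) = 1 := by
      rw [sub_eq_add_neg, Valuation.map_add_eq_of_lt_left v hva3, map_pow, heq, one_pow]
    have ht : log (v l) + log (v m) + log (v m') = 0 := by rw [hlogsum, hvP, hvc, log_one]
    obtain ⟨n1, n2, n3⟩ := no_max v hl0 hm0 hm0' (s := 0)
      (by rw [hva1, heq, exp_zero]) ht (by omega)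
    have hPc : PU v (a ^ 3 / (a ^ 3 - 27 * b)) := by
      have := (pu_add (pow_ne_zero 3 ha0) hva3).inv
      have e : ((a ^ 3 + -(27 * b)) / a ^ 3)⁻¹ = a ^ 3 / (a ^ 3 - 27 * b) := by
        rw [inv_div, sub_eq_add_neg]
      rwa [e] at this
    have four : (log (v l) < log (v m') ∧ 0 < log (v m')) ∨
        (log (v m') < log (v m) ∧ 0 < log (v m)) ∨
        (log (v m) < log (v l) ∧ 0 < log (v l)) ∨
        (log (v l) = 0 ∧ log (v m) = 0 ∧ log (v m') = 0) := by omega
    have hpos : ∀ x : F, x ≠ 0 → 0 < log (v x) → v a < v x := by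
      intro x hx h0
      rw [heq, v_eq_exp v hx, ← exp_zero, exp_lt_exp]
      exact h0
    rcases four with ⟨c1, c2⟩ | ⟨c1, c2⟩ | ⟨c1, c2⟩ | ⟨c1, c2, c3⟩
    · apply caseA
      exact (hmax l).trans_lt (max_lt ((v_lt_iff v hl0 hm0').mpr c1) (hpos _ hm0' c2))
    · have hlt : v (m' + a) < v m :=
        (hmax m').trans_lt (max_lt ((v_lt_iff v hm0' hm0).mpr c1) (hpos _ hm0 c2))
      have hpu : PU v ((m + (m' + a)) / m) := pu_add hm0 hlt
      refine ⟨3 * m / a, a ^ 3 / (a ^ 3 - 27 * b) * ((m + (m' + a)) / m),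
        div_ne_zero (mul_ne_zero h30 hm0) ha0, hPc.mul hpu, ?_⟩
      have e : m + (m' + a) = -l := by linear_combination hsum
      rw [e]
      field_simp
      linear_combination hprod
    · have hlt : v (m + a) < v l :=
        (hmax m).trans_lt (max_lt ((v_lt_iff v hm0 hl0).mpr c1) (hpos _ hl0 c2))
      have hpu : PU v ((l + (m + a)) / l) := pu_add hl0 hlt
      refine ⟨a / (3 * m'), (a ^ 3 / (a ^ 3 - 27 * b))⁻¹ * ((l + (m + a)) / l),
        div_ne_zero ha0 (mul_ne_zero h30 hm0'), hPc.inv.mul hpu, ?_⟩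
      have e : l + (m + a) = -m' := by linear_combination hsum
      rw [e]
      field_simp
      linear_combination hprod
    · have vl := hlog1 l hl0 c1
      have vm := hlog1 m hm0 c2
      have vm' := hlog1 m' hm0' c3
      have hA3 : 3 * A = -(l + ω * m + ω ^ 2 * m') := by
        rw [hl, hm, hm']
        field_simp
        linear_combination (3 * ω ^ 2 * B - 6 * ω * A - 3 * ω * B + 6 * A + 3 * B - a) * hω
      have vA : v A ≤ 1 := by
        have : v (3 * A) ≤ 1 := by
          rw [hA3, Valuation.map_neg]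
          refine (Valuation.map_add v _ _).trans (max_le ((Valuation.map_add v _ _).trans
            (max_le ?_ ?_)) ?_)
          · exact vl.le
          · rw [map_mul, hvω, vm, one_mul]
          · rw [map_mul, map_pow, hvω, vm', one_pow, one_mul]
        rwa [map_mul, h3, one_mul] at this
      have hAl : B = A + (l + a / 3) := by rw [hl]; ring
      have vB : v B ≤ 1 := by
        rw [hAl]
        refine (Valuation.map_add v _ _).trans (max_le vA ((Valuation.map_add v _ _).trans
          (max_le vl.le ?_)))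
        rw [map_div₀, h3, div_one]
        exact ha
      have hB3 : B ^ 3 = A ^ 3 + (a * A * B + b) := by linear_combination h
      rcases lt_or_eq_of_le vA with hA | hA
      · -- both `A` and `B` are small
        have vB3 : v (B ^ 3) < 1 := by
          rw [hB3]
          refine (Valuation.map_add v _ _).trans_lt (max_lt ?_ ((Valuation.map_add v _ _).trans_lt
            (max_lt ?_ hb)))
          · rw [map_pow]
            exact pow_lt_one₀ zero_le hA (by norm_num)
          · rw [map_mul, map_mul, heq, one_mul]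
            exact (mul_le_of_le_one_right' vB).trans_lt hA
        have vB1 : v B < 1 := by
          by_contra h1
          have h2 : v B = 1 := le_antisymm vB (not_lt.mp h1)
          rw [map_pow, h2, one_pow] at vB3
          exact lt_irrefl _ vB3
        have hlt : v ((ω - ω ^ 2) * (A + B)) < v m' := by
          rw [vm', map_mul]
          have h1 : v (ω - ω ^ 2) ≤ 1 := by
            refine (Valuation.map_sub v _ _).trans (max_le hvω.le ?_)
            rw [map_pow, hvω, one_pow]
          have h2 : v (A + B) < 1 := (Valuation.map_add v _ _).trans_lt (max_lt hA vB1)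
          exact (mul_le_of_le_one_left' h1).trans_lt h2
        refine ⟨1, (m' + (ω - ω ^ 2) * (A + B)) / m', one_ne_zero, pu_add hm0' hlt, ?_⟩
        rw [one_pow, one_mul, div_mul_cancel₀ _ hm0', hm, hm']
        ring
      · -- both are units
        have hA0 : A ≠ 0 := by rintro rfl; simp at hA
        have vB1 : v B = 1 := by
          by_contra h1
          have h2 : v B < 1 := lt_of_le_of_ne vB h1
          have h4 : A ^ 3 = B ^ 3 + -(a * A * B + b) := by linear_combination -h
          have h5 : v (A ^ 3) < 1 := by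
            rw [h4]
            refine (Valuation.map_add v _ _).trans_lt (max_lt ?_ ?_)
            · rw [map_pow]
              exact pow_lt_one₀ zero_le h2 (by norm_num)
            · rw [Valuation.map_neg]
              refine (Valuation.map_add v _ _).trans_lt (max_lt ?_ hb)
              rw [map_mul, map_mul, heq, hA, one_mul, one_mul]
              exact h2
          rw [map_pow, hA, one_pow] at h5
          exact lt_irrefl _ h5
        have hB0 : B ≠ 0 := by rintro rfl; simp at vB1
        have hX : 3 * (A * B) * m = (A - ω ^ 2 * B) ^ 3 + b := by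
          have : b = B ^ 3 - A ^ 3 - a * A * B := by linear_combination -h
          rw [this, hm]
          field_simp
          linear_combination (ω ^ 4 * B ^ 3 - ω ^ 3 * B ^ 3 - 3 * ω ^ 2 * A * B ^ 2 + 3 * ω * A * B ^ 2 + ω * B ^ 3 - B ^ 3) * hω
        have hY : 3 * (A * B) * m' = (A - ω * B) ^ 3 + b := by
          have : b = B ^ 3 - A ^ 3 - a * A * B := by linear_combination -h
          rw [this, hm']
          field_simp
          linear_combination (ω * B ^ 3 - B ^ 3) * hω
        have unit_of : ∀ X n : F, v n = 1 → 3 * (A * B) * n = X ^ 3 + b → v (X ^ 3) = 1 := by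
          intro X n hn he
          have h1 : X ^ 3 = 3 * (A * B) * n + -b := by linear_combination -he
          have h2 : v (3 * (A * B) * n) = 1 := by
            rw [map_mul, map_mul, map_mul, h3, hA, vB1, hn]; simp
          rw [h1, Valuation.map_add_eq_of_lt_left, h2]
          rw [h2, Valuation.map_neg]
          exact hb
        have vX := unit_of _ _ vm hX
        have vY := unit_of _ _ vm' hY
        have hX0 : (A - ω ^ 2 * B) ^ 3 ≠ 0 := by intro h0; rw [h0] at vX; simp at vX
        have hY0 : (A - ω * B) ^ 3 ≠ 0 := by intro h0; rw [h0] at vY; simp at vY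
        have pX : PU v (((A - ω ^ 2 * B) ^ 3 + b) / (A - ω ^ 2 * B) ^ 3) :=
          pu_add hX0 (by rw [vX]; exact hb)
        have pY : PU v (((A - ω * B) ^ 3 + b) / (A - ω * B) ^ 3) :=
          pu_add hY0 (by rw [vY]; exact hb)
        have hX1 : A - ω ^ 2 * B ≠ 0 := fun h0 => hX0 (by rw [h0]; ring)
        have hY1 : A - ω * B ≠ 0 := fun h0 => hY0 (by rw [h0]; ring)
        refine ⟨(A - ω ^ 2 * B) / (A - ω * B), _, div_ne_zero hX1 hY1, pX.div pY, ?_⟩
        rw [← hX, ← hY]
        field_simp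

/-- The local condition: if `m = u w ^ 3 m'` with `u` a unit, then `u` is a cube modulo `v`. -/
theorem local_cond {ω a b A B : F} (hω : ω ^ 2 + ω + 1 = 0) (h3 : v 3 = 1) (ha : v a ≤ 1)
    (hb : v b < 1) (hb0 : b ≠ 0) (hab : v a = 1 ∨ v b = exp (-1) ∨ v b = exp (-2))
    (hc : a ^ 3 - 27 * b ≠ 0) (h : B ^ 3 - A ^ 3 = a * A * B + b) {l m m' u w : F}
    (hl : l = B - A - a / 3) (hm : m = ω * B - ω ^ 2 * A - a / 3)
    (hm' : m' = ω ^ 2 * B - ω * A - a / 3) (hm0 : m ≠ 0) (hu : v u = 1)
    (hw : m = u * w ^ 3 * m') : ∃ z : F, v z = 1 ∧ v (u - z ^ 3) < 1 := by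
  have hm0' : m' ≠ 0 := by rintro h0; rw [h0, mul_zero] at hw; exact hm0 hw
  have hw0 : w ≠ 0 := by
    rintro rfl
    apply hm0
    rw [hw]; ring
  have hu0 : u ≠ 0 := by rintro rfl; simp at hu
  have hdvd : (3 : ℤ) ∣ log (v m) - log (v m') := by
    refine ⟨log (v w), ?_⟩
    rw [hw, log_v_mul v (mul_ne_zero hu0 (pow_ne_zero 3 hw0)) hm0',
      log_v_mul v hu0 (pow_ne_zero 3 hw0), hu, log_one, map_pow, log_pow]
    simp
  obtain ⟨t, P, ht, hP, hmt⟩ := local_aux hω h3 ha hb hb0 hab hc h hl hm hm' hdvd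
  have e : u * w ^ 3 = t ^ 3 * P := by
    apply mul_right_cancel₀ hm0'
    rw [← hw, ← hmt]
  have e2 : u = (t / w) ^ 3 * P := by
    field_simp
    linear_combination e
  have hz : v (t / w) = 1 := by
    apply pow3_ne
    have := congrArg v e2
    rwa [map_mul, hP.val, mul_one, hu, map_pow, eq_comm] at this
  refine ⟨t / w, hz, ?_⟩
  have e3 : u - (t / w) ^ 3 = (t / w) ^ 3 * (P - 1) := by
    conv_lhs => rw [e2]
    ring
  rw [e3, map_mul, map_pow, hz, one_pow, one_mul]
  exact hP

end Pool.Agent.BSDFF.T3
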