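import Pool.Agent.Lib.MP_48b749_nt.MW.Abs
import Pool.Agent.Lib.MP_48b749_nt.Tors3.Alpha
import Pool.Agent.Lib.MP_48b749_nt.Tors3.Val

/-!
Valuations of `k(t)` modulo three: units times cubes, and the product formula.
-/

set_option autoImplicit false

open Polynomial IsDedekindDomain WithZero

namespace Pool.Agent.BSDFF.T3

/-- The value modulo three. -/
noncomputable def vchar {F : Type} [Field F] (v : Valuation F (WithZero (Multiplicative ℤ)))
    (x : F) : ZMod 3 :=
  ((log (v x) : ℤ) : ZMod 3)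

theorem vchar_isChar {F : Type} [Field F] (v : Valuation F (WithZero (Multiplicative ℤ))) :
    IsChar (vchar v) := by
  intro x y hx hy
  unfold vchar
  rw [log_v_mul v hx hy]
  push_cast
  ring

theorem vchar_eq_zero {F : Type} [Field F] {v : Valuation F (WithZero (Multiplicative ℤ))}
    {x : F} : vchar v x = 0 ↔ (3 : ℤ) ∣ log (v x) := by
  unfold vchar
  exact ZMod.intCast_zmod_eq_zero_iff_dvd _ _

variable {k : Type} [Field k]

/-- The valuation of a prime of `k[t]` on `k(t)`. -/
noncomputable def pval (v : HeightOneSpectrum k[X]) :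
    Valuation (RatFunc k) (WithZero (Multiplicative ℤ)) :=
  v.valuation (RatFunc k)

/-- The prime generated by a prime polynomial. -/
noncomputable def ofPrime {p : k[X]} (hp : Prime p) : HeightOneSpectrum k[X] :=
  ⟨Ideal.span {p}, (Ideal.span_singleton_prime hp.ne_zero).mpr hp, by simpa using hp.ne_zero⟩

theorem pval_poly_le (v : HeightOneSpectrum k[X]) (f : k[X]) :
    pval v (algebraMap k[X] (RatFunc k) f) ≤ 1 :=
  v.valuation_le_one f

theorem pval_lt_one_iff (v : HeightOneSpectrum k[X]) (f : k[X]) :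
    pval v (algebraMap k[X] (RatFunc k) f) < 1 ↔ f ∈ v.asIdeal :=
  v.valuation_lt_one_iff_mem f

theorem pval_eq_one_iff (v : HeightOneSpectrum k[X]) (f : k[X]) :
    pval v (algebraMap k[X] (RatFunc k) f) = 1 ↔ f ∉ v.asIdeal := by
  rw [← pval_lt_one_iff, not_lt]
  exact ⟨fun h => h.ge, fun h => le_antisymm (pval_poly_le v f) h⟩

theorem pval_le_exp_iff (v : HeightOneSpectrum k[X]) (f : k[X]) (n : ℕ) :
    pval v (algebraMap k[X] (RatFunc k) f) ≤ exp (-(n : ℤ)) ↔ f ∈ v.asIdeal ^ n := by
  unfold pval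
  rw [v.valuation_of_algebraMap, v.intValuation_le_pow_iff_mem]

theorem pval_C (v : HeightOneSpectrum k[X]) {c : k} (hc : c ≠ 0) :
    pval v (algebraMap k[X] (RatFunc k) (C c)) = 1 := by
  rw [pval_eq_one_iff]
  intro h
  exact v.isPrime.ne_top (Ideal.eq_top_of_isUnit_mem _ h (isUnit_C.mpr (isUnit_iff_ne_zero.mpr hc)))

theorem poly_unit_cube (n : ℕ) : ∀ f : k[X], f ≠ 0 → f.natDegree ≤ n →
    (∀ v : HeightOneSpectrum k[X], (3 : ℤ) ∣ log (pval v (algebraMap k[X] (RatFunc k) f))) →
    ∃ (c : k) (g : k[X]), c ≠ 0 ∧ g ≠ 0 ∧ f = C c * g ^ 3 := by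
  induction n using Nat.strong_induction_on with
  | _ n ih =>
    intro f hf hn hv
    by_cases hu : IsUnit f
    · obtain ⟨c, hc, rfl⟩ := Polynomial.isUnit_iff.mp hu
      exact ⟨c, 1, hc.ne_zero, one_ne_zero, by simp⟩
    · obtain ⟨p, hp, hpf⟩ := WfDvdMonoid.exists_irreducible_factor hu hf
      have hp' : Prime p := hp.prime
      let v := ofPrime hp'
      have hmem : f ∈ v.asIdeal := Ideal.mem_span_singleton.mpr hpf
      have hlt := (pval_lt_one_iff v f).mpr hmem
      have hf' : algebraMap k[X] (RatFunc k) f ≠ 0 := by simpa using hf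
      rw [v_eq_exp (pval v) hf', ← exp_zero, exp_lt_exp] at hlt
      have h3 := hv v
      have hle : pval v (algebraMap k[X] (RatFunc k) f) ≤ exp (-((3 : ℕ) : ℤ)) := by
        rw [v_eq_exp (pval v) hf', exp_le_exp]
        push_cast
        omega
      rw [pval_le_exp_iff] at hle
      have hle2 : f ∈ Ideal.span {p ^ 3} := by
        rw [← Ideal.span_singleton_pow]
        exact hle
      obtain ⟨h, rfl⟩ := Ideal.mem_span_singleton.mp hle2
      have hh : h ≠ 0 := right_ne_zero_of_mul hf
      have hp0 : p ≠ 0 := hp.ne_zero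
      have hd : (p ^ 3 * h).natDegree = 3 * p.natDegree + h.natDegree := by
        rw [natDegree_mul (pow_ne_zero 3 hp0) hh, natDegree_pow]
      have hpd := hp.natDegree_pos
      obtain ⟨c, g, hc, hg, hcg⟩ := ih h.natDegree (by omega) h hh le_rfl (by
        intro w
        have h1 := hv w
        rw [map_mul, map_pow, log_v_mul _ (pow_ne_zero 3 (by simpa using hp0))
          (by simpa using hh), map_pow, log_pow] at h1
        simp only [nsmul_eq_mul, Nat.cast_ofNat] at h1
        omega)
      exact ⟨c, p * g, hc, mul_ne_zero hp0 hg, by rw [hcg]; ring⟩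

/-- An element of `k(t)` whose values are all divisible by three is a constant times a cube. -/
theorem unit_cube {x : RatFunc k} (hx : x ≠ 0)
    (hv : ∀ v : HeightOneSpectrum k[X], vchar (pval v) x = 0) :
    ∃ (c : k) (w : RatFunc k), c ≠ 0 ∧ w ≠ 0 ∧ x = RatFunc.C c * w ^ 3 := by
  have hd : algebraMap k[X] (RatFunc k) x.denom ≠ 0 := by simpa using x.denom_ne_zero
  have hn : algebraMap k[X] (RatFunc k) x.num ≠ 0 := by simpa using hx
  have hx2 : x * algebraMap k[X] (RatFunc k) x.denom = algebraMap k[X] (RatFunc k) x.num :=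
    ((div_eq_iff hd).mp (RatFunc.num_div_denom x)).symm
  obtain ⟨c, g, hc, hg, hcg⟩ := poly_unit_cube _ (x.num * x.denom ^ 2)
    (mul_ne_zero (RatFunc.num_ne_zero hx) (pow_ne_zero 2 x.denom_ne_zero)) le_rfl (by
      intro v
      have h1 := vchar_eq_zero.mp (hv v)
      have h2 : algebraMap k[X] (RatFunc k) (x.num * x.denom ^ 2) =
          x * (algebraMap k[X] (RatFunc k) x.denom) ^ 3 := by
        rw [map_mul, map_pow, ← hx2]; ring
      rw [h2, log_v_mul _ hx (pow_ne_zero 3 hd), map_pow, log_pow]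
      simp only [nsmul_eq_mul, Nat.cast_ofNat]
      omega)
  refine ⟨c, algebraMap k[X] (RatFunc k) g / algebraMap k[X] (RatFunc k) x.denom, hc,
    div_ne_zero (by simpa using hg) hd, ?_⟩
  have h3 := congrArg (algebraMap k[X] (RatFunc k)) hcg
  rw [map_mul, map_mul, map_pow, map_pow, RatFunc.algebraMap_C, ← hx2] at h3
  rw [div_pow, mul_div_assoc', ← h3]
  field_simp

/-- Finite support and the degree formula for one element. -/
def GoodZ (x : RatFunc k) : Prop :=
  (Function.support fun v : HeightOneSpectrum k[X] => log (pval v x) * (MW.vdeg v : ℤ)).Finite ∧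
    ∑ᶠ v : HeightOneSpectrum k[X], log (pval v x) * (MW.vdeg v : ℤ) = -x.intDegree

theorem GoodZ.mul {x y : RatFunc k} (hx0 : x ≠ 0) (hy0 : y ≠ 0) (hx : GoodZ x) (hy : GoodZ y) :
    GoodZ (x * y) := by
  have h : ∀ v : HeightOneSpectrum k[X], log (pval v (x * y)) * (MW.vdeg v : ℤ) =
      log (pval v x) * (MW.vdeg v : ℤ) + log (pval v y) * (MW.vdeg v : ℤ) := by
    intro v
    rw [log_v_mul _ hx0 hy0]; ring
  refine ⟨(hx.1.union hy.1).subset ?_, ?_⟩
  · intro v hv
    simp only [Set.mem_union, Function.mem_support] at hv ⊢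
    by_contra h2
    push Not at h2
    apply hv
    rw [h, h2.1, h2.2, add_zero]
  · rw [finsum_congr h, finsum_add_distrib hx.1 hy.1, hx.2, hy.2, RatFunc.intDegree_mul hx0 hy0]
    ring

theorem GoodZ.inv {x : RatFunc k} (hx : GoodZ x) : GoodZ x⁻¹ := by
  have h : ∀ v : HeightOneSpectrum k[X], log (pval v x⁻¹) * (MW.vdeg v : ℤ) =
      -(log (pval v x) * (MW.vdeg v : ℤ)) := by
    intro v
    rw [map_inv₀, log_inv]; ring
  refine ⟨hx.1.subset ?_, ?_⟩
  · intro v hv
    simp only [Function.mem_support] at hv ⊢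
    intro h2
    apply hv
    rw [h, h2, neg_zero]
  · rw [finsum_congr h, finsum_neg_distrib, hx.2, RatFunc.intDegree_inv]

theorem goodZ_unit {u : k[X]} (hu : IsUnit u) : GoodZ (algebraMap k[X] (RatFunc k) u) := by
  obtain ⟨c, hc, rfl⟩ := Polynomial.isUnit_iff.mp hu
  have h : ∀ v : HeightOneSpectrum k[X], log (pval v (algebraMap k[X] (RatFunc k) (C c))) *
      (MW.vdeg v : ℤ) = 0 := by
    intro v
    rw [pval_C v hc.ne_zero, log_one, zero_mul]
  refine ⟨?_, ?_⟩
  · simp only [h]
    simp
  · rw [finsum_congr h, finsum_zero, RatFunc.intDegree_polynomial, natDegree_C]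
    simp

theorem goodZ_prime {p : k[X]} (hp : Prime p) : GoodZ (algebraMap k[X] (RatFunc k) p) := by
  have h : ∀ v : HeightOneSpectrum k[X], v ≠ ofPrime hp →
      log (pval v (algebraMap k[X] (RatFunc k) p)) * (MW.vdeg v : ℤ) = 0 := by
    intro v hv
    have h1 : pval v (algebraMap k[X] (RatFunc k) p) = 1 := by
      rw [pval_eq_one_iff]
      intro h
      apply hv
      ext1
      have h2 : Ideal.span {p} ≤ v.asIdeal := (Ideal.span_singleton_le_iff_mem _).mpr h
      exact (((ofPrime hp).isMaximal.eq_of_le v.isPrime.ne_top h2)).symm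
    rw [h1, log_one, zero_mul]
  refine ⟨(Set.finite_singleton (ofPrime hp)).subset ?_, ?_⟩
  · intro v hv
    by_contra h2
    exact hv (h v h2)
  · rw [finsum_eq_single _ (ofPrime hp) h, RatFunc.intDegree_polynomial]
    have h1 : pval (ofPrime hp) (algebraMap k[X] (RatFunc k) p) = exp (-1 : ℤ) := by
      unfold pval
      rw [HeightOneSpectrum.valuation_of_algebraMap,
        HeightOneSpectrum.intValuation_singleton _ hp.ne_zero rfl]
    rw [h1, log_exp, MW.vdeg_eq (ofPrime hp) rfl]
    ring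

theorem goodZ_poly {f : k[X]} (hf : f ≠ 0) : GoodZ (algebraMap k[X] (RatFunc k) f) := by
  induction f using UniqueFactorizationMonoid.induction_on_prime with
  | h₁ => exact absurd rfl hf
  | h₂ x hx => exact goodZ_unit hx
  | h₃ a p ha hp ih =>
    rw [map_mul]
    exact (goodZ_prime hp).mul (by simpa using hp.ne_zero) (by simpa using ha) (ih ha)

theorem goodZ {x : RatFunc k} (hx : x ≠ 0) : GoodZ x := by
  rw [← RatFunc.num_div_denom x, div_eq_mul_inv]
  exact (goodZ_poly (RatFunc.num_ne_zero hx)).mul (by simpa using hx)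
    (inv_ne_zero (by simpa using x.denom_ne_zero)) (goodZ_poly (RatFunc.denom_ne_zero x)).inv

/-- The degree formula modulo three. -/
theorem degree_mod3 {x : RatFunc k} (hx : x ≠ 0) (S : Finset (HeightOneSpectrum k[X]))
    (hS : ∀ v, v ∉ S → vchar (pval v) x = 0) :
    ∑ v ∈ S, vchar (pval v) x * ((MW.vdeg v : ℕ) : ZMod 3) = -((x.intDegree : ℤ) : ZMod 3) := by
  classical
  obtain ⟨h1, h2⟩ := goodZ hx
  have h3 : ∑ v ∈ S ∪ h1.toFinset, log (pval v x) * (MW.vdeg v : ℤ) = -x.intDegree := by
    rw [← h2]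
    symm
    apply finsum_eq_sum_of_support_subset
    intro v hv
    simp only [Finset.coe_union, Set.mem_union, Finset.mem_coe, Set.Finite.mem_toFinset]
    right
    exact hv
  have h4 := congrArg (fun z : ℤ => (z : ZMod 3)) h3
  simp only [Int.cast_sum, Int.cast_mul, Int.cast_neg, Int.cast_natCast] at h4
  rw [← h4]
  apply Finset.sum_subset Finset.subset_union_left
  intro v _ hv
  rw [hS v hv, zero_mul]

end Pool.Agent.BSDFF.T3
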