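import Pool.Agent.Lib.MP_48b749_nt.Tors3.Quad

/-!
Primes of `k'[t]` over primes of `k[t]`, `k'/k` quadratic.
-/

set_option autoImplicit false

open Polynomial IsDedekindDomain WithZero

namespace Pool.Agent.BSDFF.T3

/-- The generator of a prime. -/
noncomputable abbrev gen {k : Type} [Field k] (v : HeightOneSpectrum k[X]) : k[X] :=
  Submodule.IsPrincipal.generator v.asIdeal

theorem mem_iff {k : Type} [Field k] (v : HeightOneSpectrum k[X]) (f : k[X]) :
    f ∈ v.asIdeal ↔ gen v ∣ f :=
  (Submodule.IsPrincipal.mem_iff_generator_dvd v.asIdeal)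

theorem mem_pow_iff {k : Type} [Field k] (v : HeightOneSpectrum k[X]) (f : k[X]) (n : ℕ) :
    f ∈ v.asIdeal ^ n ↔ gen v ^ n ∣ f := by
  conv_lhs => rw [MW.span_gen v, Ideal.span_singleton_pow, Ideal.mem_span_singleton]

theorem eq_of_le {k : Type} [Field k] {v w : HeightOneSpectrum k[X]}
    (h : v.asIdeal ≤ w.asIdeal) : v = w := by
  ext1
  exact v.isMaximal.eq_of_le w.isPrime.ne_top h

variable {k k' : Type} [Field k] [Field k'] (E : Ext k k')

theorem map_σ_dvd {f g : k'[X]} : f.map E.σ ∣ g ↔ f ∣ g.map E.σ := by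
  constructor
  · intro h
    have := Polynomial.map_dvd E.σ h
    rwa [map_ss] at this
  · intro h
    have := Polynomial.map_dvd E.σ h
    rwa [map_ss] at this

/-- The conjugate prime. -/
noncomputable def conj (w : HeightOneSpectrum k'[X]) : HeightOneSpectrum k'[X] where
  asIdeal := w.asIdeal.comap (pm E.σ)
  isPrime := Ideal.comap_isPrime _ _
  ne_bot := by
    intro h
    have h1 : (gen w).map E.σ ∈ w.asIdeal.comap (pm E.σ) := by
      rw [Ideal.mem_comap, mem_iff]
      change gen w ∣ ((gen w).map E.σ).map E.σ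
      rw [map_ss]
    rw [h, Ideal.mem_bot] at h1
    exact MW.gen_ne_zero w ((Polynomial.map_eq_zero E.σ).mp h1)

theorem mem_conj (w : HeightOneSpectrum k'[X]) (f : k'[X]) :
    f ∈ (conj E w).asIdeal ↔ f.map E.σ ∈ w.asIdeal := Iff.rfl

theorem conj_span (w : HeightOneSpectrum k'[X]) :
    (conj E w).asIdeal = Ideal.span {(gen w).map E.σ} := by
  ext f
  rw [mem_conj, mem_iff, Ideal.mem_span_singleton, map_σ_dvd]

theorem conj_conj (w : HeightOneSpectrum k'[X]) : conj E (conj E w) = w := by
  ext f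
  rw [mem_conj, mem_conj, map_ss]

/-- The prime below. -/
noncomputable def contr (w : HeightOneSpectrum k'[X]) : HeightOneSpectrum k[X] where
  asIdeal := w.asIdeal.comap (pm E.ι)
  isPrime := Ideal.comap_isPrime _ _
  ne_bot := by
    intro h
    obtain ⟨n, hn⟩ := exists_norm E (gen w)
    have h1 : n ∈ w.asIdeal.comap (pm E.ι) := by
      rw [Ideal.mem_comap, mem_iff]
      change gen w ∣ n.map E.ι
      rw [hn]
      exact dvd_mul_right _ _
    rw [h, Ideal.mem_bot] at h1
    subst h1
    rw [Polynomial.map_zero] at hn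
    rcases mul_eq_zero.mp hn.symm with h2 | h2
    · exact MW.gen_ne_zero w h2
    · exact MW.gen_ne_zero w ((Polynomial.map_eq_zero E.σ).mp h2)

theorem mem_contr (w : HeightOneSpectrum k'[X]) (f : k[X]) :
    f ∈ (contr E w).asIdeal ↔ f.map E.ι ∈ w.asIdeal := Iff.rfl

theorem contr_conj (w : HeightOneSpectrum k'[X]) : contr E (conj E w) = contr E w := by
  ext f
  rw [mem_contr, mem_contr, mem_conj, map_si]

theorem eq_of_contr {w₁ w₂ : HeightOneSpectrum k'[X]} (h : contr E w₁ = contr E w₂) :
    w₁ = w₂ ∨ conj E w₁ = w₂ := by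
  obtain ⟨n, hn⟩ := exists_norm E (gen w₁)
  have h1 : n ∈ (contr E w₁).asIdeal := by
    rw [mem_contr, mem_iff, hn]
    exact dvd_mul_right _ _
  rw [h, mem_contr, hn] at h1
  rcases w₂.isPrime.mem_or_mem h1 with h2 | h2
  · left
    apply eq_of_le
    rw [MW.span_gen w₁]
    exact (Ideal.span_singleton_le_iff_mem _).mpr h2
  · right
    apply eq_of_le
    rw [conj_span]
    exact (Ideal.span_singleton_le_iff_mem _).mpr h2

theorem val_ext {a b : WithZero (Multiplicative ℤ)} (ha : a ≠ 0) (hb : b ≠ 0) (ha1 : a ≤ 1)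
    (hb1 : b ≤ 1) (h : ∀ n : ℕ, a ≤ exp (-(n : ℤ)) ↔ b ≤ exp (-(n : ℤ))) : a = b := by
  rw [← exp_log ha, ← exp_log hb]
  rw [← exp_log ha, ← exp_zero, exp_le_exp] at ha1
  rw [← exp_log hb, ← exp_zero, exp_le_exp] at hb1
  obtain ⟨i, hi⟩ := Int.eq_ofNat_of_zero_le (neg_nonneg.mpr ha1)
  obtain ⟨j, hj⟩ := Int.eq_ofNat_of_zero_le (neg_nonneg.mpr hb1)
  have h1 := h i
  have h2 := h j
  rw [← exp_log ha, ← exp_log hb, exp_le_exp, exp_le_exp] at h1 h2
  have : log a = log b := by omega
  rw [this]

theorem pval_conj_poly (w : HeightOneSpectrum k'[X]) (f : k'[X]) :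
    pval (conj E w) (algebraMap k'[X] (RatFunc k') f) =
      pval w (algebraMap k'[X] (RatFunc k') (f.map E.σ)) := by
  by_cases hf : f = 0
  · subst hf; simp
  · have hf' : f.map E.σ ≠ 0 := (Polynomial.map_ne_zero_iff E.σ.injective).mpr hf
    apply val_ext
    · rw [Valuation.ne_zero_iff]; simpa using hf
    · rw [Valuation.ne_zero_iff]; simpa using hf'
    · exact pval_poly_le _ _
    · exact pval_poly_le _ _
    · intro n
      rw [pval_le_exp_iff, pval_le_exp_iff, mem_pow_iff w, conj_span, Ideal.span_singleton_pow,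
        Ideal.mem_span_singleton, ← Polynomial.map_pow, map_σ_dvd]

theorem pval_conj (w : HeightOneSpectrum k'[X]) (x : RatFunc k') :
    pval (conj E w) x = pval w (rm E.σ x) := by
  rw [← RatFunc.num_div_denom x, map_div₀, map_div₀, map_div₀, pval_conj_poly, pval_conj_poly,
    rm_poly, rm_poly]

/-- Structure of the prime below: its generator is either the norm (split case) or generates the
prime above (inert case). -/
theorem contr_cases (w : HeightOneSpectrum k'[X]) :
    ∃ n : k[X], (contr E w).asIdeal = Ideal.span {n} ∧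
      ((n.natDegree = 2 * MW.vdeg w ∧ n.map E.ι = gen w * (gen w).map E.σ ∧
          IsCoprime (gen w) ((gen w).map E.σ)) ∨
        (n.natDegree = MW.vdeg w ∧ conj E w = w ∧ Associated (n.map E.ι) (gen w))) := by
  have hp := MW.gen_prime w
  by_cases hw : conj E w = w
  · -- inert
    set f := gen w * C (gen w).leadingCoeff⁻¹ with hfdef
    have hm : f.Monic := monic_mul_leadingCoeff_inv (MW.gen_ne_zero w)
    have hlc : (gen w).leadingCoeff⁻¹ ≠ 0 :=
      inv_ne_zero (leadingCoeff_ne_zero.mpr (MW.gen_ne_zero w))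
    have hass : Associated f (gen w) := by
      refine ⟨(isUnit_C.mpr (isUnit_iff_ne_zero.mpr (inv_ne_zero hlc))).unit, ?_⟩
      rw [IsUnit.unit_spec, hfdef, mul_assoc, ← C_mul, mul_inv_cancel₀ hlc, C_1, mul_one]
    have hass2 : Associated (f.map E.σ) ((gen w).map E.σ) := hass.map (pm E.σ)
    have hass3 : Associated ((gen w).map E.σ) (gen w) := by
      rw [← Ideal.span_singleton_eq_span_singleton, ← conj_span, hw]
      exact MW.span_gen w
    have hσ : f.map E.σ = f :=
      eq_of_monic_of_associated (hm.map E.σ) hm (hass2.trans (hass3.trans hass.symm))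
    obtain ⟨n, hn⟩ := lifts_fixed E hσ
    refine ⟨n, ?_, Or.inr ⟨?_, hw, ?_⟩⟩
    · ext h
      rw [mem_contr, mem_iff, Ideal.mem_span_singleton, ← hass.dvd_iff_dvd_left, ← hn,
        Polynomial.map_dvd_map']
    · have h1 : n.natDegree = f.natDegree := by rw [← hn, natDegree_map]
      rw [h1]
      exact natDegree_eq_of_degree_eq (degree_eq_degree_of_associated hass)
    · rw [hn]; exact hass
  · -- split
    obtain ⟨n, hn⟩ := exists_norm E (gen w)
    have hcop : IsCoprime (gen w) ((gen w).map E.σ) := by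
      rw [hp.irreducible.coprime_iff_not_dvd]
      intro h
      apply hw
      apply eq_of_le
      rw [conj_span, Ideal.span_singleton_le_iff_mem, mem_iff]
      exact h
    refine ⟨n, ?_, Or.inl ⟨?_, hn, hcop⟩⟩
    · ext h
      rw [mem_contr, mem_iff, Ideal.mem_span_singleton, ← Polynomial.map_dvd_map' E.ι, hn]
      constructor
      · intro h1
        apply hcop.mul_dvd h1
        have := Polynomial.map_dvd E.σ h1
        rwa [map_si] at this
      · intro h1
        exact (dvd_mul_right _ _).trans h1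
    · have h1 : n.natDegree = (n.map E.ι).natDegree := by rw [natDegree_map]
      rw [h1, hn, natDegree_mul (MW.gen_ne_zero w)
        ((Polynomial.map_ne_zero_iff E.σ.injective).mpr (MW.gen_ne_zero w)), natDegree_map]
      change MW.vdeg w + MW.vdeg w = _
      ring

theorem vdeg_contr (w : HeightOneSpectrum k'[X]) :
    (MW.vdeg (contr E w) = 2 * MW.vdeg w) ∨ (MW.vdeg (contr E w) = MW.vdeg w ∧ conj E w = w) := by
  obtain ⟨n, hn, h⟩ := contr_cases E w
  rcases h with h | h
  · left; rw [MW.vdeg_eq _ hn, h.1]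
  · right; exact ⟨by rw [MW.vdeg_eq _ hn, h.1], h.2.1⟩

/-- If the cube of the prime above divides, so does the cube of the prime below. -/
theorem cube_dvd (w : HeightOneSpectrum k'[X]) {h : k[X]}
    (h1 : h.map E.ι ∈ w.asIdeal ^ 3) : h ∈ (contr E w).asIdeal ^ 3 := by
  obtain ⟨n, hn, hc⟩ := contr_cases E w
  rw [mem_pow_iff] at h1
  rw [hn, Ideal.span_singleton_pow, Ideal.mem_span_singleton, ← Polynomial.map_dvd_map' E.ι,
    Polynomial.map_pow]
  rcases hc with ⟨_, h2, h3⟩ | ⟨_, _, h2⟩
  · rw [h2, mul_pow]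
    apply (h3.pow (m := 3) (n := 3)).mul_dvd h1
    have := Polynomial.map_dvd E.σ h1
    rwa [map_si, Polynomial.map_pow] at this
  · exact ((h2.pow_pow (n := 3)).dvd_iff_dvd_left).mpr h1

/-- There is a prime above every prime. -/
theorem exists_above (v : HeightOneSpectrum k[X]) :
    ∃ w : HeightOneSpectrum k'[X], contr E w = v := by
  have hp := MW.gen_prime v
  have h0 : (gen v).map E.ι ≠ 0 := (Polynomial.map_ne_zero_iff E.ι.injective).mpr hp.ne_zero
  have hu : ¬IsUnit ((gen v).map E.ι) := by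
    intro h
    have h1 := natDegree_eq_zero_of_isUnit h
    rw [natDegree_map] at h1
    have h2 : 0 < (gen v).natDegree := hp.irreducible.natDegree_pos
    exact h2.ne' h1
  obtain ⟨p, hp1, hp2⟩ := WfDvdMonoid.exists_irreducible_factor hu h0
  refine ⟨ofPrime hp1.prime, ?_⟩
  symm
  apply eq_of_le
  rw [MW.span_gen v, Ideal.span_singleton_le_iff_mem, mem_contr]
  exact Ideal.mem_span_singleton.mpr hp2

end Pool.Agent.BSDFF.T3
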