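import Pool.Agent.Lib.MP_48b749_nt.Tors3.Kernel
import Pool.Agent.Lib.MP_48b749_nt.Tors3.Poly

/-!
The quadratic constant extension of `k(t)`.
-/

set_option autoImplicit false

open Polynomial IsDedekindDomain WithZero

namespace Pool.Agent.BSDFF.T3

variable {k k' : Type} [Field k] [Field k']

/-- The map of polynomial rings. -/
noncomputable abbrev pm (φ : k →+* k') : k[X] →+* k'[X] := mapRingHom φ

theorem pm_injective (φ : k →+* k') : Function.Injective (pm φ) :=
  Polynomial.map_injective φ φ.injective

/-- The map of rational function fields. -/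
noncomputable def rm (φ : k →+* k') : RatFunc k →+* RatFunc k' :=
  IsFractionRing.map (K := RatFunc k) (L := RatFunc k') (pm_injective φ)

theorem rm_poly (φ : k →+* k') (f : k[X]) :
    rm φ (algebraMap k[X] (RatFunc k) f) = algebraMap k'[X] (RatFunc k') (f.map φ) := by
  unfold rm IsFractionRing.map
  rw [IsLocalization.map_eq]
  rfl

/-- Two ring homomorphisms on `k(t)` agree if they agree on polynomials. -/
theorem ratfunc_ext {F : Type} [Field F] {f g : RatFunc k →+* F}
    (h : ∀ p : k[X], f (algebraMap k[X] (RatFunc k) p) = g (algebraMap k[X] (RatFunc k) p)) :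
    f = g := by
  ext x
  rw [← RatFunc.num_div_denom x, map_div₀, map_div₀, h, h]

theorem lifts_fixed (E : Ext k k') {f : k'[X]} (hf : f.map E.σ = f) : ∃ g : k[X], g.map E.ι = f := by
  have : f ∈ Polynomial.lifts E.ι := by
    rw [Polynomial.lifts_iff_coeff_lifts]
    intro n
    obtain ⟨y, hy⟩ := E.fixed (f.coeff n) (by
      conv_rhs => rw [← hf]
      rw [coeff_map])
    exact ⟨y, hy⟩
  exact (Polynomial.mem_lifts f).mp this

theorem map_ss (E : Ext k k') (f : k'[X]) : (f.map E.σ).map E.σ = f := by
  rw [Polynomial.map_map]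
  have : E.σ.comp E.σ = RingHom.id k' := by ext x; exact E.σσ x
  rw [this, Polynomial.map_id]

theorem map_si (E : Ext k k') (f : k[X]) : (f.map E.ι).map E.σ = f.map E.ι := by
  rw [Polynomial.map_map]
  have : E.σ.comp E.ι = E.ι := by ext x; exact E.σι x
  rw [this]

/-- The norm of a polynomial. -/
theorem exists_norm (E : Ext k k') (f : k'[X]) : ∃ g : k[X], g.map E.ι = f * f.map E.σ := by
  apply lifts_fixed
  rw [Polynomial.map_mul, map_ss, mul_comm]

/-- The extension of the rational function fields. -/
noncomputable def Ext.rat (E : Ext k k') : Ext (RatFunc k) (RatFunc k') where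
  ι := rm E.ι
  σ := rm E.σ
  ω := algebraMap k'[X] (RatFunc k') (C E.ω)
  hω := by
    rw [← map_pow, ← map_add, ← map_one (algebraMap k'[X] (RatFunc k')), ← map_add, ← C_pow,
      ← C_add, ← C_1, ← C_add, E.hω, C_0, map_zero]
  σω := by
    rw [rm_poly, map_C, E.σω, C_pow, map_pow]
  σι := by
    intro x
    have : (rm E.σ).comp (rm E.ι) = rm E.ι := by
      apply ratfunc_ext
      intro p
      rw [RingHom.comp_apply, rm_poly, rm_poly, map_si]
    exact congrArg (fun f => f x) this
  σσ := by
    intro x
    have : (rm E.σ).comp (rm E.σ) = RingHom.id _ := by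
      apply ratfunc_ext
      intro p
      rw [RingHom.comp_apply, rm_poly, rm_poly, map_ss, RingHom.id_apply]
    exact congrArg (fun f => f x) this
  fixed := by
    intro x hx
    obtain ⟨n, hn⟩ := exists_norm E x.denom
    have hd : algebraMap k'[X] (RatFunc k') x.denom ≠ 0 := by simpa using x.denom_ne_zero
    have hd2 : algebraMap k'[X] (RatFunc k') (x.denom.map E.σ) ≠ 0 := by
      rw [← rm_poly, _root_.map_ne_zero]; exact hd
    have h1 : x * algebraMap k'[X] (RatFunc k') (x.denom * x.denom.map E.σ) =
        algebraMap k'[X] (RatFunc k') (x.num * x.denom.map E.σ) := by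
      rw [map_mul, map_mul, ← mul_assoc]
      congr 1
      exact ((div_eq_iff hd).mp (RatFunc.num_div_denom x)).symm
    have h2 : (x.num * x.denom.map E.σ).map E.σ = x.num * x.denom.map E.σ := by
      apply IsFractionRing.injective k'[X] (RatFunc k')
      rw [← rm_poly, ← h1, map_mul, hx, rm_poly, ← hn, map_si, hn]
    obtain ⟨m, hm⟩ := lifts_fixed E h2
    refine ⟨algebraMap k[X] (RatFunc k) m / algebraMap k[X] (RatFunc k) n, ?_⟩
    rw [map_div₀, rm_poly, rm_poly, hm, hn, ← h1]
    have h3 : algebraMap k'[X] (RatFunc k') (x.denom * x.denom.map E.σ) ≠ 0 := by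
      rw [map_mul]; exact mul_ne_zero hd hd2
    field_simp
  three := by
    intro h
    apply E.three
    have h2 : (algebraMap k[X] (RatFunc k)) (C (3 : k)) = 0 := by
      rw [show (C (3 : k) : k[X]) = 3 from rfl, map_ofNat]
      exact h
    simpa using h2

end Pool.Agent.BSDFF.T3
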